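import Pool.Agent.H88.Gen.Basic

/-!
# Embeddings
-/

set_option autoImplicit false

namespace Pool.Agent.H88.Gen

open scoped Classical

/-- `f` embeds the structure `T` on `E` into `S`. -/
structure Emb (T S : Str) (E : Set ℕ) (f : ℕ → ℕ) : Prop where
  inj : Set.InjOn f E
  kind : ∀ a ∈ E, S.kind (f a) = T.kind a
  I : ∀ a ∈ E, ∀ b ∈ E, (S.I (f a) (f b) ↔ T.I a b)
  R : ∀ a ∈ E, ∀ b ∈ E, (S.R (f a) (f b) ↔ T.R a b)

namespace Emb

variable {T S U : Str} {E : Set ℕ} {f g : ℕ → ℕ}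

theorem refl (S : Str) (E : Set ℕ) : Emb S S E id :=
  ⟨Set.injOn_id E, fun _ _ => rfl, fun _ _ _ _ => Iff.rfl, fun _ _ _ _ => Iff.rfl⟩

theorem mono (h : Emb T S E f) {E' : Set ℕ} (hE : E' ⊆ E) : Emb T S E' f :=
  ⟨h.inj.mono hE, fun a ha => h.kind a (hE ha), fun a ha b hb => h.I a (hE ha) b (hE hb),
    fun a ha b hb => h.R a (hE ha) b (hE hb)⟩

theorem congr (h : Emb T S E f) (hg : ∀ a ∈ E, g a = f a) : Emb T S E g := by
  refine ⟨h.inj.congr (fun a ha => (hg a ha).symm), fun a ha => ?_, fun a ha b hb => ?_,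
    fun a ha b hb => ?_⟩
  · rw [hg a ha]; exact h.kind a ha
  · rw [hg a ha, hg b hb]; exact h.I a ha b hb
  · rw [hg a ha, hg b hb]; exact h.R a ha b hb

theorem comp (h1 : Emb T S E f) (h2 : Emb S U (f '' E) g) : Emb T U E (g ∘ f) := by
  refine ⟨fun a ha b hb hab => h1.inj ha hb (h2.inj ⟨a, ha, rfl⟩ ⟨b, hb, rfl⟩ hab),
    fun a ha => ?_, fun a ha b hb => ?_, fun a ha b hb => ?_⟩
  · exact (h2.kind _ ⟨a, ha, rfl⟩).trans (h1.kind a ha)
  · exact (h2.I _ ⟨a, ha, rfl⟩ _ ⟨b, hb, rfl⟩).trans (h1.I a ha b hb)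
  · exact (h2.R _ ⟨a, ha, rfl⟩ _ ⟨b, hb, rfl⟩).trans (h1.R a ha b hb)

/-- Inverse of an embedding. -/
theorem symm (h : Emb T S E f) : Emb S T (f '' E) (Function.invFunOn f E) := by
  have hinv : ∀ a ∈ E, Function.invFunOn f E (f a) = a := fun a ha =>
    h.inj.leftInvOn_invFunOn ha
  refine ⟨?_, ?_, ?_, ?_⟩
  · rintro _ ⟨a, ha, rfl⟩ _ ⟨b, hb, rfl⟩ hab
    rw [hinv a ha, hinv b hb] at hab
    rw [hab]
  · rintro _ ⟨a, ha, rfl⟩
    rw [hinv a ha]; exact (h.kind a ha).symm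
  · rintro _ ⟨a, ha, rfl⟩ _ ⟨b, hb, rfl⟩
    rw [hinv a ha, hinv b hb]; exact (h.I a ha b hb).symm
  · rintro _ ⟨a, ha, rfl⟩ _ ⟨b, hb, rfl⟩
    rw [hinv a ha, hinv b hb]; exact (h.R a ha b hb).symm

theorem bad (h : Emb T S E f) {x v l : ℕ} (hx : x ∈ E) (hv : v ∈ E) (hl : l ∈ E) :
    S.Bad (f x) (f v) (f l) ↔ T.Bad x v l := by
  unfold Str.Bad
  rw [h.I v hv l hl, h.R x hx v hv, h.kind x hx, h.kind l hl]

theorem pts (h : Emb T S E f) {X : Finset ℕ} (hX : (X : Set ℕ) ⊆ E) :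
    S.pts (X.image f) = (T.pts X).image f := by
  ext a
  simp only [Str.mem_pts, Finset.mem_image]
  constructor
  · rintro ⟨⟨b, hb, rfl⟩, h2⟩
    exact ⟨b, ⟨hb, by rw [← h2, h.kind b (hX hb)]⟩, rfl⟩
  · rintro ⟨b, ⟨hb, h2⟩, rfl⟩
    exact ⟨⟨b, hb, rfl⟩, by rw [h.kind b (hX hb), h2]⟩

theorem lns (h : Emb T S E f) {X : Finset ℕ} (hX : (X : Set ℕ) ⊆ E) :
    S.lns (X.image f) = (T.lns X).image f := by
  ext a
  simp only [Str.mem_lns, Finset.mem_image]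
  constructor
  · rintro ⟨⟨b, hb, rfl⟩, h2⟩
    exact ⟨b, ⟨hb, by rw [← h.kind b (hX hb)]; exact h2⟩, rfl⟩
  · rintro ⟨b, ⟨hb, h2⟩, rfl⟩
    exact ⟨⟨b, hb, rfl⟩, by rw [h.kind b (hX hb)]; exact h2⟩

theorem incs (h : Emb T S E f) {X : Finset ℕ} (hX : (X : Set ℕ) ⊆ E) :
    S.incs (X.image f) = (T.incs X).image (Prod.map f f) := by
  ext ⟨a, b⟩
  simp only [Str.mem_incs, Finset.mem_image, Prod.exists, Prod.map_apply, Prod.mk.injEq]
  constructor
  · rintro ⟨⟨a, ha, rfl⟩, ⟨b, hb, rfl⟩, h2⟩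
    exact ⟨a, b, ⟨ha, hb, (h.I a (hX ha) b (hX hb)).1 h2⟩, rfl, rfl⟩
  · rintro ⟨a, b, ⟨ha, hb, h2⟩, rfl, rfl⟩
    exact ⟨⟨a, ha, rfl⟩, ⟨b, hb, rfl⟩, (h.I a (hX ha) b (hX hb)).2 h2⟩

theorem card_lns (h : Emb T S E f) {X : Finset ℕ} (hX : (X : Set ℕ) ⊆ E) :
    (S.lns (X.image f)).card = (T.lns X).card := by
  rw [h.lns hX]
  exact Finset.card_image_of_injOn (h.inj.mono (fun a ha => hX (Str.lns_sub X ha)))

theorem dl (h : Emb T S E f) {X : Finset ℕ} (hX : (X : Set ℕ) ⊆ E) :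
    S.dl (X.image f) = T.dl X := by
  have h1 : (S.pts (X.image f)).card = (T.pts X).card := by
    rw [h.pts hX]
    exact Finset.card_image_of_injOn (h.inj.mono (fun a ha =>
      hX (Finset.filter_subset _ _ ha)))
  have h2 := h.card_lns hX
  have h3 : (S.incs (X.image f)).card = (T.incs X).card := by
    rw [h.incs hX]
    apply Finset.card_image_of_injOn
    rintro ⟨a, b⟩ hp ⟨c, d⟩ hq hpq
    have hp := Str.mem_incs.1 (Finset.mem_coe.1 hp)
    have hq := Str.mem_incs.1 (Finset.mem_coe.1 hq)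
    simp only [Prod.map_apply, Prod.mk.injEq] at hpq hp hq
    rw [h.inj (hX hp.1) (hX hq.1) hpq.1, h.inj (hX hp.2.1) (hX hq.2.1) hpq.2]
  unfold Str.dl
  rw [h1, h2, h3]

/-- Every finite subset of the image is the image of a finite subset. -/
theorem exists_image {X : Finset ℕ} (hX : (X : Set ℕ) ⊆ f '' E) :
    ∃ Y : Finset ℕ, (Y : Set ℕ) ⊆ E ∧ X = Y.image f := by
  obtain ⟨Y, hY, hYX⟩ := Finset.subset_set_image_iff.1 hX
  exact ⟨Y, hY, hYX.symm⟩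

theorem good (h : Emb T S E f) (hg : T.Good E) : S.Good (f '' E) := by
  refine ⟨fun X hX => ?_, ?_⟩
  · obtain ⟨Y, hY, rfl⟩ := exists_image hX
    rw [h.dl hY, h.card_lns hY]
    exact hg.1 Y hY
  · rintro _ ⟨x, hx, rfl⟩ _ ⟨l, hl, rfl⟩ X hX hb
    obtain ⟨Y, hY, rfl⟩ := exists_image hX
    rw [Finset.card_image_of_injOn (h.inj.mono hY)]
    refine hg.2 x hx l hl Y hY (fun v hv => ?_)
    exact (h.bad hx (hY hv) hl).1 (hb _ (Finset.mem_image_of_mem _ hv))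

theorem wcl (h : Emb T S E f) {A : Finset ℕ} (hA : T.WCl A E) :
    S.WCl (A.image f) (f '' E) := by
  refine ⟨by rw [Finset.coe_image]; exact Set.image_mono hA.1, fun X hAX hX => ?_⟩
  obtain ⟨Y, hY, rfl⟩ := exists_image hX
  have hAY : A ⊆ Y := by
    intro a ha
    obtain ⟨b, hb, hab⟩ := Finset.mem_image.1 (hAX (Finset.mem_image_of_mem f ha))
    rwa [← h.inj (hY hb) (hA.1 ha) hab]
  rw [h.dl hA.1, h.dl hY]
  exact hA.2 Y hAY hY

theorem cl (h : Emb T S E f) {A : Finset ℕ} (hA : T.Cl A E) :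
    S.Cl (A.image f) (f '' E) := by
  refine ⟨⟨by rw [Finset.coe_image]; exact Set.image_mono hA.1.1, fun X hAX hX => ?_⟩, ?_⟩
  · obtain ⟨Y, hY, rfl⟩ := exists_image hX
    have hAY : A ⊆ Y := by
      intro a ha
      obtain ⟨b, hb, hab⟩ := Finset.mem_image.1 (hAX (Finset.mem_image_of_mem f ha))
      rwa [← h.inj (hY hb) (hA.1.1 ha) hab]
    rw [h.dl hA.1.1, h.dl hY, h.lns hY]
    obtain ⟨h1, h2⟩ := hA.1.2 Y hAY hY
    refine ⟨h1, fun hn => h2 (fun hs => hn (Finset.image_subset_image hs))⟩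
  · intro x' hx' l' hl' v' hv' hb
    obtain ⟨x, hx, rfl⟩ := Finset.mem_image.1 hx'
    obtain ⟨l, hl, rfl⟩ := Finset.mem_image.1 hl'
    obtain ⟨v, hv, rfl⟩ := hv'
    exact Finset.mem_image_of_mem _ (hA.2 x hx l hl v hv
      ((h.bad (hA.1.1 hx) hv (hA.1.1 hl)).1 hb))

theorem free (h : Emb T S E f) {A B : Finset ℕ} (hA : (A : Set ℕ) ⊆ E) (hB : (B : Set ℕ) ⊆ E)
    (hf : T.Free A B) : S.Free (A.image f) (B.image f) := by
  intro a' ha' b' hb' hI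
  rw [← Finset.image_union] at ha' hb'
  obtain ⟨a, ha, rfl⟩ := Finset.mem_image.1 ha'
  obtain ⟨b, hb, rfl⟩ := Finset.mem_image.1 hb'
  have hAB : ∀ c ∈ A ∪ B, c ∈ E := by
    intro c hc
    rcases Finset.mem_union.1 hc with hc | hc
    exacts [hA hc, hB hc]
  rcases hf a ha b hb ((h.I a (hAB a ha) b (hAB b hb)).1 hI) with h1 | h1
  · exact Or.inl ⟨Finset.mem_image_of_mem _ h1.1, Finset.mem_image_of_mem _ h1.2⟩
  · exact Or.inr ⟨Finset.mem_image_of_mem _ h1.1, Finset.mem_image_of_mem _ h1.2⟩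

/-- Transport along an embedding which is the identity on `E`. -/
theorem cl_of_agree {A : Finset ℕ} (h : Emb T S E id) (hA : T.Cl A E) : S.Cl A E := by
  have := h.cl hA
  simpa using this

theorem wcl_of_agree {A : Finset ℕ} (h : Emb T S E id) (hA : T.WCl A E) : S.WCl A E := by
  have := h.wcl hA
  simpa using this

theorem good_of_agree (h : Emb T S E id) (hA : T.Good E) : S.Good E := by
  have := h.good hA
  simpa using this

theorem symm_id (h : Emb T S E id) : Emb S T E id :=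
  ⟨Set.injOn_id E, fun a ha => (h.kind a ha).symm, fun a ha b hb => (h.I a ha b hb).symm,
    fun a ha b hb => (h.R a ha b hb).symm⟩

theorem trans_id (h : Emb T S E id) (h' : Emb S U E id) : Emb T U E id :=
  ⟨Set.injOn_id E, fun a ha => (h'.kind a ha).trans (h.kind a ha),
    fun a ha b hb => (h'.I a ha b hb).trans (h.I a ha b hb),
    fun a ha b hb => (h'.R a ha b hb).trans (h.R a ha b hb)⟩

end Emb

end Pool.Agent.H88.Gen
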