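import Pool.Agent.H88.Gen.ColExt
import Pool.Agent.H88.Gen.Emb

/-!
# Three-amalgamation
-/

set_option autoImplicit false

namespace Pool.Agent.H88.Gen

open scoped Classical

namespace Str

/-- Three pieces in general position. -/
structure Tri (S : Str) (E : Fin 3 → Finset ℕ) : Prop where
  inc : ∀ a b, S.I a b → (∃ i, a ∈ E i) → (∃ i, b ∈ E i) → ∃ i, a ∈ E i ∧ b ∈ E i
  good : ∀ i, S.Good (E i)
  cl : ∀ i j, S.Cl (E i ∩ E j) (E i)
  wcl : ∀ i j k, i ≠ j → j ≠ k → i ≠ k → S.WCl ((E i ∩ E j) ∪ (E i ∩ E k)) (E i)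
  free : ∀ i j k, i ≠ j → j ≠ k → i ≠ k → S.Free (E i ∩ E j) (E i ∩ E k)

/-- The union of the pieces. -/
def tot (E : Fin 3 → Finset ℕ) : Finset ℕ := Finset.univ.biUnion E

theorem mem_tot {E : Fin 3 → Finset ℕ} {a : ℕ} : a ∈ tot E ↔ ∃ i, a ∈ E i := by
  simp [tot]

theorem third {i j k : Fin 3} (h1 : i ≠ j) (h2 : j ≠ k) (h3 : i ≠ k) (m : Fin 3) :
    m = i ∨ m = j ∨ m = k := by
  revert i j k m; decide

theorem others (i : Fin 3) : ∃ j k : Fin 3, i ≠ j ∧ j ≠ k ∧ i ≠ k := by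
  revert i; decide

theorem fin3_cases (m : Fin 3) : m = 0 ∨ m = 1 ∨ m = 2 := by
  revert m; decide

variable {S : Str} {E : Fin 3 → Finset ℕ}

theorem Tri.free2 (h : Tri S E) {i j k : Fin 3} (h1 : i ≠ j) (h2 : j ≠ k) (h3 : i ≠ k)
    (X : Finset ℕ) : S.Free (X ∩ E i) (X ∩ E j) := by
  intro a ha b hb hI
  rw [Finset.mem_union, Finset.mem_inter, Finset.mem_inter] at ha hb
  have haX : a ∈ X := by tauto
  have hbX : b ∈ X := by tauto
  obtain ⟨m, ham, hbm⟩ := h.inc a b hI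
    (by rcases ha with ha | ha; exacts [⟨i, ha.2⟩, ⟨j, ha.2⟩])
    (by rcases hb with hb | hb; exacts [⟨i, hb.2⟩, ⟨j, hb.2⟩])
  simp only [Finset.mem_inter]
  rcases third h1 h2 h3 m with rfl | rfl | rfl
  · tauto
  · tauto
  · have := h.free m i j h3.symm h1 h2.symm a (by
      simp only [Finset.mem_union, Finset.mem_inter]; tauto) b (by
      simp only [Finset.mem_union, Finset.mem_inter]; tauto) hI
    simp only [Finset.mem_inter] at this
    tauto

theorem Tri.claim0 (h : Tri S E) {i j k : Fin 3} (h1 : i ≠ j) (h2 : j ≠ k) (h3 : i ≠ k)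
    {X : Finset ℕ} (hX : X ⊆ tot E) : S.dl ((X ∩ E i) ∪ (X ∩ E j)) ≤ S.dl X := by
  have hf : S.Free ((X ∩ E i) ∪ (X ∩ E j)) (X ∩ E k) := by
    intro a ha b hb hI
    simp only [Finset.mem_union, Finset.mem_inter] at ha hb ⊢
    obtain ⟨m, ham, hbm⟩ := h.inc a b hI (mem_tot.1 (hX (by tauto))) (mem_tot.1 (hX (by tauto)))
    rcases third h1 h2 h3 m with rfl | rfl | rfl <;> tauto
  have h4 := dl_free hf
  have h5 : ((X ∩ E i) ∪ (X ∩ E j)) ∪ (X ∩ E k) = X := by
    ext a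
    simp only [Finset.mem_union, Finset.mem_inter]
    constructor
    · tauto
    · intro ha
      obtain ⟨m, hm⟩ := mem_tot.1 (hX ha)
      rcases third h1 h2 h3 m with rfl | rfl | rfl <;> tauto
  have h6 : ((X ∩ E i) ∪ (X ∩ E j)) ∩ (X ∩ E k) =
      ((E k ∩ E i) ∪ (E k ∩ E j)) ∩ (X ∩ E k) := by
    ext a
    simp only [Finset.mem_union, Finset.mem_inter]
    tauto
  have h7 := (h.wcl k i j h3.symm h1 h2.symm).restrict (Y := X ∩ E k) (by
    exact_mod_cast Finset.inter_subset_right)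
  rw [h5, h6] at h4
  linarith

theorem Tri.claim1 (h : Tri S E) {i j k : Fin 3} (h1 : i ≠ j) (h2 : j ≠ k) (h3 : i ≠ k)
    (X : Finset ℕ) : S.dl (X ∩ E i) ≤ S.dl ((X ∩ E i) ∪ (X ∩ E j)) ∧
      (¬ S.lns (X ∩ E j) ⊆ E i → S.dl (X ∩ E i) + 1 ≤ S.dl ((X ∩ E i) ∪ (X ∩ E j))) := by
  have h4 := dl_free (h.free2 h1 h2 h3 X)
  have h5 := (h.cl j i).1.restrict (Y := X ∩ E j) (by
    exact_mod_cast Finset.inter_subset_right)
  have h6 : (X ∩ E i) ∩ (X ∩ E j) = (E j ∩ E i) ∩ (X ∩ E j) := by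
    ext a
    simp only [Finset.mem_inter]
    tauto
  rw [h6] at h4
  refine ⟨by linarith [h5.1], fun hn => ?_⟩
  have h7 := h5.2 (fun hs => hn (fun a ha => (Finset.mem_inter.1 (hs ha)).2))
  linarith

theorem Tri.claim (h : Tri S E) (i : Fin 3) {X : Finset ℕ} (hX : X ⊆ tot E) :
    S.dl (X ∩ E i) ≤ S.dl X ∧ (¬ S.lns X ⊆ E i → S.dl (X ∩ E i) + 1 ≤ S.dl X) := by
  obtain ⟨j, k, h1, h2, h3⟩ := others i
  have hj := h.claim1 h1 h2 h3 X
  have hk := h.claim1 h3 h2.symm h1 X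
  have hj0 := h.claim0 h1 h2 h3 hX
  have hk0 := h.claim0 h3 h2.symm h1 hX
  refine ⟨by linarith [hj.1], fun hn => ?_⟩
  by_cases hj1 : S.lns (X ∩ E j) ⊆ E i
  · by_cases hk1 : S.lns (X ∩ E k) ⊆ E i
    · exfalso
      apply hn
      intro a ha
      rw [mem_lns] at ha
      obtain ⟨m, hm⟩ := mem_tot.1 (hX ha.1)
      rcases third h1 h2 h3 m with rfl | rfl | rfl
      · exact hm
      · exact hj1 (mem_lns.2 ⟨Finset.mem_inter.2 ⟨ha.1, hm⟩, ha.2⟩)
      · exact hk1 (mem_lns.2 ⟨Finset.mem_inter.2 ⟨ha.1, hm⟩, ha.2⟩)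
    · linarith [hk.2 hk1]
  · linarith [hj.2 hj1]

theorem piece_sub (E : Fin 3 → Finset ℕ) (i : Fin 3) : E i ⊆ tot E :=
  fun _ ha => mem_tot.2 ⟨i, ha⟩

theorem Tri.mcl (h : Tri S E) (i : Fin 3) : S.MCl (E i) (tot E) := by
  refine ⟨by exact_mod_cast piece_sub E i, fun X hEX hX => ?_⟩
  have h1 := h.claim i (X := X) (by exact_mod_cast hX)
  rwa [Finset.inter_eq_right.2 hEX] at h1

theorem Tri.wcl2 (h : Tri S E) {i j k : Fin 3} (h1 : i ≠ j) (h2 : j ≠ k) (h3 : i ≠ k) :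
    S.WCl (E i ∪ E j) (tot E) := by
  refine ⟨by exact_mod_cast Finset.union_subset (piece_sub E i) (piece_sub E j),
    fun X hEX hX => ?_⟩
  have h4 := h.claim0 h1 h2 h3 (X := X) (by exact_mod_cast hX)
  rwa [Finset.inter_eq_right.2 (Finset.union_subset_left hEX),
    Finset.inter_eq_right.2 (Finset.union_subset_right hEX)] at h4

theorem Tri.good_part (h : Tri S E) {X : Finset ℕ} (hX : X ⊆ tot E) :
    0 ≤ S.dl X ∧ (S.lns X).card < 3 ^ (S.dl X).toNat := by
  have hi : ∀ i, 0 ≤ S.dl (X ∩ E i) ∧ (S.lns (X ∩ E i)).card < 3 ^ (S.dl (X ∩ E i)).toNat :=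
    fun i => (h.good i).1 _ (by exact_mod_cast Finset.inter_subset_right)
  have h0 := (hi 0).1
  refine ⟨h0.trans (h.claim 0 hX).1, ?_⟩
  by_cases hx : ∃ i, S.lns X ⊆ E i
  · obtain ⟨i, hx⟩ := hx
    have h1 : S.lns X ⊆ S.lns (X ∩ E i) := by
      intro a ha
      have := mem_lns.1 ha
      exact mem_lns.2 ⟨Finset.mem_inter.2 ⟨this.1, hx ha⟩, this.2⟩
    refine (Finset.card_le_card h1).trans_lt ((hi i).2.trans_le ?_)
    exact Nat.pow_le_pow_right (by norm_num) (Int.toNat_le_toNat (h.claim i hX).1)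
  · push Not at hx
    have h1 : S.lns X ⊆ S.lns (X ∩ E 0) ∪ (S.lns (X ∩ E 1) ∪ S.lns (X ∩ E 2)) := by
      intro a ha
      have ha' := mem_lns.1 ha
      obtain ⟨m, hm⟩ := mem_tot.1 (hX ha'.1)
      rw [Finset.mem_union, Finset.mem_union, mem_lns, mem_lns, mem_lns]
      simp only [Finset.mem_inter]
      rcases fin3_cases m with rfl | rfl | rfl
      · exact Or.inl ⟨⟨ha'.1, hm⟩, ha'.2⟩
      · exact Or.inr (Or.inl ⟨⟨ha'.1, hm⟩, ha'.2⟩)
      · exact Or.inr (Or.inr ⟨⟨ha'.1, hm⟩, ha'.2⟩)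
    have h2 : ∀ i, ((S.lns (X ∩ E i)).card + 1) * 3 ≤ 3 ^ (S.dl X).toNat := by
      intro i
      have h3 := (h.claim i hX).2 (hx i)
      have h4 := (hi i).1
      have h5 : (S.dl (X ∩ E i)).toNat + 1 ≤ (S.dl X).toNat := by omega
      calc ((S.lns (X ∩ E i)).card + 1) * 3 ≤ 3 ^ (S.dl (X ∩ E i)).toNat * 3 :=
            Nat.mul_le_mul_right _ (hi i).2
        _ = 3 ^ ((S.dl (X ∩ E i)).toNat + 1) := (pow_succ _ _).symm
        _ ≤ _ := Nat.pow_le_pow_right (by norm_num) h5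
    have h3 := Finset.card_le_card h1
    have h4 := Finset.card_union_le (S.lns (X ∩ E 0)) (S.lns (X ∩ E 1) ∪ S.lns (X ∩ E 2))
    have h5 := Finset.card_union_le (S.lns (X ∩ E 1)) (S.lns (X ∩ E 2))
    have := h2 0
    have := h2 1
    have := h2 2
    omega

theorem Tri.badLemma (h : Tri S E) {x v l : ℕ} {i j : Fin 3} (hxi : x ∈ E i) (hli : l ∈ E i)
    (hxj : x ∈ E j) (hvj : v ∈ E j) (hb : S.Bad x v l) : v ∈ E i := by
  obtain ⟨m, hvm, hlm⟩ := h.inc v l hb.1 ⟨j, hvj⟩ ⟨i, hli⟩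
  by_cases hxm : x ∈ E m
  · have h1 := (h.cl m i).2 x (Finset.mem_inter.2 ⟨hxm, hxi⟩) l (Finset.mem_inter.2 ⟨hlm, hli⟩)
      v (by exact_mod_cast hvm) hb
    exact (Finset.mem_inter.1 h1).2
  · have hmi : m ≠ i := by rintro rfl; exact hxm hxi
    have hmj : m ≠ j := by rintro rfl; exact hxm hxj
    by_cases hij : i = j
    · rw [hij]; exact hvj
    · have h1 := h.free m i j hmi hij hmj v (by
        simp only [Finset.mem_union, Finset.mem_inter]; tauto) l (by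
        simp only [Finset.mem_union, Finset.mem_inter]; tauto) hb.1
      simp only [Finset.mem_inter] at h1
      rcases h1 with h1 | h1
      · exact h1.1.2
      · have h2 := (h.cl j i).2 x (Finset.mem_inter.2 ⟨hxj, hxi⟩) l
          (Finset.mem_inter.2 ⟨h1.2.2, hli⟩) v (by exact_mod_cast hvj) hb
        exact (Finset.mem_inter.1 h2).2

/-- The pieces containing `x`. -/
noncomputable def Hx (E : Fin 3 → Finset ℕ) (x : ℕ) : Finset ℕ :=
  (tot E).filter fun a => ∃ i, x ∈ E i ∧ a ∈ E i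

theorem mem_Hx {x a : ℕ} : a ∈ Hx E x ↔ ∃ i, x ∈ E i ∧ a ∈ E i := by
  unfold Hx
  rw [Finset.mem_filter, mem_tot]
  exact ⟨fun h => h.2, fun h => ⟨by obtain ⟨i, _, h⟩ := h; exact ⟨i, h⟩, h⟩⟩

theorem WCl.self (A : Finset ℕ) : WCl S A (A : Set ℕ) := (Cl.self A).1.wcl

theorem Tri.wclHx (h : Tri S E) {x : ℕ} (hx : x ∈ tot E) : S.WCl (Hx E x) (tot E) := by
  obtain ⟨i, hi⟩ := mem_tot.1 hx
  obtain ⟨j, k, h1, h2, h3⟩ := others i
  by_cases hj : x ∈ E j
  · by_cases hk : x ∈ E k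
    · have : Hx E x = tot E := by
        ext a
        rw [mem_Hx, mem_tot]
        constructor
        · rintro ⟨m, _, hm⟩; exact ⟨m, hm⟩
        · rintro ⟨m, hm⟩
          refine ⟨m, ?_, hm⟩
          rcases third h1 h2 h3 m with rfl | rfl | rfl <;> assumption
      rw [this]; exact WCl.self _
    · have : Hx E x = E i ∪ E j := by
        ext a
        rw [mem_Hx, Finset.mem_union]
        constructor
        · rintro ⟨m, hxm, hm⟩
          rcases third h1 h2 h3 m with rfl | rfl | rfl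
          · exact Or.inl hm
          · exact Or.inr hm
          · exact absurd hxm hk
        · rintro (h | h)
          exacts [⟨i, hi, h⟩, ⟨j, hj, h⟩]
      rw [this]; exact h.wcl2 h1 h2 h3
  · by_cases hk : x ∈ E k
    · have : Hx E x = E i ∪ E k := by
        ext a
        rw [mem_Hx, Finset.mem_union]
        constructor
        · rintro ⟨m, hxm, hm⟩
          rcases third h1 h2 h3 m with rfl | rfl | rfl
          · exact Or.inl hm
          · exact absurd hxm hj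
          · exact Or.inr hm
        · rintro (h | h)
          exacts [⟨i, hi, h⟩, ⟨k, hk, h⟩]
      rw [this]; exact h.wcl2 h3 h2.symm h1
    · have : Hx E x = E i := by
        ext a
        rw [mem_Hx]
        constructor
        · rintro ⟨m, hxm, hm⟩
          rcases third h1 h2 h3 m with rfl | rfl | rfl
          · exact hm
          · exact absurd hxm hj
          · exact absurd hxm hk
        · intro h
          exact ⟨i, hi, h⟩
      rw [this]; exact (h.mcl i).wcl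

theorem Tri.exists_col (h : Tri S E) (x : ℕ) (hx : x ∈ tot E) (hxc : S.kind x = Kind.col) :
    ∃ c : ℕ → Prop, (∀ v ∈ Hx E x, (c v ↔ S.sgn x v)) ∧
      (∀ l ∈ Hx E x, ∀ v ∈ tot E, BadC S c v l → v ∈ Hx E x) ∧
      ∀ l ∈ tot E, ∀ T ⊆ tot E, (∀ v ∈ T, BadC S c v l) → T.card ≤ 2 := by
  refine colExt (h.wclHx hx) (S.sgn x) (fun l hl T hT hb => ?_)
  obtain ⟨i, hxi, hli⟩ := mem_Hx.1 hl
  have hTi : T ⊆ E i := by
    intro v hv
    obtain ⟨j, hxj, hvj⟩ := mem_Hx.1 (hT hv)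
    exact h.badLemma hxi hli hxj hvj ((bad_iff hxc).2 (hb v hv))
  exact (h.good i).2 x (by exact_mod_cast hxi) l (by exact_mod_cast hli) T
    (by exact_mod_cast hTi) (fun v hv => (bad_iff hxc).2 (hb v hv))

/-- The three-amalgamation theorem. -/
theorem Tri.amalgam (h : Tri S E) : ∃ S' : Str, (∀ i, Emb S S' (E i) id) ∧
    S'.Good (tot E) ∧ ∀ i, S'.Cl (E i) (tot E) := by
  choose c hc1 hc2 hc3 using h.exists_col
  let S' : Str := ⟨S.kind, S.inc, fun x v => if h : x ∈ tot E ∧ S.kind x = Kind.col then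
    c x h.1 h.2 v else S.sgn x v⟩
  have hI : ∀ a b, S'.I a b ↔ S.I a b := fun a b => Iff.rfl
  have hdl : ∀ X, S'.dl X = S.dl X := fun X => rfl
  have hlns : ∀ X, S'.lns X = S.lns X := fun X => rfl
  have hbad : ∀ x v l, (hx : x ∈ tot E) → (hxc : S.kind x = Kind.col) →
      (S'.Bad x v l ↔ BadC S (c x hx hxc) v l) := by
    intro x v l hx hxc
    rw [bad_iff (S := S') hxc]
    have h1 : S'.sgn x = c x hx hxc := by
      funext v
      simp only [S', dif_pos (And.intro hx hxc)]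
    rw [h1]
    exact Iff.rfl
  refine ⟨S', fun i => ⟨Set.injOn_id _, fun _ _ => rfl, fun _ _ _ _ => Iff.rfl, ?_⟩,
    ⟨fun X hX => h.good_part (by exact_mod_cast hX), ?_⟩,
    fun i => ⟨h.mcl i, ?_⟩⟩
  · intro x hx v hv
    simp only [id, R]
    by_cases hxc : S.kind x = Kind.col
    · have h1 : x ∈ tot E := piece_sub E i (by exact_mod_cast hx)
      have h2 := hc1 x h1 hxc v (mem_Hx.2 ⟨i, by exact_mod_cast hx, by exact_mod_cast hv⟩)
      have h3 : S'.sgn x v ↔ S.sgn x v := by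
        rw [← h2]
        simp only [S', dif_pos (And.intro h1 hxc)]
      rw [h3]
    · simp [S', hxc]
  · intro x hx l hl T hT hb
    by_cases hxc : S.kind x = Kind.col
    · have hx' : x ∈ tot E := by exact_mod_cast hx
      exact hc3 x hx' hxc l (by exact_mod_cast hl) T (by exact_mod_cast hT)
        (fun v hv => (hbad x v l hx' hxc).1 (hb v hv))
    · have : T = ∅ := by
        rw [Finset.eq_empty_iff_forall_notMem]
        intro v hv
        exact hxc (hb v hv).2.1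
      simp [this]
  · intro x hx l hl v hv hb
    have hxc : S.kind x = Kind.col := hb.2.1
    have hx' := piece_sub E i hx
    have h1 := (hbad x v l hx' hxc).1 hb
    have h2 := hc2 x hx' hxc l (mem_Hx.2 ⟨i, hx, hl⟩) v (by exact_mod_cast hv) h1
    obtain ⟨j, hxj, hvj⟩ := mem_Hx.1 h2
    refine h.badLemma hx hl hxj hvj ((bad_iff hxc).2 ⟨h1.1, ?_⟩)
    rw [← h1.2, hc1 x hx' hxc v h2]

end Str

end Pool.Agent.H88.Gen
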