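import Mathlib

/-!
# Back and forth
-/

set_option autoImplicit false

namespace Pool.Agent.H88.Gen

open scoped Classical

theorem backForth {α β : Type} [Countable α] [Countable β] (P : Set (Finset (α × β)))
    (hfun : ∀ p ∈ P, ∀ x ∈ p, ∀ y ∈ p, (x.1 = y.1 ↔ x.2 = y.2))
    (forth : ∀ p ∈ P, ∀ a, ∃ q ∈ P, p ⊆ q ∧ ∃ b, (a, b) ∈ q)
    (back : ∀ p ∈ P, ∀ b, ∃ q ∈ P, p ⊆ q ∧ ∃ a, (a, b) ∈ q)
    (p0 : Finset (α × β)) (hp0 : p0 ∈ P) :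
    ∃ σ : α ≃ β, (∀ x ∈ p0, σ x.1 = x.2) ∧
      ∀ X : Finset α, ∃ p ∈ P, ∀ a ∈ X, (a, σ a) ∈ p := by
  have : Encodable (α ⊕ β) := Encodable.ofCountable _
  let 𝒟 : α ⊕ β → Order.Cofinal {p // p ∈ P} := fun t => match t with
    | Sum.inl a => ⟨{p | ∃ b, (a, b) ∈ p.1}, fun p => by
        obtain ⟨q, hq, h1, h2⟩ := forth p.1 p.2 a
        exact ⟨⟨q, hq⟩, h2, h1⟩⟩
    | Sum.inr b => ⟨{p | ∃ a, (a, b) ∈ p.1}, fun p => by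
        obtain ⟨q, hq, h1, h2⟩ := back p.1 p.2 b
        exact ⟨⟨q, hq⟩, h2, h1⟩⟩
  let G := Order.idealOfCofinals (⟨p0, hp0⟩ : {p // p ∈ P}) 𝒟
  have hp0G : (⟨p0, hp0⟩ : {p // p ∈ P}) ∈ G := Order.mem_idealOfCofinals _ _
  have hdir : ∀ p ∈ G, ∀ q ∈ G, ∃ r ∈ G, p.1 ⊆ r.1 ∧ q.1 ⊆ r.1 := by
    intro p hp q hq
    obtain ⟨r, hr, h1, h2⟩ := G.directed p hp q hq
    exact ⟨r, hr, h1, h2⟩
  have hf : ∀ a, ∃ b, ∃ p ∈ G, (a, b) ∈ p.1 := by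
    intro a
    obtain ⟨p, ⟨b, hb⟩, hpG⟩ := Order.cofinal_meets_idealOfCofinals (⟨p0, hp0⟩ : {p // p ∈ P}) 𝒟
      (Sum.inl a)
    exact ⟨b, p, hpG, hb⟩
  have hg : ∀ b, ∃ a, ∃ p ∈ G, (a, b) ∈ p.1 := by
    intro b
    obtain ⟨p, ⟨a, ha⟩, hpG⟩ := Order.cofinal_meets_idealOfCofinals (⟨p0, hp0⟩ : {p // p ∈ P}) 𝒟
      (Sum.inr b)
    exact ⟨a, p, hpG, ha⟩
  choose f hf using hf
  choose g hg using hg
  have huniq : ∀ p ∈ G, ∀ q ∈ G, ∀ a b a' b', (a, b) ∈ p.1 → (a', b') ∈ q.1 →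
      (a = a' ↔ b = b') := by
    intro p hp q hq a b a' b' h1 h2
    obtain ⟨r, _, h3, h4⟩ := hdir p hp q hq
    exact hfun r.1 r.2 _ (h3 h1) _ (h4 h2)
  have hfg : ∀ a, g (f a) = a := by
    intro a
    obtain ⟨p, hp, h1⟩ := hf a
    obtain ⟨q, hq, h2⟩ := hg (f a)
    exact ((huniq q hq p hp _ _ _ _ h2 h1).2 rfl)
  have hgf : ∀ b, f (g b) = b := by
    intro b
    obtain ⟨p, hp, h1⟩ := hg b
    obtain ⟨q, hq, h2⟩ := hf (g b)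
    exact ((huniq q hq p hp _ _ _ _ h2 h1).1 rfl)
  refine ⟨⟨f, g, hfg, hgf⟩, ?_, ?_⟩
  · rintro ⟨a, b⟩ hab
    obtain ⟨p, hp, h1⟩ := hf a
    exact (huniq p hp _ hp0G _ _ _ _ h1 hab).1 rfl
  · intro X
    have : ∃ p ∈ G, ∀ a ∈ X, (a, f a) ∈ p.1 := by
      induction X using Finset.induction_on with
      | empty => exact ⟨_, hp0G, by simp⟩
      | insert a X _ ih =>
        obtain ⟨p, hp, h1⟩ := ih
        obtain ⟨q, hq, h2⟩ := hf a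
        obtain ⟨r, hr, h3, h4⟩ := hdir p hp q hq
        refine ⟨r, hr, fun b hb => ?_⟩
        rcases Finset.mem_insert.1 hb with rfl | hb
        · exact h4 h2
        · exact h3 (h1 b hb)
    obtain ⟨p, _, hp⟩ := this
    exact ⟨p.1, p.2, hp⟩

end Pool.Agent.H88.Gen
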