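import Mathlib

/-!
# Incidence structures with a predimension

Structures on (subsets of) `ℕ`: points, positive and negative lines, and colourings.
-/

set_option autoImplicit false

namespace Pool.Agent.H88.Gen

/-- The four kinds of elements. -/
inductive Kind
  | pt
  | pos
  | neg
  | col
deriving DecidableEq

open scoped Classical

/-- Being a line. -/
def Kind.IsLine (k : Kind) : Prop := k = Kind.pos ∨ k = Kind.neg

/-- A structure with underlying set (contained in) `ℕ`. -/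
structure Str where
  kind : ℕ → Kind
  inc : ℕ → ℕ → Prop
  sgn : ℕ → ℕ → Prop

namespace Str

variable (S : Str)

/-- The point `v` lies on the line `l`. -/
def I (v l : ℕ) : Prop := S.kind v = Kind.pt ∧ (S.kind l).IsLine ∧ S.inc v l

/-- The colouring `x` gives the point `v` the colour `+`. -/
def R (x v : ℕ) : Prop := S.kind x = Kind.col ∧ S.kind v = Kind.pt ∧ S.sgn x v

/-- The point `v` is bad for the line `l` with respect to `x`: it lies on `l` and its colour is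
the sign of `l`. -/
def Bad (x v l : ℕ) : Prop := S.I v l ∧ S.kind x = Kind.col ∧ (S.R x v ↔ S.kind l = Kind.pos)

noncomputable def pts (X : Finset ℕ) : Finset ℕ := X.filter fun a => S.kind a = Kind.pt

noncomputable def lns (X : Finset ℕ) : Finset ℕ := X.filter fun a => (S.kind a).IsLine

noncomputable def incs (X : Finset ℕ) : Finset (ℕ × ℕ) := (X ×ˢ X).filter fun p => S.I p.1 p.2

/-- The predimension. -/
noncomputable def dl (X : Finset ℕ) : ℤ :=
  (S.pts X).card + 2 * (S.lns X).card - (S.incs X).card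

variable {S}

theorem mem_pts {X : Finset ℕ} {a : ℕ} : a ∈ S.pts X ↔ a ∈ X ∧ S.kind a = Kind.pt := by
  simp [pts]

theorem mem_lns {X : Finset ℕ} {a : ℕ} : a ∈ S.lns X ↔ a ∈ X ∧ (S.kind a).IsLine := by
  simp [lns]

theorem mem_incs {X : Finset ℕ} {p : ℕ × ℕ} : p ∈ S.incs X ↔ p.1 ∈ X ∧ p.2 ∈ X ∧ S.I p.1 p.2 := by
  simp [incs, and_assoc]

theorem lns_subset {X Y : Finset ℕ} (h : X ⊆ Y) : S.lns X ⊆ S.lns Y :=
  Finset.filter_subset_filter _ h

theorem lns_sub (X : Finset ℕ) : S.lns X ⊆ X := Finset.filter_subset _ _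

theorem pts_union (X Y : Finset ℕ) : S.pts (X ∪ Y) = S.pts X ∪ S.pts Y := by
  ext a; simp only [mem_pts, Finset.mem_union]; tauto

theorem lns_union (X Y : Finset ℕ) : S.lns (X ∪ Y) = S.lns X ∪ S.lns Y := by
  ext a; simp only [mem_lns, Finset.mem_union]; tauto

theorem pts_inter (X Y : Finset ℕ) : S.pts (X ∩ Y) = S.pts X ∩ S.pts Y := by
  ext a; simp only [mem_pts, Finset.mem_inter]; tauto

theorem lns_inter (X Y : Finset ℕ) : S.lns (X ∩ Y) = S.lns X ∩ S.lns Y := by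
  ext a; simp only [mem_lns, Finset.mem_inter]; tauto

theorem incs_inter (X Y : Finset ℕ) : S.incs (X ∩ Y) = S.incs X ∩ S.incs Y := by
  ext a; simp only [mem_incs, Finset.mem_inter]; tauto

theorem incs_union (X Y : Finset ℕ) : S.incs X ∪ S.incs Y ⊆ S.incs (X ∪ Y) := by
  intro a; simp only [mem_incs, Finset.mem_union]; tauto

/-- Submodularity. -/
theorem dl_submod (X Y : Finset ℕ) : S.dl (X ∪ Y) + S.dl (X ∩ Y) ≤ S.dl X + S.dl Y := by
  have h1 := Finset.card_union_add_card_inter (S.pts X) (S.pts Y)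
  have h2 := Finset.card_union_add_card_inter (S.lns X) (S.lns Y)
  have h3 := Finset.card_union_add_card_inter (S.incs X) (S.incs Y)
  have h4 := Finset.card_le_card (incs_union (S := S) X Y)
  simp only [dl, pts_union, lns_union, pts_inter, lns_inter, incs_inter]
  omega

/-- No incidences between `X \ Y` and `Y \ X`. -/
def Free (S : Str) (X Y : Finset ℕ) : Prop :=
  ∀ a ∈ X ∪ Y, ∀ b ∈ X ∪ Y, S.I a b → (a ∈ X ∧ b ∈ X) ∨ (a ∈ Y ∧ b ∈ Y)

theorem dl_free {X Y : Finset ℕ} (h : Free S X Y) :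
    S.dl (X ∪ Y) + S.dl (X ∩ Y) = S.dl X + S.dl Y := by
  have h1 := Finset.card_union_add_card_inter (S.pts X) (S.pts Y)
  have h2 := Finset.card_union_add_card_inter (S.lns X) (S.lns Y)
  have h3 := Finset.card_union_add_card_inter (S.incs X) (S.incs Y)
  have h4 : S.incs (X ∪ Y) = S.incs X ∪ S.incs Y := by
    apply Finset.Subset.antisymm _ (incs_union X Y)
    intro p hp
    rw [mem_incs] at hp
    rw [Finset.mem_union, mem_incs, mem_incs]
    rcases h p.1 hp.1 p.2 hp.2.1 hp.2.2 with h' | h'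
    · exact Or.inl ⟨h'.1, h'.2, hp.2.2⟩
    · exact Or.inr ⟨h'.1, h'.2, hp.2.2⟩
  simp only [dl, pts_union, lns_union, pts_inter, lns_inter, incs_inter, h4]
  omega

theorem Free.mono {X Y Z : Finset ℕ} (h : Free S X Y) : Free S (Z ∩ X) (Z ∩ Y) := by
  intro a ha b hb hI
  simp only [Finset.mem_union, Finset.mem_inter] at ha hb ⊢
  rcases h a (by simp only [Finset.mem_union]; tauto) b (by simp only [Finset.mem_union]; tauto)
    hI with h' | h' <;> tauto

@[simp] theorem dl_empty : S.dl ∅ = 0 := by simp [dl, pts, lns, incs]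

theorem dl_le (X : Finset ℕ) : S.dl X ≤ 2 * X.card := by
  have h1 : (S.pts X).card + (S.lns X).card ≤ X.card := by
    rw [← Finset.card_union_of_disjoint]
    · exact Finset.card_le_card (Finset.union_subset (Finset.filter_subset _ _)
        (Finset.filter_subset _ _))
    · rw [Finset.disjoint_left]
      intro a ha hb
      rw [mem_pts] at ha
      rw [mem_lns, ha.2] at hb
      rcases hb.2 with h | h <;> cases h
  have h2 : (0 : ℤ) ≤ (S.incs X).card := by positivity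
  simp only [dl]
  omega

/-- `A` is weakly closed in `C`. -/
def WCl (S : Str) (A : Finset ℕ) (C : Set ℕ) : Prop :=
  (A : Set ℕ) ⊆ C ∧ ∀ X : Finset ℕ, A ⊆ X → (X : Set ℕ) ⊆ C → S.dl A ≤ S.dl X

/-- `A` is closed in `C`, as far as points and lines are concerned. -/
def MCl (S : Str) (A : Finset ℕ) (C : Set ℕ) : Prop :=
  (A : Set ℕ) ⊆ C ∧ ∀ X : Finset ℕ, A ⊆ X → (X : Set ℕ) ⊆ C →
    S.dl A ≤ S.dl X ∧ (¬ S.lns X ⊆ A → S.dl A + 1 ≤ S.dl X)

/-- `A` is closed in `C`. -/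
def Cl (S : Str) (A : Finset ℕ) (C : Set ℕ) : Prop :=
  MCl S A C ∧ ∀ x ∈ A, ∀ l ∈ A, ∀ v ∈ C, S.Bad x v l → v ∈ A

/-- The structures (on the set `C`) that we consider. -/
def Good (S : Str) (C : Set ℕ) : Prop :=
  (∀ X : Finset ℕ, (X : Set ℕ) ⊆ C → 0 ≤ S.dl X ∧ (S.lns X).card < 3 ^ (S.dl X).toNat) ∧
  ∀ x ∈ C, ∀ l ∈ C, ∀ T : Finset ℕ, (T : Set ℕ) ⊆ C → (∀ v ∈ T, S.Bad x v l) → T.card ≤ 2

theorem MCl.wcl {A : Finset ℕ} {C : Set ℕ} (h : MCl S A C) : WCl S A C :=
  ⟨h.1, fun X h1 h2 => (h.2 X h1 h2).1⟩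

theorem WCl.restrict {A : Finset ℕ} {C : Set ℕ} (h : WCl S A C) {Y : Finset ℕ}
    (hY : (Y : Set ℕ) ⊆ C) : S.dl (A ∩ Y) ≤ S.dl Y := by
  have h1 := dl_submod (S := S) A Y
  have h2 := h.2 (A ∪ Y) Finset.subset_union_left (by
    rw [Finset.coe_union]; exact Set.union_subset h.1 hY)
  linarith

theorem MCl.restrict {A : Finset ℕ} {C : Set ℕ} (h : MCl S A C) {Y : Finset ℕ}
    (hY : (Y : Set ℕ) ⊆ C) : S.dl (A ∩ Y) ≤ S.dl Y ∧ (¬ S.lns Y ⊆ A → S.dl (A ∩ Y) + 1 ≤ S.dl Y) := by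
  have h1 := dl_submod (S := S) A Y
  have h2 := h.2 (A ∪ Y) Finset.subset_union_left (by
    rw [Finset.coe_union]; exact Set.union_subset h.1 hY)
  refine ⟨by linarith, fun hn => ?_⟩
  have h3 := h2.2 (fun hs => hn (fun a ha => hs (by
    rw [lns_union]; exact Finset.mem_union_right _ ha)))
  linarith

theorem MCl.mono {A : Finset ℕ} {C C' : Set ℕ} (h : MCl S A C) (hA : (A : Set ℕ) ⊆ C')
    (hC : C' ⊆ C) : MCl S A C' :=
  ⟨hA, fun X h1 h2 => h.2 X h1 (h2.trans hC)⟩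

theorem WCl.mono {A : Finset ℕ} {C C' : Set ℕ} (h : WCl S A C) (hA : (A : Set ℕ) ⊆ C')
    (hC : C' ⊆ C) : WCl S A C' :=
  ⟨hA, fun X h1 h2 => h.2 X h1 (h2.trans hC)⟩

theorem Cl.mono {A : Finset ℕ} {C C' : Set ℕ} (h : Cl S A C) (hA : (A : Set ℕ) ⊆ C')
    (hC : C' ⊆ C) : Cl S A C' :=
  ⟨h.1.mono hA hC, fun x hx l hl v hv hb => h.2 x hx l hl v (hC hv) hb⟩

theorem MCl.trans {A B : Finset ℕ} {C : Set ℕ} (h1 : MCl S A B) (h2 : MCl S B C) :
    MCl S A C := by
  refine ⟨h1.1.trans h2.1, fun X hA hX => ?_⟩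
  have h3 := h2.restrict hX
  have h4 := h1.2 (B ∩ X) (Finset.subset_inter (by exact_mod_cast h1.1) hA)
    (by rw [Finset.coe_inter]; exact Set.inter_subset_left)
  refine ⟨by linarith [h3.1, h4.1], fun hn => ?_⟩
  by_cases h5 : S.lns X ⊆ B
  · have h6 : ¬ S.lns (B ∩ X) ⊆ A := by
      intro hs
      apply hn
      intro a ha
      apply hs
      rw [mem_lns] at ha ⊢
      exact ⟨Finset.mem_inter.2 ⟨h5 (mem_lns.2 ha), ha.1⟩, ha.2⟩
    linarith [h3.1, h4.2 h6]
  · linarith [h3.2 h5, h4.1]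

theorem Cl.trans {A B : Finset ℕ} {C : Set ℕ} (h1 : Cl S A B) (h2 : Cl S B C) : Cl S A C := by
  refine ⟨h1.1.trans h2.1, fun x hx l hl v hv hb => ?_⟩
  have hAB : A ⊆ B := by exact_mod_cast h1.1.1
  have h3 := h2.2 x (hAB hx) l (hAB hl) v hv hb
  exact h1.2 x hx l hl v (by exact_mod_cast h3) hb

theorem Cl.inter {A B : Finset ℕ} {C : Set ℕ} (h1 : Cl S A C) (h2 : Cl S B C) :
    Cl S (A ∩ B) C := by
  have h3 : Cl S (A ∩ B) B := by
    refine ⟨⟨by rw [Finset.coe_inter]; exact Set.inter_subset_right, fun X hA hX => ?_⟩, ?_⟩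
    · have hXB : X ⊆ B := by exact_mod_cast hX
      have h4 := h1.1.restrict (hX.trans h2.1.1)
      have h5 : A ∩ X = A ∩ B := by
        apply Finset.Subset.antisymm
        · exact Finset.inter_subset_inter_left hXB
        · exact Finset.subset_inter Finset.inter_subset_left hA
      rw [h5] at h4
      refine ⟨h4.1, fun hn => h4.2 (fun hs => hn ?_)⟩
      intro a ha
      exact Finset.mem_inter.2 ⟨hs ha, hXB (lns_sub X ha)⟩
    · intro x hx l hl v hv hb
      rw [Finset.mem_inter] at hx hl ⊢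
      exact ⟨h1.2 x hx.1 l hl.1 v (h2.1.1 hv) hb, by exact_mod_cast hv⟩
  exact h3.trans h2

theorem Cl.self (A : Finset ℕ) : Cl S A (A : Set ℕ) := by
  refine ⟨⟨subset_rfl, fun X hA hX => ?_⟩, fun x hx l hl v hv hb => by exact_mod_cast hv⟩
  have : X = A := Finset.Subset.antisymm (by exact_mod_cast hX) hA
  subst this
  exact ⟨le_refl _, fun hn => absurd (lns_sub X) hn⟩

theorem Good.mono {C C' : Set ℕ} (h : Good S C) (hC : C' ⊆ C) : Good S C' :=
  ⟨fun X hX => h.1 X (hX.trans hC), fun x hx l hl T hT => h.2 x (hC hx) l (hC hl) T (hT.trans hC)⟩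

end Str

end Pool.Agent.H88.Gen
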