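import Pool.Agent.H88.Gen.Emb

/-!
# Closures
-/

set_option autoImplicit false

namespace Pool.Agent.H88.Gen

open scoped Classical

namespace Str

variable {S : Str}

/-- Number of lines of `Y` through `v`. -/
noncomputable def deg (S : Str) (Y : Finset ℕ) (v : ℕ) : ℕ := (Y.filter fun l => S.I v l).card

theorem deg_mono {Y Z : Finset ℕ} (h : Y ⊆ Z) (v : ℕ) : S.deg Y v ≤ S.deg Z v :=
  Finset.card_le_card (Finset.filter_subset_filter _ h)

theorem not_isLine_pt : ¬ Kind.IsLine Kind.pt := by rintro (h | h) <;> cases h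

theorem not_isLine_col : ¬ Kind.IsLine Kind.col := by rintro (h | h) <;> cases h

theorem kind_cases (a : ℕ) : S.kind a = Kind.pt ∨ (S.kind a).IsLine ∨ S.kind a = Kind.col := by
  unfold Kind.IsLine
  cases S.kind a <;> simp

theorem lns_insert_of_not {v : ℕ} (hv : ¬ (S.kind v).IsLine) (Y : Finset ℕ) :
    S.lns (insert v Y) = S.lns Y := by
  unfold lns
  rw [Finset.filter_insert, if_neg hv]

theorem dl_insert_col {v : ℕ} {Y : Finset ℕ} (hv : S.kind v = Kind.col) :
    S.dl (insert v Y) = S.dl Y := by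
  have h1 : S.pts (insert v Y) = S.pts Y := by
    unfold pts
    rw [Finset.filter_insert, if_neg (by rw [hv]; simp)]
  have h2 := lns_insert_of_not (S := S) (v := v) (by rw [hv]; exact not_isLine_col) Y
  have h3 : S.incs (insert v Y) = S.incs Y := by
    ext ⟨a, b⟩
    simp only [mem_incs, Finset.mem_insert]
    constructor
    · rintro ⟨ha, hb, hI⟩
      refine ⟨ha.resolve_left ?_, hb.resolve_left ?_, hI⟩
      · rintro rfl
        have := hI.1
        rw [hv] at this; cases this
      · rintro rfl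
        have := hI.2.1
        rw [hv] at this; exact not_isLine_col this
    · rintro ⟨ha, hb, hI⟩
      exact ⟨Or.inr ha, Or.inr hb, hI⟩
  unfold dl
  rw [h1, h2, h3]

theorem dl_insert_pt {v : ℕ} {Y : Finset ℕ} (hv : S.kind v = Kind.pt) (hvY : v ∉ Y) :
    S.dl (insert v Y) = S.dl Y + 1 - S.deg Y v := by
  have h1 : (S.pts (insert v Y)).card = (S.pts Y).card + 1 := by
    unfold pts
    rw [Finset.filter_insert, if_pos hv, Finset.card_insert_of_notMem]
    intro h
    exact hvY (Finset.mem_filter.1 h).1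
  have h2 := lns_insert_of_not (S := S) (v := v) (by rw [hv]; exact not_isLine_pt) Y
  have h3 : S.incs (insert v Y) = S.incs Y ∪ ((Y.filter fun l => S.I v l).image fun l => (v, l)) := by
    ext ⟨a, b⟩
    simp only [mem_incs, Finset.mem_insert, Finset.mem_union, Finset.mem_image,
      Finset.mem_filter, Prod.mk.injEq]
    constructor
    · rintro ⟨ha, hb, hI⟩
      have hb' : b ∈ Y := by
        refine hb.resolve_left ?_
        rintro rfl
        have := hI.2.1
        rw [hv] at this; exact not_isLine_pt this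
      rcases ha with rfl | ha
      · exact Or.inr ⟨b, ⟨hb', hI⟩, rfl, rfl⟩
      · exact Or.inl ⟨ha, hb', hI⟩
    · rintro (⟨ha, hb, hI⟩ | ⟨l, ⟨hl, hI⟩, rfl, rfl⟩)
      · exact ⟨Or.inr ha, Or.inr hb, hI⟩
      · exact ⟨Or.inl rfl, Or.inr hl, hI⟩
  have h4 : (S.incs (insert v Y)).card = (S.incs Y).card + S.deg Y v := by
    rw [h3, Finset.card_union_of_disjoint, Finset.card_image_of_injective]
    · rfl
    · intro a b hab
      exact (Prod.mk.inj hab).2
    · rw [Finset.disjoint_left]
      rintro ⟨a, b⟩ hp hq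
      rw [mem_incs] at hp
      obtain ⟨l, _, hl⟩ := Finset.mem_image.1 hq
      rw [Prod.mk.injEq] at hl
      obtain ⟨rfl, rfl⟩ := hl
      exact hvY hp.1
  unfold dl
  rw [h1, h2, h4]
  push_cast
  ring

theorem card_incs (Y : Finset ℕ) : (S.incs Y).card = ∑ v ∈ Y, S.deg Y v := by
  unfold incs deg
  rw [Finset.card_filter, Finset.sum_product]
  refine Finset.sum_congr rfl (fun v _ => ?_)
  rw [Finset.card_filter]

/-- Candidates for the closure of `X`. -/
def Cand (S : Str) (X Y : Finset ℕ) : Prop :=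
  X ⊆ Y ∧ S.dl Y ≤ S.dl X ∧ ∀ v ∈ Y, v ∉ X → (S.kind v).IsLine ∨
    (S.kind v = Kind.pt ∧ (2 ≤ S.deg Y v ∨ ∃ x ∈ X, ∃ l ∈ Y, S.Bad x v l))

/-- Size bound for closures. -/
def bd (n : ℕ) : ℕ := n + 3 ^ (2 * n) + (n + 2 * 3 ^ (2 * n)) + 2 * n * 3 ^ (2 * n)

theorem Cand.card_le (hG : S.Good Set.univ) {X Y : Finset ℕ} (h : Cand S X Y) :
    Y.card ≤ bd X.card := by
  obtain ⟨h1, h2, h3⟩ := h
  set L := S.lns Y with hL
  have hdl := hG.1 Y (Set.subset_univ _)
  have hLc : L.card ≤ 3 ^ (2 * X.card) := by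
    refine hdl.2.le.trans (Nat.pow_le_pow_right (by norm_num) ?_)
    have := dl_le (S := S) X
    omega
  set P := Y.filter (fun v => v ∉ X ∧ S.kind v = Kind.pt) with hP
  set G := P.filter (fun v => 2 ≤ S.deg Y v) with hG'
  set B := P.filter (fun v => ∃ x ∈ X, ∃ l ∈ Y, S.Bad x v l) with hB'
  have hPGB : P ⊆ G ∪ B := by
    intro v hv
    have hv' := Finset.mem_filter.1 hv
    rcases h3 v hv'.1 hv'.2.1 with h4 | h4
    · rw [hv'.2.2] at h4
      exact absurd h4 not_isLine_pt
    · rw [Finset.mem_union]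
      rcases h4.2 with h5 | h5
      · exact Or.inl (Finset.mem_filter.2 ⟨hv, h5⟩)
      · exact Or.inr (Finset.mem_filter.2 ⟨hv, h5⟩)
  have hY : Y ⊆ X ∪ (L ∪ P) := by
    intro v hv
    rw [Finset.mem_union, Finset.mem_union]
    by_cases hvX : v ∈ X
    · exact Or.inl hvX
    · right
      rcases h3 v hv hvX with h4 | h4
      · exact Or.inl (mem_lns.2 ⟨hv, h4⟩)
      · exact Or.inr (Finset.mem_filter.2 ⟨hv, hvX, h4.1⟩)
  -- bad points
  have hBc : B.card ≤ 2 * X.card * L.card := by
    have hsub : B ⊆ (X ×ˢ L).biUnion (fun p => Y.filter fun v => S.Bad p.1 v p.2) := by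
      intro v hv
      obtain ⟨hv1, x, hx, l, hl, hb⟩ := Finset.mem_filter.1 hv
      rw [Finset.mem_biUnion]
      refine ⟨(x, l), Finset.mem_product.2 ⟨hx, mem_lns.2 ⟨hl, hb.1.2.1⟩⟩,
        Finset.mem_filter.2 ⟨(Finset.mem_filter.1 hv1).1, hb⟩⟩
    refine (Finset.card_le_card hsub).trans ?_
    refine (Finset.card_biUnion_le_card_mul _ _ 2 (fun p hp => ?_)).trans ?_
    · exact hG.2 p.1 trivial p.2 trivial _ (Set.subset_univ _) (fun v hv =>
        (Finset.mem_filter.1 hv).2)
    · rw [Finset.card_product]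
      apply le_of_eq
      ring
  -- points with two lines
  have hGc : G.card ≤ X.card + 2 * L.card := by
    have h5 : P.card + G.card ≤ (S.incs Y).card := by
      rw [card_incs]
      have h6 : ∑ v ∈ P, S.deg Y v ≤ ∑ v ∈ Y, S.deg Y v :=
        Finset.sum_le_sum_of_subset (Finset.filter_subset _ _)
      refine le_trans ?_ h6
      have h7 : P.card + G.card = ∑ v ∈ P, (1 + if 2 ≤ S.deg Y v then 1 else 0) := by
        rw [Finset.sum_add_distrib, ← Finset.card_filter]
        simp [hG']
      rw [h7]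
      refine Finset.sum_le_sum (fun v hv => ?_)
      split_ifs with h8
      · omega
      · have hv' := Finset.mem_filter.1 hv
        rcases h3 v hv'.1 hv'.2.1 with h4 | h4
        · rw [hv'.2.2] at h4
          exact absurd h4 not_isLine_pt
        · rcases h4.2 with h5 | ⟨x, hx, l, hl, hb⟩
          · exact absurd h5 h8
          · have : 0 < S.deg Y v := Finset.card_pos.2 ⟨l, Finset.mem_filter.2 ⟨hl, hb.1⟩⟩
            omega
    have h8 : (S.pts Y).card ≤ X.card + P.card := by
      have : S.pts Y ⊆ X ∪ P := by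
        intro v hv
        rw [mem_pts] at hv
        rw [Finset.mem_union]
        by_cases hvX : v ∈ X
        · exact Or.inl hvX
        · exact Or.inr (Finset.mem_filter.2 ⟨hv.1, hvX, hv.2⟩)
      exact (Finset.card_le_card this).trans (Finset.card_union_le _ _)
    have h9 := hdl.1
    unfold dl at h9
    rw [← hL] at h9
    omega
  have h10 := Finset.card_le_card hY
  have h11 := Finset.card_union_le X (L ∪ P)
  have h12 := Finset.card_union_le L P
  have h13 := Finset.card_le_card hPGB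
  have h14 := Finset.card_union_le G B
  have h15 : 2 * X.card * L.card ≤ 2 * X.card * 3 ^ (2 * X.card) := Nat.mul_le_mul_left _ hLc
  unfold bd
  omega

/-- Violation of closedness. -/
def Viol (S : Str) (Z W : Finset ℕ) : Prop :=
  Z ⊆ W ∧ (S.dl W < S.dl Z ∨ (S.dl W ≤ S.dl Z ∧ ¬ S.lns W ⊆ Z))

theorem exists_closed (hG : S.Good Set.univ) (X : Finset ℕ) :
    ∃ Z, X ⊆ Z ∧ S.Cl Z Set.univ ∧ S.dl Z ≤ S.dl X ∧ Z.card ≤ bd X.card := by
  have hX : Cand S X X := ⟨subset_rfl, le_refl _, fun v hv hv' => absurd hv hv'⟩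
  -- a candidate of maximal size
  obtain ⟨n, hn, hmax⟩ : ∃ n, (∃ Z, Cand S X Z ∧ Z.card = n) ∧
      ∀ W, Cand S X W → W.card ≤ n := by
    have hb : ∀ m, (∃ Z, Cand S X Z ∧ Z.card = m) → m ≤ bd X.card := by
      rintro m ⟨Z, hZ, rfl⟩
      exact hZ.card_le hG
    refine ⟨Nat.findGreatest (fun m => ∃ Z, Cand S X Z ∧ Z.card = m) (bd X.card), ?_, ?_⟩
    · exact Nat.findGreatest_spec (P := fun m => ∃ Z, Cand S X Z ∧ Z.card = m)
        (hb _ ⟨X, hX, rfl⟩) ⟨X, hX, rfl⟩
    · intro W hW
      exact Nat.le_findGreatest (hb _ ⟨W, hW, rfl⟩) ⟨W, hW, rfl⟩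
  obtain ⟨Z, hZ, rfl⟩ := hn
  refine ⟨Z, hZ.1, ?_, hZ.2.1, hZ.card_le hG⟩
  have hnoviol : ∀ W, ¬ Viol S Z W := by
    by_contra hcon
    push Not at hcon
    have hex : ∃ m, ∃ W, Viol S Z W ∧ W.card = m := by
      obtain ⟨W, hW⟩ := hcon
      exact ⟨_, W, hW, rfl⟩
    obtain ⟨W, hW, hWm⟩ := Nat.find_spec hex
    have hmin : ∀ W', Viol S Z W' → W.card ≤ W'.card := by
      intro W' hW'
      rw [hWm]
      exact Nat.find_min' hex ⟨W', hW', rfl⟩
    have hWC : Cand S X W := by
      refine ⟨hZ.1.trans hW.1, ?_, ?_⟩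
      · have := hZ.2.1
        rcases hW.2 with h | h
        · linarith
        · linarith [h.1]
      · intro v hv hvX
        by_cases hvZ : v ∈ Z
        · rcases hZ.2.2 v hvZ hvX with h | ⟨h, h' | ⟨x, hx, l, hl, hb⟩⟩
          · exact Or.inl h
          · exact Or.inr ⟨h, Or.inl (h'.trans (deg_mono hW.1 v))⟩
          · exact Or.inr ⟨h, Or.inr ⟨x, hx, l, hW.1 hl, hb⟩⟩
        · have hins : insert v (W.erase v) = W := Finset.insert_erase hv
          have hZsub : Z ⊆ W.erase v := fun a ha =>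
            Finset.mem_erase.2 ⟨fun h => hvZ (h ▸ ha), hW.1 ha⟩
          have hlt : (W.erase v).card < W.card := Finset.card_erase_lt_of_mem hv
          rcases kind_cases (S := S) v with hk | hk | hk
          · right
            refine ⟨hk, Or.inl ?_⟩
            by_contra hdeg
            have h1 := dl_insert_pt (S := S) (Y := W.erase v) hk (Finset.notMem_erase v W)
            have h2 := lns_insert_of_not (S := S) (v := v) (by rw [hk]; exact not_isLine_pt)
              (W.erase v)
            rw [hins] at h1 h2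
            have h3 := deg_mono (S := S) (Finset.erase_subset v W) v
            have h4 : Viol S Z (W.erase v) := by
              refine ⟨hZsub, ?_⟩
              rw [← h2]
              rcases hW.2 with h | h
              · left; omega
              · right; exact ⟨by omega, h.2⟩
            exact absurd (hmin _ h4) (by omega)
          · exact Or.inl hk
          · exfalso
            have h1 := dl_insert_col (S := S) (Y := W.erase v) hk
            have h2 := lns_insert_of_not (S := S) (v := v) (by rw [hk]; exact not_isLine_col)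
              (W.erase v)
            rw [hins] at h1 h2
            have h4 : Viol S Z (W.erase v) := by
              refine ⟨hZsub, ?_⟩
              rw [← h2, ← h1]
              exact hW.2
            exact absurd (hmin _ h4) (by omega)
    have h5 := hmax W hWC
    have h6 : Z = W := Finset.eq_of_subset_of_card_le hW.1 h5
    rw [← h6] at hW
    rcases hW.2 with h | h
    · exact lt_irrefl _ h
    · exact h.2 (lns_sub Z)
  refine ⟨⟨Set.subset_univ _, fun W hZW _ => ?_⟩, ?_⟩
  · have h1 := hnoviol W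
    unfold Viol at h1
    push Not at h1
    have h2 := h1 hZW
    refine ⟨h2.1, fun hn => ?_⟩
    by_contra hlt
    exact hn (h2.2 (by omega))
  · intro x hx l hl v _ hb
    by_contra hvZ
    have hxX : x ∈ X := by
      by_contra hxX
      rcases hZ.2.2 x hx hxX with h | h
      · rw [hb.2.1] at h; exact not_isLine_col h
      · have := h.1; rw [hb.2.1] at this; cases this
    have hk : S.kind v = Kind.pt := hb.1.1
    have h1 := dl_insert_pt (S := S) (Y := Z) hk hvZ
    have h2 : 0 < S.deg Z v := Finset.card_pos.2 ⟨l, Finset.mem_filter.2 ⟨hl, hb.1⟩⟩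
    have h3 : Cand S X (insert v Z) := by
      refine ⟨hZ.1.trans (Finset.subset_insert _ _), by have := hZ.2.1; omega, ?_⟩
      intro w hw hwX
      rcases Finset.mem_insert.1 hw with rfl | hw
      · exact Or.inr ⟨hk, Or.inr ⟨x, hxX, l, Finset.mem_insert_of_mem hl, hb⟩⟩
      · rcases hZ.2.2 w hw hwX with h | ⟨h, h' | ⟨x', hx', l', hl', hb'⟩⟩
        · exact Or.inl h
        · exact Or.inr ⟨h, Or.inl (h'.trans (deg_mono (Finset.subset_insert _ _) w))⟩
        · exact Or.inr ⟨h, Or.inr ⟨x', hx', l', Finset.mem_insert_of_mem hl', hb'⟩⟩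
    have h4 := hmax _ h3
    rw [Finset.card_insert_of_notMem hvZ] at h4
    omega

/-- The closure of a finite set. -/
noncomputable def clo (S : Str) (X : Finset ℕ) : Finset ℕ :=
  if h : ∃ n, ∃ Z, X ⊆ Z ∧ S.Cl Z Set.univ ∧ Z.card = n then (Nat.find_spec h).choose else X

theorem clo_spec (hG : S.Good Set.univ) (X : Finset ℕ) :
    X ⊆ S.clo X ∧ S.Cl (S.clo X) Set.univ ∧
      ∀ W, X ⊆ W → S.Cl W Set.univ → S.clo X ⊆ W := by
  have h : ∃ n, ∃ Z, X ⊆ Z ∧ S.Cl Z Set.univ ∧ Z.card = n := by
    obtain ⟨Z, h1, h2, _⟩ := exists_closed hG X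
    exact ⟨_, Z, h1, h2, rfl⟩
  unfold clo
  rw [dif_pos h]
  obtain ⟨h1, h2, h3⟩ := (Nat.find_spec h).choose_spec
  refine ⟨h1, h2, fun W hW hWc => ?_⟩
  have h4 := Nat.find_min' h ⟨_, Finset.subset_inter h1 hW, h2.inter hWc, rfl⟩
  have h5 := Finset.eq_of_subset_of_card_le Finset.inter_subset_left (h3.le.trans h4)
  exact Finset.inter_eq_left.1 h5

theorem subset_clo (hG : S.Good Set.univ) (X : Finset ℕ) : X ⊆ S.clo X := (clo_spec hG X).1

theorem clo_cl (hG : S.Good Set.univ) (X : Finset ℕ) : S.Cl (S.clo X) Set.univ :=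
  (clo_spec hG X).2.1

theorem clo_min (hG : S.Good Set.univ) {X W : Finset ℕ} (h : X ⊆ W) (hW : S.Cl W Set.univ) :
    S.clo X ⊆ W := (clo_spec hG X).2.2 W h hW

theorem clo_mono (hG : S.Good Set.univ) {X Y : Finset ℕ} (h : X ⊆ Y) : S.clo X ⊆ S.clo Y :=
  clo_min hG (h.trans (subset_clo hG Y)) (clo_cl hG Y)

theorem card_clo_le (hG : S.Good Set.univ) (X : Finset ℕ) : (S.clo X).card ≤ bd X.card := by
  obtain ⟨Z, h1, h2, _, h3⟩ := exists_closed hG X
  exact (Finset.card_le_card (clo_min hG h1 h2)).trans h3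

theorem dl_clo_le (hG : S.Good Set.univ) {X Y : Finset ℕ} (h : X ⊆ Y) :
    S.dl (S.clo X) ≤ S.dl Y := by
  obtain ⟨Z, h1, h2, h3, _⟩ := exists_closed hG Y
  have h4 := ((clo_cl hG X).1.2 Z (clo_min hG (h.trans h1) h2) (Set.subset_univ _)).1
  linarith

theorem clo_eq (hG : S.Good Set.univ) {X : Finset ℕ} (h : S.Cl X Set.univ) : S.clo X = X :=
  Finset.Subset.antisymm (clo_min hG subset_rfl h) (subset_clo hG X)

end Str

end Pool.Agent.H88.Gen
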