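import Pool.Agent.H88.Gen.Basic

/-!
# Extending colourings (Hall's theorem)
-/

set_option autoImplicit false

namespace Pool.Agent.H88.Gen

open scoped Classical

namespace Str

/-- `v` is bad for the line `l` with respect to the colouring `c`. -/
def BadC (S : Str) (c : ℕ → Prop) (v l : ℕ) : Prop := S.I v l ∧ (c v ↔ S.kind l = Kind.pos)

theorem I.isLine {S : Str} {v l : ℕ} (h : S.I v l) : (S.kind l).IsLine := h.2.1

theorem I.isPt {S : Str} {v l : ℕ} (h : S.I v l) : S.kind v = Kind.pt := h.1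

theorem bad_iff {S : Str} {x v l : ℕ} (hx : S.kind x = Kind.col) :
    S.Bad x v l ↔ BadC S (S.sgn x) v l := by
  unfold Bad BadC R
  constructor
  · rintro ⟨h1, _, h3⟩
    refine ⟨h1, ?_⟩
    rw [← h3]
    simp [hx, h1.isPt]
  · rintro ⟨h1, h3⟩
    refine ⟨h1, hx, ?_⟩
    rw [← h3]
    simp [hx, h1.isPt]

/-- The possible slots of an incidence. -/
noncomputable def slots (H : Finset ℕ) (p : ℕ × ℕ) : Finset (ℕ ⊕ (ℕ × Bool)) :=
  (if p.1 ∈ H then ∅ else {Sum.inl p.1}) ∪
    (if p.2 ∈ H then ∅ else {Sum.inr (p.2, false), Sum.inr (p.2, true)})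

theorem mem_slots_inl {H : Finset ℕ} {p : ℕ × ℕ} {v : ℕ} :
    Sum.inl v ∈ slots H p ↔ p.1 ∉ H ∧ v = p.1 := by
  unfold slots
  split_ifs <;> simp [*]

theorem mem_slots_inr {H : Finset ℕ} {p : ℕ × ℕ} {q : ℕ × Bool} :
    Sum.inr q ∈ slots H p ↔ p.2 ∉ H ∧ q.1 = p.2 := by
  obtain ⟨l, b⟩ := q
  unfold slots
  cases b <;> split_ifs <;> simp [*]

/-- The incidences of `D` not inside `H`. -/
noncomputable def newIncs (S : Str) (H D : Finset ℕ) : Finset (ℕ × ℕ) := S.incs D \ S.incs H

theorem hall {S : Str} {H D : Finset ℕ} (hH : WCl S H D)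
    (J : Finset (ℕ × ℕ)) (hJ : J ⊆ newIncs S H D) :
    J.card ≤ (J.biUnion (slots H)).card := by
  set X : Finset ℕ := H ∪ (J.image Prod.fst ∪ J.image Prod.snd) with hX
  have hHD : H ⊆ D := by exact_mod_cast hH.1
  have hHX : H ⊆ X := Finset.subset_union_left
  have hXD : X ⊆ D := by
    rw [hX]
    refine Finset.union_subset hHD (Finset.union_subset ?_ ?_)
    · intro a ha
      obtain ⟨p, hp, rfl⟩ := Finset.mem_image.1 ha
      have := (Finset.mem_sdiff.1 (hJ hp)).1
      rw [mem_incs] at this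
      exact this.1
    · intro a ha
      obtain ⟨p, hp, rfl⟩ := Finset.mem_image.1 ha
      have := (Finset.mem_sdiff.1 (hJ hp)).1
      rw [mem_incs] at this
      exact this.2.1
  have h1 := hH.2 X Finset.subset_union_left (by exact_mod_cast hXD)
  -- incidences
  have h2 : S.incs H ∪ J ⊆ S.incs X := by
    intro p hp
    rcases Finset.mem_union.1 hp with hp | hp
    · rw [mem_incs] at hp ⊢
      exact ⟨Finset.mem_union_left _ hp.1, Finset.mem_union_left _ hp.2.1, hp.2.2⟩
    · have := (Finset.mem_sdiff.1 (hJ hp)).1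
      rw [mem_incs] at this ⊢
      refine ⟨Finset.mem_union_right _ (Finset.mem_union_left _ (Finset.mem_image_of_mem _ hp)),
        Finset.mem_union_right _ (Finset.mem_union_right _ (Finset.mem_image_of_mem _ hp)),
        this.2.2⟩
  have h3 : (S.incs H ∪ J).card = (S.incs H).card + J.card := by
    apply Finset.card_union_of_disjoint
    rw [Finset.disjoint_left]
    intro p hp hpJ
    exact (Finset.mem_sdiff.1 (hJ hpJ)).2 hp
  have h4 := Finset.card_le_card h2
  -- slots
  have h5 : ((S.pts X \ S.pts H).image Sum.inl) ∪ (((S.lns X \ S.lns H) ×ˢ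
      (Finset.univ : Finset Bool)).image Sum.inr) ⊆ J.biUnion (slots H) := by
    intro s hs
    rw [Finset.mem_biUnion]
    rcases Finset.mem_union.1 hs with hs | hs
    · obtain ⟨v, hv, rfl⟩ := Finset.mem_image.1 hs
      rw [Finset.mem_sdiff, mem_pts, mem_pts] at hv
      have hvH : v ∉ H := fun h => hv.2 ⟨h, hv.1.2⟩
      have := hv.1.1
      rw [hX, Finset.mem_union, Finset.mem_union] at this
      rcases this with h | h | h
      · exact absurd h hvH
      · obtain ⟨p, hp, rfl⟩ := Finset.mem_image.1 h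
        exact ⟨p, hp, mem_slots_inl.2 ⟨hvH, rfl⟩⟩
      · obtain ⟨p, hp, rfl⟩ := Finset.mem_image.1 h
        have := (Finset.mem_sdiff.1 (hJ hp)).1
        rw [mem_incs] at this
        have h6 := this.2.2.isLine
        rw [hv.1.2] at h6
        rcases h6 with h6 | h6 <;> cases h6
    · obtain ⟨⟨l, b⟩, hv, rfl⟩ := Finset.mem_image.1 hs
      rw [Finset.mem_product, Finset.mem_sdiff, mem_lns, mem_lns] at hv
      have hvH : l ∉ H := fun h => hv.1.2 ⟨h, hv.1.1.2⟩
      have := hv.1.1.1
      simp only at this hv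
      rw [hX, Finset.mem_union, Finset.mem_union] at this
      rcases this with h | h | h
      · exact absurd h hvH
      · obtain ⟨p, hp, hpl⟩ := Finset.mem_image.1 h
        have := (Finset.mem_sdiff.1 (hJ hp)).1
        rw [mem_incs] at this
        have h6 := this.2.2.isPt
        rw [hpl] at h6
        have h7 := hv.1.1.2
        rw [h6] at h7
        rcases h7 with h7 | h7 <;> cases h7
      · obtain ⟨p, hp, rfl⟩ := Finset.mem_image.1 h
        exact ⟨p, hp, mem_slots_inr.2 ⟨hvH, rfl⟩⟩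
  have h6 := Finset.card_le_card h5
  rw [Finset.card_union_of_disjoint, Finset.card_image_of_injective _ Sum.inl_injective,
    Finset.card_image_of_injective _ Sum.inr_injective, Finset.card_product,
    Finset.card_sdiff_of_subset (show S.pts H ⊆ S.pts X from Finset.filter_subset_filter _ hHX),
    Finset.card_sdiff_of_subset (show S.lns H ⊆ S.lns X from lns_subset hHX)] at h6
  · have h7 : (S.pts H).card ≤ (S.pts X).card :=
      Finset.card_le_card (Finset.filter_subset_filter _ hHX)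
    have h8 : (S.lns H).card ≤ (S.lns X).card :=
      Finset.card_le_card (lns_subset hHX)
    simp only [Finset.card_univ, Fintype.card_bool] at h6
    unfold dl at h1
    rw [h3] at h4
    omega
  · rw [Finset.disjoint_left]
    intro s hs hs'
    obtain ⟨v, _, rfl⟩ := Finset.mem_image.1 hs
    obtain ⟨w, _, h⟩ := Finset.mem_image.1 hs'
    cases h

/-- Extending a colouring from a weakly closed set. -/
theorem colExt {S : Str} {H D : Finset ℕ} (hH : WCl S H D) (c0 : ℕ → Prop)
    (hv : ∀ l ∈ H, ∀ T ⊆ H, (∀ v ∈ T, BadC S c0 v l) → T.card ≤ 2) :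
    ∃ c : ℕ → Prop, (∀ v ∈ H, (c v ↔ c0 v)) ∧ (∀ l ∈ H, ∀ v ∈ D, BadC S c v l → v ∈ H) ∧
      ∀ l ∈ D, ∀ T ⊆ D, (∀ v ∈ T, BadC S c v l) → T.card ≤ 2 := by
  have hHD : H ⊆ D := by exact_mod_cast hH.1
  obtain ⟨f, hf, hft⟩ := (Finset.all_card_le_biUnion_card_iff_exists_injective
    (fun p : {p // p ∈ newIncs S H D} => slots H p.1)).1 (by
      intro s
      have h := hall hH (s.image Subtype.val) (by
        intro p hp
        obtain ⟨q, _, rfl⟩ := Finset.mem_image.1 hp
        exact q.2)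
      rw [Finset.card_image_of_injective _ Subtype.val_injective, Finset.image_biUnion] at h
      exact h)
  set c : ℕ → Prop := fun v => if v ∈ H then c0 v else
    ∃ l, ∃ h : (v, l) ∈ newIncs S H D, f ⟨(v, l), h⟩ = Sum.inl v ∧ ¬ S.kind l = Kind.pos with hc
  have key : ∀ v l, (h : (v, l) ∈ newIncs S H D) → v ∉ H → f ⟨(v, l), h⟩ = Sum.inl v →
      ¬ BadC S c v l := by
    intro v l h hvH hfv hb
    have h1 := hb.2
    simp only [hc, if_neg hvH] at h1
    by_cases hp : S.kind l = Kind.pos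
    · obtain ⟨l', h', h2, h3⟩ := h1.2 hp
      have h4 := hf (h2.trans hfv.symm)
      simp only [Subtype.mk.injEq, Prod.mk.injEq, true_and] at h4
      rw [h4] at h3
      exact h3 hp
    · exact hp (h1.1 ⟨l, h, hfv, hp⟩)
  have hnew : ∀ v l, v ∈ D → l ∈ D → S.I v l → (v ∉ H ∨ l ∉ H) → (v, l) ∈ newIncs S H D := by
    intro v l h1 h2 h3 h4
    rw [newIncs, Finset.mem_sdiff, mem_incs, mem_incs]
    exact ⟨⟨h1, h2, h3⟩, fun h5 => by rcases h4 with h4 | h4; exacts [h4 h5.1, h4 h5.2.1]⟩
  have hA : ∀ l ∈ H, ∀ v ∈ D, BadC S c v l → v ∈ H := by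
    intro l hl v hvD hb
    by_contra hvH
    have h1 := hnew v l hvD (hHD hl) hb.1 (Or.inl hvH)
    refine key v l h1 hvH ?_ hb
    have h2 := hft ⟨(v, l), h1⟩
    rcases hfe : f ⟨(v, l), h1⟩ with w | q
    · rw [hfe, mem_slots_inl] at h2
      rw [h2.2]
    · rw [hfe, mem_slots_inr] at h2
      exact absurd hl h2.1
  refine ⟨c, fun v hv => by simp [hc, hv], hA, ?_⟩
  intro l hl T hT hTb
  by_cases hlH : l ∈ H
  · have hTH : T ⊆ H := fun v hv => hA l hlH v (hT hv) (hTb v hv)
    refine hv l hlH T hTH (fun v hv => ?_)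
    obtain ⟨h1, h2⟩ := hTb v hv
    refine ⟨h1, ?_⟩
    rw [← h2]
    simp [hc, hTH hv]
  · -- the slots used are `(l, false)` and `(l, true)`
    have h1 : ∀ v ∈ T, (v, l) ∈ newIncs S H D := fun v hv =>
      hnew v l (hT hv) hl (hTb v hv).1 (Or.inr hlH)
    have h2 : ∀ v (hv : v ∈ T), f ⟨(v, l), h1 v hv⟩ ∈
        (({Sum.inr (l, false), Sum.inr (l, true)}) : Finset (ℕ ⊕ (ℕ × Bool))) := by
      intro v hv
      have h2 := hft ⟨(v, l), h1 v hv⟩
      rcases hfe : f ⟨(v, l), h1 v hv⟩ with w | ⟨l', b⟩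
      · rw [hfe, mem_slots_inl] at h2
        exfalso
        refine key v l (h1 v hv) h2.1 ?_ (hTb v hv)
        rw [hfe, h2.2]
      · rw [hfe, mem_slots_inr] at h2
        simp only at h2
        rw [h2.2]
        cases b <;> simp
    have h3 := Finset.card_le_card_of_injOn (s := T.attach)
      (t := (({Sum.inr (l, false), Sum.inr (l, true)}) : Finset (ℕ ⊕ (ℕ × Bool))))
      (fun v => f ⟨(v.1, l), h1 v.1 v.2⟩) (fun v _ => h2 v.1 v.2) (by
        intro v _ w _ hvw
        have := hf hvw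
        simp only [Subtype.mk.injEq, Prod.mk.injEq, and_true] at this
        exact Subtype.ext this)
    rw [Finset.card_attach] at h3
    exact h3.trans (Finset.card_le_two)

end Str

end Pool.Agent.H88.Gen
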