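import Mathlib

/-!
# SOP1, the strict order property, dividing and forking

The language has arbitrary universe-zero symbols; models live in `Type`.
-/

set_option autoImplicit false

namespace Pool.Agent.H88.Gen

open FirstOrder FirstOrder.Language

/-- The set of formulas `{φ(x; b) : b ∈ B}` is consistent: every finite part of it is satisfied
in `M`. -/
def Consistent {L : FirstOrder.Language.{0, 0}} {M : Type} [L.Structure M] {n m : ℕ}
    (φ : L.Formula (Fin n ⊕ Fin m)) (B : Set (Fin m → M)) : Prop :=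
  ∀ F : Finset (Fin m → M), (F : Set (Fin m → M)) ⊆ B →
    ∃ a : Fin n → M, ∀ b ∈ F, φ.Realize (Sum.elim a b)

/-- `T` has SOP1. The nodes of the binary tree are the finite lists of Booleans. -/
def HasSOP1 {L : FirstOrder.Language.{0, 0}} (T : L.Theory) : Prop :=
  ∃ (M : Theory.ModelType.{0, 0, 0} T) (n m : ℕ) (φ : L.Formula (Fin n ⊕ Fin m))
    (b : List Bool → Fin m → M),
    (∀ σ : ℕ → Bool, Consistent φ (Set.range fun k : ℕ => b (List.ofFn fun i : Fin k => σ i))) ∧
      ∀ η ν : List Bool, (η ++ [false]) <+: ν → ¬ Consistent φ {b ν, b (η ++ [true])}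

/-- `T` has the strict order property. -/
def HasSOP {L : FirstOrder.Language.{0, 0}} (T : L.Theory) : Prop :=
  ∃ (M : Theory.ModelType.{0, 0, 0} T) (n m : ℕ) (φ : L.Formula (Fin n ⊕ Fin m))
    (b : ℕ → Fin m → M), ∀ i, {a : Fin n → M | φ.Realize (Sum.elim a (b i))} ⊂
      {a : Fin n → M | φ.Realize (Sum.elim a (b (i + 1)))}

/-- The sequence `s` of `m`-tuples is indiscernible over `A`. -/
def Indiscernible (L : FirstOrder.Language.{0, 0}) {M : Type} [L.Structure M] (A : Set M) {m : ℕ}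
    (s : ℕ → Fin m → M) : Prop :=
  ∀ (p k : ℕ) (ψ : L.Formula (Fin p ⊕ Fin k × Fin m)) (c : Fin p → M), (∀ t, c t ∈ A) →
    ∀ i j : Fin k → ℕ, StrictMono i → StrictMono j →
      (ψ.Realize (Sum.elim c fun q => s (i q.1) q.2) ↔
        ψ.Realize (Sum.elim c fun q => s (j q.1) q.2))

/-- `φ(x; b)` divides over `A`. -/
def Divides {L : FirstOrder.Language.{0, 0}} {M : Type} [L.Structure M] (A : Set M) {n m : ℕ}
    (φ : L.Formula (Fin n ⊕ Fin m)) (b : Fin m → M) : Prop :=
  ∃ (N : Type) (_ : L.Structure N) (e : M ↪ₑ[L] N) (s : ℕ → Fin m → N),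
    s 0 = e ∘ b ∧ Indiscernible L (e '' A) s ∧ ¬ Consistent φ (Set.range s)

/-- `φ(x; b)` forks over `A`: it implies a finite disjunction of formulas `ψ j (x; c j)` (the
`c j` in an elementary extension) each of which divides over `A`. -/
def Forks {L : FirstOrder.Language.{0, 0}} {M : Type} [L.Structure M] (A : Set M) {n m : ℕ}
    (φ : L.Formula (Fin n ⊕ Fin m)) (b : Fin m → M) : Prop :=
  ∃ (N : Type) (_ : L.Structure N) (e : M ↪ₑ[L] N) (r : ℕ) (l : Fin r → ℕ)
    (ψ : ∀ j, L.Formula (Fin n ⊕ Fin (l j))) (c : ∀ j, Fin (l j) → N),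
    (∀ a : Fin n → N, φ.Realize (Sum.elim a (e ∘ b)) → ∃ j, (ψ j).Realize (Sum.elim a (c j))) ∧
      ∀ j, Divides (e '' A) (ψ j) (c j)

/-- The complete type `tp(a/A)` forks over `A`: it contains a formula `φ(x; b)`, `b` in `A`,
which forks over `A`. -/
def TypeForks (L : FirstOrder.Language.{0, 0}) {M : Type} [L.Structure M] (A : Set M) {n : ℕ}
    (a : Fin n → M) : Prop :=
  ∃ (m : ℕ) (φ : L.Formula (Fin n ⊕ Fin m)) (b : Fin m → M), (∀ t, b t ∈ A) ∧
    φ.Realize (Sum.elim a b) ∧ Forks A φ b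

end Pool.Agent.H88.Gen
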