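import Pool.Agent.H88.Gen.Indep

/-!
# Extracting an independent sequence
-/

set_option autoImplicit false

namespace Pool.Agent.H88.Gen

open scoped Classical

theorem pigeon {F : Type} [Finite F] (g : ℕ → F) {T : Set ℕ} (hT : T.Infinite) :
    ∃ r, {n | n ∈ T ∧ g n = r}.Infinite := by
  by_contra hcon
  push Not at hcon
  apply hT
  have h1 : T = ⋃ r, {n | n ∈ T ∧ g n = r} := by
    ext n
    simp
  rw [h1]
  exact Set.finite_iUnion hcon

theorem pigeon_le (g : ℕ → ℕ) (M : ℕ) {T : Set ℕ} (hg : ∀ n ∈ T, g n ≤ M) (hT : T.Infinite) :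
    ∃ r ≤ M, {n | n ∈ T ∧ g n = r}.Infinite := by
  obtain ⟨r, hr⟩ := pigeon (fun n => (⟨min (g n) M, by omega⟩ : Fin (M + 1))) hT
  refine ⟨r.1, by have := r.2; omega, hr.mono ?_⟩
  rintro n ⟨hn, h⟩
  refine ⟨hn, ?_⟩
  have := congrArg Fin.val h
  simp only at this
  have := hg n hn
  omega

theorem stab (h : ℕ → ℕ → ℕ) (M : ℕ) (hM : ∀ n k, h n k ≤ M) (anti : ∀ n, Antitone (h n))
    {S : Set ℕ} (hS : S.Infinite) : ∃ k0 r, {n | n ∈ S ∧ h n k0 = r}.Infinite ∧
      ∀ k, k0 ≤ k → {n | (n ∈ S ∧ h n k0 = r) ∧ h n k ≠ r}.Finite := by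
  have hex : ∃ r, ∃ k, {n | n ∈ S ∧ h n k = r}.Infinite := by
    obtain ⟨r, _, hr⟩ := pigeon_le (fun n => h n 0) M (fun n _ => hM n 0) hS
    exact ⟨r, 0, hr⟩
  obtain ⟨k0, hk0⟩ := Nat.find_spec hex
  refine ⟨k0, Nat.find hex, hk0, fun k hk => ?_⟩
  by_contra hinf
  have hinf : {n | (n ∈ S ∧ h n k0 = Nat.find hex) ∧ h n k ≠ Nat.find hex}.Infinite := hinf
  obtain ⟨r, hr, hr'⟩ := pigeon_le (fun n => h n k) (Nat.find hex - 1) (by
    rintro n ⟨⟨_, h1⟩, h2⟩
    have := anti n hk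
    omega) hinf
  have h3 : r < Nat.find hex := by
    obtain ⟨n, ⟨⟨_, h1⟩, h2⟩, h4⟩ := hr'.nonempty
    have := anti n hk
    omega
  exact Nat.find_min hex h3 ⟨k, hr'.mono (by
    rintro n ⟨⟨⟨h1, _⟩, _⟩, h4⟩
    exact ⟨h1, h4⟩)⟩

/-- The range of a tuple. -/
def ran {m : ℕ} (c : Fin m → ℕ) : Finset ℕ := Finset.univ.image c

theorem mem_ran {m : ℕ} (c : Fin m → ℕ) (t : Fin m) : c t ∈ ran c :=
  Finset.mem_image_of_mem _ (Finset.mem_univ t)

theorem card_ran {m : ℕ} (c : Fin m → ℕ) : (ran c).card ≤ m := by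
  refine Finset.card_image_le.trans ?_
  simp

theorem ran_sub {m : ℕ} {c : Fin m → ℕ} {X : Finset ℕ} (h : ∀ t, c t ∈ X) : ran c ⊆ X := by
  intro a ha
  obtain ⟨t, _, rfl⟩ := Finset.mem_image.1 ha
  exact h t

theorem stabilise {m : ℕ} (c0 c1 : ℕ → Fin m → ℕ) (D : ℕ → Finset ℕ) (σ : ℕ → ℕ ≃ ℕ)
    (hσ : ∀ k, AutOver (D k) (σ k)) (hc : ∀ k t, σ k (c0 k t) = c1 k t)
    (hD : ∀ k, MM.Cl (D k) Set.univ) (hmono : Monotone D)
    (h0 : ∀ k t, c0 k t ∈ D (k + 1)) (h1 : ∀ k t, c1 k t ∈ D (k + 1)) :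
    ∃ (A : Finset ℕ) (E V : ℕ → Finset ℕ) (g : ℕ → ℕ),
      (∃ B ⊆ A, ∀ j, V j = MM.clo (B ∪ ran (c0 (g j)))) ∧ StrictMono g ∧
      ∀ j, MM.Cl (V j) Set.univ ∧ ran (c0 (g j)) ⊆ V j ∧
        E j ⊆ E (j + 1) ∧ V j ⊆ E (j + 1) ∧ (V j).image (σ (g j)) ⊆ E (j + 1) ∧
        V j ∩ E j = A ∧ Ind A (E j) (V j) ∧ AutOver (E j) (σ (g j)) := by
  -- the dimension
  set h : ℕ → ℕ → ℕ := fun n k => (d (D k ∪ ran (c0 n)) - d (D k)).toNat with hh
  have hpos : ∀ n k, 0 ≤ d (D k ∪ ran (c0 n)) - d (D k) := fun n k => by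
    have := d_mono (Finset.subset_union_left (s₁ := D k) (s₂ := ran (c0 n)))
    linarith
  have hsub : ∀ n k, d (D k ∪ ran (c0 n)) - d (D k) ≤ 2 * m := fun n k => by
    have h2 := d_submod (X := D k) (Y := ran (c0 n)) (Z := ∅) (by simp) (by simp)
    have h3 := d_le (ran (c0 n))
    have h4 := card_ran (c0 n)
    have h5 := d_nonneg ∅
    have h6 : ((ran (c0 n)).card : ℤ) ≤ m := by exact_mod_cast h4
    linarith
  have hanti : ∀ n, Antitone (h n) := by
    intro n k l hkl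
    have h2 := d_submod (X := D l) (Y := D k ∪ ran (c0 n)) (Z := D k)
      ((hmono hkl).trans (Str.subset_clo good_MM _))
      (Finset.subset_union_left.trans (Str.subset_clo good_MM _))
    have h3 : D l ∪ (D k ∪ ran (c0 n)) = D l ∪ ran (c0 n) := by
      rw [← Finset.union_assoc, Finset.union_eq_left.2 (hmono hkl)]
    rw [h3] at h2
    simp only [hh]
    apply Int.toNat_le_toNat
    linarith
  obtain ⟨k0, r, hS1, hf1⟩ := stab h (2 * m) (fun n k => by
    have := hsub n k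
    simp only [hh]
    omega) hanti (S := Set.univ) Set.infinite_univ
  set S1 : Set ℕ := {n | n ∈ Set.univ ∧ h n k0 = r} with hS1d
  -- the closures
  set V : ℕ → Finset ℕ := fun n => MM.clo (D k0 ∪ ran (c0 n)) with hV
  have hVc : ∀ n, MM.Cl (V n) Set.univ := fun n => Str.clo_cl good_MM _
  set M2 := Str.bd ((D k0).card + m) with hM2
  have hVcard : ∀ n, (V n).card ≤ M2 := by
    intro n
    refine (Str.card_clo_le good_MM _).trans (Str.bd_mono ?_)
    refine (Finset.card_union_le _ _).trans ?_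
    have := card_ran (c0 n)
    omega
  have hVD : ∀ n k, (V n ∩ D k).card ≤ M2 := fun n k =>
    (Finset.card_le_card Finset.inter_subset_left).trans (hVcard n)
  obtain ⟨k1, r2, hS2, hf2⟩ := stab (fun n k => M2 - (V n ∩ D k).card) M2
    (fun n k => Nat.sub_le _ _) (by
      intro n k l hkl
      have := Finset.card_le_card (Finset.inter_subset_inter_left (s := V n) (hmono hkl))
      simp only
      omega) hS1
  set S2 : Set ℕ := {n | n ∈ S1 ∧ M2 - (V n ∩ D k1).card = r2} with hS2d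
  obtain ⟨⟨A, _⟩, hS3⟩ := pigeon (F := {s // s ∈ (D k1).powerset})
    (fun n => ⟨V n ∩ D k1, Finset.mem_powerset.2 Finset.inter_subset_right⟩) hS2
  simp only [Subtype.mk.injEq] at hS3
  set S3 : Set ℕ := {n | n ∈ S2 ∧ V n ∩ D k1 = A} with hS3d
  set K := max k0 k1 with hK
  have hnext : ∀ k, ∃ q, K ≤ k → k ≤ q ∧ h q k0 = r ∧ h q k = r ∧ V q ∩ D k = A := by
    intro k
    by_cases hk : K ≤ k
    · have g1 := hf1 k (by omega)
      have g2 := hf2 k (by omega)
      have g3 := (hS3.sdiff (g1.union g2)).sdiff (Set.finite_lt_nat k)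
      obtain ⟨q, ⟨⟨hq1, hq1'⟩, hq2⟩, hq3⟩ := g3.nonempty
      rw [Set.mem_union, not_or] at hq2
      have e1 : h q k = r := by
        by_contra hne
        exact hq2.1 ⟨hq1.1, hne⟩
      have e2 : M2 - (V q ∩ D k).card = r2 := by
        by_contra hne
        exact hq2.2 ⟨hq1, hne⟩
      have e3 : D k1 ⊆ D k := hmono (by omega)
      have e4 : V q ∩ D k1 = V q ∩ D k := by
        apply Finset.eq_of_subset_of_card_le (Finset.inter_subset_inter_left e3)
        have := hq1.2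
        have := hVD q k
        have := hVD q k1
        omega
      refine ⟨q, fun _ => ⟨?_, hq1.1.2, e1, ?_⟩⟩
      · exact not_lt.1 (fun h => hq3 h)
      · rw [← e4]; exact hq1'
    · exact ⟨0, fun h => absurd h hk⟩
  choose nx hnx using hnext
  -- the levels
  let kk : ℕ → ℕ := fun j => Nat.rec K (fun _ k => nx k + 1) j
  have kk0 : kk 0 = K := rfl
  have kks : ∀ j, kk (j + 1) = nx (kk j) + 1 := fun j => rfl
  have hkK : ∀ j, K ≤ kk j := by
    intro j
    induction j with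
    | zero => exact le_refl _
    | succ j ih =>
      rw [kks]
      have := (hnx (kk j) ih).1
      omega
  have hA : A = V (nx (kk 0)) ∩ D (kk 0) := (hnx (kk 0) (hkK 0)).2.2.2.symm
  refine ⟨A, fun j => D (kk j), fun j => V (nx (kk j)), fun j => nx (kk j), ?_, ?_, ?_⟩
  · refine ⟨D k0, ?_, fun j => rfl⟩
    rw [hA]
    apply Finset.subset_inter _ (hmono (le_trans (le_max_left _ _) (hkK 0)))
    exact Finset.subset_union_left.trans (Str.subset_clo good_MM _)
  · apply strictMono_nat_of_lt_succ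
    intro j
    have := (hnx (kk (j + 1)) (hkK (j + 1))).1
    rw [kks] at this
    exact this
  · intro j
    obtain ⟨q1, q2, q3, q4⟩ := hnx (kk j) (hkK j)
    have hkl : kk j ≤ kk (j + 1) := by rw [kks]; omega
    have hk0 : D k0 ⊆ D (kk j) := hmono (le_trans (le_max_left _ _) (hkK j))
    have hDq : D k0 ⊆ D (nx (kk j)) := hk0.trans (hmono q1)
    have hVsub : V (nx (kk j)) ⊆ D (kk (j + 1)) := by
      apply Str.clo_min good_MM _ (hD _)
      apply Finset.union_subset
      · exact hk0.trans (hmono hkl)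
      · rw [kks]
        exact ran_sub (h0 _)
    have hk0A : D k0 ⊆ A := by
      rw [← q4]
      apply Finset.subset_inter _ hk0
      exact Finset.subset_union_left.trans (Str.subset_clo good_MM _)
    refine ⟨hVc _, ?_, hmono hkl, hVsub, ?_, q4, ?_, (hσ _).mono (hmono q1)⟩
    · exact Finset.subset_union_right.trans (Str.subset_clo good_MM _)
    · have e1 : (V (nx (kk j))).image (σ (nx (kk j))) =
          MM.clo ((D k0 ∪ ran (c0 (nx (kk j)))).image (σ (nx (kk j)))) :=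
        ((hσ _).1.clo _).symm
      rw [e1]
      apply Str.clo_min good_MM _ (hD _)
      intro a ha
      obtain ⟨b, hb, rfl⟩ := Finset.mem_image.1 ha
      rcases Finset.mem_union.1 hb with hb | hb
      · rw [(hσ _).2 b (hDq hb)]
        exact hmono hkl (hk0 hb)
      · obtain ⟨t, _, rfl⟩ := Finset.mem_image.1 hb
        rw [hc, kks]
        exact h1 _ t
    · unfold Ind
      have e1 : d (D (kk j) ∪ V (nx (kk j))) = d (D (kk j) ∪ ran (c0 (nx (kk j)))) := by
        simp only [hV]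
        rw [d_union_clo, ← Finset.union_assoc, Finset.union_eq_left.2 hk0]
      have e2 : d (V (nx (kk j))) = d (D k0 ∪ ran (c0 (nx (kk j)))) := d_clo _
      have e3 := d_mono hk0A
      have e4 := hpos (nx (kk j)) (kk j)
      have e5 := hpos (nx (kk j)) k0
      simp only [hh] at q2 q3
      beta_reduce
      rw [e1, e2]
      omega

end Pool.Agent.H88.Gen
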