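import Pool.Agent.H88.Gen.Homog

/-!
# Indiscernible sequences of points on a line
-/

set_option autoImplicit false

namespace Pool.Agent.H88.Gen

open scoped Classical

/-- A line (`0`) of kind `k`, all other numbers are points on it. -/
def LS (k : Kind) : Str := ⟨fun n => if n = 0 then k else Kind.pt, fun _ _ => True, fun _ _ => False⟩

theorem LS_kind0 (k : Kind) : (LS k).kind 0 = k := rfl

theorem LS_kind {k : Kind} {n : ℕ} (h : n ≠ 0) : (LS k).kind n = Kind.pt := by simp [LS, h]

theorem LS_I {k : Kind} (hk : k.IsLine) (a b : ℕ) : (LS k).I a b ↔ a ≠ 0 ∧ b = 0 := by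
  unfold Str.I
  constructor
  · rintro ⟨h1, h2, _⟩
    refine ⟨?_, ?_⟩
    · rintro rfl
      rw [LS_kind0] at h1
      rw [h1] at hk
      exact Str.not_isLine_pt hk
    · by_contra h
      rw [LS_kind h] at h2
      exact Str.not_isLine_pt h2
  · rintro ⟨h1, rfl⟩
    exact ⟨LS_kind h1, hk, trivial⟩

theorem LS_R {k : Kind} (_ : k.IsLine) (a b : ℕ) : ¬ (LS k).R a b := by
  rintro ⟨_, _, h⟩
  exact h

theorem LS_bad {k : Kind} (hk : k.IsLine) (x v l : ℕ) : ¬ (LS k).Bad x v l := by
  rintro ⟨_, h, _⟩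
  by_cases hx : x = 0
  · subst hx
    rw [LS_kind0] at h
    rw [h] at hk
    exact Str.not_isLine_col hk
  · rw [LS_kind hx] at h
    cases h

theorem LS_lns {k : Kind} (hk : k.IsLine) (X : Finset ℕ) : (LS k).lns X = X.filter (fun a => a = 0) := by
  ext a
  rw [Str.mem_lns, Finset.mem_filter]
  refine and_congr_right (fun _ => ?_)
  constructor
  · intro h
    by_contra h0
    rw [LS_kind h0] at h
    exact Str.not_isLine_pt h
  · rintro rfl
    exact hk

theorem LS_dl {k : Kind} (hk : k.IsLine) (X : Finset ℕ) :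
    (LS k).dl X = if 0 ∈ X then 2 else (X.card : ℤ) := by
  have h1 : (LS k).pts X = X.erase 0 := by
    ext a
    rw [Str.mem_pts, Finset.mem_erase]
    constructor
    · rintro ⟨h1, h2⟩
      refine ⟨?_, h1⟩
      rintro rfl
      rw [LS_kind0] at h2
      rw [h2] at hk
      exact Str.not_isLine_pt hk
    · rintro ⟨h1, h2⟩
      exact ⟨h2, LS_kind h1⟩
  have h2 := LS_lns hk X
  have h3 : (LS k).incs X = (X.erase 0) ×ˢ (X.filter (fun a => a = 0)) := by
    ext ⟨a, b⟩
    rw [Str.mem_incs, LS_I hk, Finset.mem_product, Finset.mem_erase, Finset.mem_filter]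
    tauto
  unfold Str.dl
  rw [h1, h2, h3, Finset.card_product]
  by_cases h0 : 0 ∈ X
  · have h4 : X.filter (fun a => a = 0) = {0} := by
      ext a
      rw [Finset.mem_filter, Finset.mem_singleton]
      constructor
      · rintro ⟨_, h⟩; exact h
      · rintro rfl; exact ⟨h0, rfl⟩
    rw [h4, if_pos h0]
    simp
  · have h4 : X.filter (fun a => a = 0) = ∅ := by
      rw [Finset.filter_eq_empty_iff]
      rintro a ha rfl
      exact h0 ha
    rw [h4, if_neg h0, Finset.erase_eq_of_notMem h0]
    simp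

theorem LS_good {k : Kind} (hk : k.IsLine) : (LS k).Good Set.univ := by
  refine ⟨fun X _ => ?_, fun x _ l _ T _ hb => ?_⟩
  · rw [LS_dl hk, LS_lns hk]
    by_cases h0 : 0 ∈ X
    · rw [if_pos h0]
      refine ⟨by norm_num, ?_⟩
      have h4 : (X.filter (fun a => a = 0)).card ≤ 1 := by
        rw [Finset.card_le_one]
        intro a ha b hb
        rw [Finset.mem_filter] at ha hb
        rw [ha.2, hb.2]
      have : 3 ^ (2 : ℤ).toNat = 9 := rfl
      omega
    · rw [if_neg h0]
      refine ⟨by positivity, ?_⟩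
      have h4 : X.filter (fun a => a = 0) = ∅ := by
        rw [Finset.filter_eq_empty_iff]
        rintro a ha rfl
        exact h0 ha
      rw [h4]
      simp
  · have : T = ∅ := by
      rw [Finset.eq_empty_iff_forall_notMem]
      intro v hv
      exact LS_bad hk _ _ _ (hb v hv)
    simp [this]

theorem LS_cl {k : Kind} (hk : k.IsLine) {A : Finset ℕ} (hA : 0 ∈ A) :
    (LS k).Cl A Set.univ := by
  refine ⟨⟨Set.subset_univ _, fun X hX _ => ?_⟩, fun x _ l _ v _ hb => absurd hb (LS_bad hk _ _ _)⟩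
  rw [LS_dl hk, LS_dl hk, if_pos hA, if_pos (hX hA)]
  refine ⟨le_refl _, fun hn => absurd ?_ hn⟩
  rw [LS_lns hk]
  intro a ha
  rw [Finset.mem_filter] at ha
  rw [ha.2]
  exact hA

theorem LS_cl1 {k : Kind} (hk : k.IsLine) : (LS k).Cl {1} Set.univ := by
  refine ⟨⟨Set.subset_univ _, fun X hX _ => ?_⟩, fun x _ l _ v _ hb => absurd hb (LS_bad hk _ _ _)⟩
  rw [LS_dl hk, LS_dl hk, if_neg (by simp), LS_lns hk]
  have h1 : 0 < X.card := Finset.card_pos.2 ⟨1, hX (by simp)⟩
  by_cases h0 : 0 ∈ X
  · rw [if_pos h0]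
    simp
  · rw [if_neg h0]
    refine ⟨by rw [Finset.card_singleton]; exact_mod_cast h1, fun hn => absurd ?_ hn⟩
    intro a ha
    rw [Finset.mem_filter] at ha
    rw [ha.2] at ha
    exact absurd ha.1 h0

/-- There is a point which is closed. -/
theorem exists_point : ∃ v, MM.kind v = Kind.pt ∧ MM.Cl {v} Set.univ := by
  have hk : Kind.pos.IsLine := Or.inl rfl
  obtain ⟨f, h1, _, h2⟩ := extG (T := LS Kind.pos) (A := ∅) (B := {1}) (g := id)
    ((LS_good hk).mono (Set.subset_univ _)) (cl_empty ((LS_good hk).mono (Set.subset_univ _)))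
    ⟨by simp, by simp, by simp, by simp⟩ (by simpa using cl_empty good_MM)
  refine ⟨f 1, ?_, by simpa using h2⟩
  rw [h1.kind 1 (by simp)]
  exact LS_kind (by norm_num)

/-- There is a colouring. -/
theorem exists_colouring : ∃ x, MM.kind x = Kind.col := by
  let T : Str := ⟨fun _ => Kind.col, fun _ _ => False, fun _ _ => False⟩
  have hI : ∀ a b, ¬ T.I a b := by
    rintro a b ⟨_, _, h⟩
    exact h
  have hT : T.Good (({0} : Finset ℕ) : Set ℕ) := by
    constructor
    · intro X _
      have h1 : T.lns X = ∅ := by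
        rw [Finset.eq_empty_iff_forall_notMem]
        intro a ha
        rw [Str.mem_lns] at ha
        exact Str.not_isLine_col ha.2
      have h2 : T.incs X = ∅ := by
        rw [Finset.eq_empty_iff_forall_notMem]
        intro a ha
        rw [Str.mem_incs] at ha
        exact hI _ _ ha.2.2
      unfold Str.dl
      rw [h1, h2]
      simp
    · intro x _ l _ U _ hb
      have : U = ∅ := by
        rw [Finset.eq_empty_iff_forall_notMem]
        intro v hv
        exact hI _ _ (hb v hv).1
      simp [this]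
  obtain ⟨f, h1, _, _⟩ := extG (T := T) (A := ∅) (B := {0}) (g := id) hT (cl_empty hT)
    ⟨by simp, by simp, by simp, by simp⟩ (by simpa using cl_empty good_MM)
  exact ⟨f 0, h1.kind 0 (by simp)⟩

/-- A long embedding of a line with all its points. -/
theorem exists_long {k : Kind} (hk : k.IsLine) {v : ℕ} (hv : MM.kind v = Kind.pt)
    (hvc : MM.Cl {v} Set.univ) : ∃ f : ℕ → ℕ, Emb (LS k) MM Set.univ f ∧ f 1 = v ∧
      ∀ K, 1 ≤ K → MM.Cl ((Finset.range K).image f) Set.univ := by
  have hemb1 : Emb (LS k) MM (({1} : Finset ℕ) : Set ℕ) (fun _ => v) := by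
    refine ⟨by simp, ?_, ?_, ?_⟩
    · intro a ha
      rw [Finset.coe_singleton, Set.mem_singleton_iff] at ha
      rw [ha, hv]
      exact (LS_kind (by norm_num)).symm
    · intro a ha b hb
      rw [Finset.coe_singleton, Set.mem_singleton_iff] at ha hb
      subst ha hb
      rw [LS_I hk]
      constructor
      · rintro ⟨_, h, _⟩
        rw [hv] at h
        exact absurd h Str.not_isLine_pt
      · rintro ⟨_, h⟩
        cases h
    · intro a ha b hb
      constructor
      · rintro ⟨h, _⟩
        rw [hv] at h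
        cases h
      · intro h
        exact absurd h (LS_R hk _ _)
  obtain ⟨f0, h1, h2, h3⟩ := extG (T := LS k) (A := {1}) (B := Finset.range 2)
    (g := fun _ => v) ((LS_good hk).mono (Set.subset_univ _))
    ((LS_cl1 hk).mono (by simp) (Set.subset_univ _)) hemb1 (by
      simpa using hvc)
  -- the chain
  let P : ℕ → (ℕ → ℕ) → Prop := fun K f => Emb (LS k) MM (Finset.range (K + 2) : Finset ℕ) f ∧
    MM.Cl ((Finset.range (K + 2)).image f) Set.univ
  have hstep : ∀ K f, ∃ g, P K f → (P (K + 1) g ∧ ∀ a ∈ Finset.range (K + 2), g a = f a) := by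
    intro K f
    by_cases hP : P K f
    · obtain ⟨g, g1, g2, g3⟩ := extG (T := LS k) (A := Finset.range (K + 2))
        (B := Finset.range (K + 1 + 2)) (g := f) ((LS_good hk).mono (Set.subset_univ _))
        ((LS_cl hk (by simp)).mono (by
          exact_mod_cast Finset.range_mono (by omega)) (Set.subset_univ _)) hP.1 hP.2
      exact ⟨g, fun _ => ⟨⟨g1, g3⟩, g2⟩⟩
    · exact ⟨f, fun h => absurd h hP⟩
  choose nx hnx using hstep
  let F : ℕ → ℕ → ℕ := fun K => Nat.rec f0 (fun K f => nx K f) K
  have F0 : F 0 = f0 := rfl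
  have Fs : ∀ K, F (K + 1) = nx K (F K) := fun K => rfl
  have hF : ∀ K, P K (F K) := by
    intro K
    induction K with
    | zero => exact ⟨h1, h3⟩
    | succ K ih =>
      rw [Fs]
      exact (hnx K _ ih).1
  have hFs : ∀ K, ∀ a ∈ Finset.range (K + 2), F (K + 1) a = F K a := by
    intro K a ha
    rw [Fs]
    exact (hnx K _ (hF K)).2 a ha
  have hFl : ∀ K L, K ≤ L → ∀ a ∈ Finset.range (K + 2), F L a = F K a := by
    intro K L hKL
    induction L, hKL using Nat.le_induction with
    | base => intro a _; rfl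
    | succ L hL ih =>
      intro a ha
      rw [hFs L a (Finset.range_mono (by omega) ha), ih a ha]
  set f : ℕ → ℕ := fun n => F n n with hf
  have hfF : ∀ K, ∀ a ∈ Finset.range (K + 2), f a = F K a := by
    intro K a ha
    simp only [hf]
    rcases le_total a K with h | h
    · exact (hFl a K h a (Finset.mem_range.2 (by omega))).symm
    · exact hFl K a h a ha
  have hfe : ∀ K, Emb (LS k) MM (Finset.range (K + 2) : Finset ℕ) f := fun K =>
    (hF K).1.congr (fun a ha => hfF K a (by exact_mod_cast ha))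
  refine ⟨f, ⟨?_, ?_, ?_, ?_⟩, ?_, ?_⟩
  · intro a _ b _ hab
    refine (hfe (a + b)).inj ?_ ?_ hab
    · simp; omega
    · simp; omega
  · intro a _
    exact (hfe a).kind a (by simp)
  · intro a _ b _
    exact (hfe (a + b)).I a (by simp; omega) b (by simp; omega)
  · intro a _ b _
    exact (hfe (a + b)).R a (by simp; omega) b (by simp; omega)
  · rw [hfF 0 1 (by simp)]
    exact h2 1 (by simp)
  · intro K hK
    have h4 : (LS k).Cl (Finset.range K) (Finset.range (K + 2) : Finset ℕ) :=
      (LS_cl hk (by simp; omega)).mono (by exact_mod_cast Finset.range_mono (by omega))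
        (Set.subset_univ _)
    have h5 := (hfe K).cl h4
    rw [← Finset.coe_image] at h5
    refine h5.trans ?_
    have h6 : (Finset.range (K + 2)).image f = (Finset.range (K + 2)).image (F K) :=
      Finset.image_congr (fun a ha => hfF K a (by exact_mod_cast ha))
    rw [h6]
    exact (hF K).2

/-- Two closed embeddings of the same finite structure are conjugate. -/
theorem conj {T : Str} {X : Finset ℕ} {f g : ℕ → ℕ} (hf : Emb T MM X f) (hg : Emb T MM X g)
    (cf : MM.Cl (X.image f) Set.univ) (cg : MM.Cl (X.image g) Set.univ) :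
    ∃ σ : ℕ ≃ ℕ, IsAut σ ∧ ∀ a ∈ X, σ (f a) = g a := by
  have h1 := hf.symm
  have hinv : ∀ a ∈ X, Function.invFunOn f X (f a) = a := fun a ha =>
    hf.inj.leftInvOn_invFunOn (by exact_mod_cast ha)
  have h2 : Emb MM MM (X.image f : Finset ℕ) (g ∘ Function.invFunOn f X) := by
    rw [Finset.coe_image]
    refine h1.comp (hg.mono ?_)
    rintro _ ⟨_, ⟨a, ha, rfl⟩, rfl⟩
    rw [hinv a (by exact_mod_cast ha)]
    exact ha
  have h3 : (X.image f).image (g ∘ Function.invFunOn f X) = X.image g := by
    ext b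
    simp only [Finset.mem_image, Function.comp]
    constructor
    · rintro ⟨_, ⟨a, ha, rfl⟩, rfl⟩
      exact ⟨a, ha, by rw [hinv a ha]⟩
    · rintro ⟨a, ha, rfl⟩
      exact ⟨f a, ⟨a, ha, rfl⟩, by rw [hinv a ha]⟩
  obtain ⟨σ, h4, h5⟩ := (PIso.mk cf h2 (by rw [h3]; exact cg)).exists_aut
  refine ⟨σ, h4, fun a ha => ?_⟩
  rw [h5 _ (Finset.mem_image_of_mem _ ha)]
  simp only [Function.comp]
  rw [hinv a ha]

/-- The sequence of points is indiscernible: any two increasing tuples are conjugate. -/
theorem indisc_line {k : Kind} (hk : k.IsLine) {f : ℕ → ℕ} (hf : Emb (LS k) MM Set.univ f)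
    (hc : ∀ K, 1 ≤ K → MM.Cl ((Finset.range K).image f) Set.univ) {n : ℕ} (i j : Fin n → ℕ)
    (hi : Function.Injective i) (hj : Function.Injective j) :
    ∃ σ : ℕ ≃ ℕ, IsAut σ ∧ ∀ t, σ (f (i t + 1)) = f (j t + 1) := by
  set X : Finset ℕ := insert 0 (Finset.univ.image fun t => i t + 1) with hX
  have hcl : ∀ Y : Finset ℕ, 0 ∈ Y → MM.Cl (Y.image f) Set.univ := by
    intro Y hY
    have h1 : Y ⊆ Finset.range (Y.sup id + 1) := by
      intro a ha
      have := Finset.le_sup (f := id) ha
      simp only [id] at this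
      exact Finset.mem_range.2 (by omega)
    have h2 : (LS k).Cl Y (Finset.range (Y.sup id + 1) : Finset ℕ) :=
      (LS_cl hk hY).mono (by exact_mod_cast h1) (Set.subset_univ _)
    have h3 := (hf.mono (Set.subset_univ _)).cl h2
    rw [← Finset.coe_image] at h3
    exact h3.trans (hc _ (by omega))
  -- the map on indices
  have hex : ∃ π : ℕ → ℕ, π 0 = 0 ∧ ∀ t, π (i t + 1) = j t + 1 := by
    refine ⟨fun n => if h : ∃ t, i t + 1 = n then j h.choose + 1 else 0, ?_, ?_⟩
    · simp
    · intro t
      have h : ∃ t', i t' + 1 = i t + 1 := ⟨t, rfl⟩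
      simp only [dif_pos h]
      have h1 := h.choose_spec
      have h2 : h.choose = t := hi (by omega)
      rw [h2]
  obtain ⟨π, hπ0, hπ⟩ := hex
  have hπe : Emb (LS k) (LS k) X π := by
    have hXc : ∀ a ∈ X, (a = 0 ∧ π a = 0) ∨ ∃ t, a = i t + 1 ∧ π a = j t + 1 := by
      intro a ha
      rw [hX, Finset.mem_insert, Finset.mem_image] at ha
      rcases ha with rfl | ⟨t, _, rfl⟩
      · exact Or.inl ⟨rfl, hπ0⟩
      · exact Or.inr ⟨t, rfl, hπ t⟩
    have h0 : ∀ a ∈ X, (π a = 0 ↔ a = 0) := by
      intro a ha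
      rcases hXc a ha with ⟨rfl, h⟩ | ⟨t, rfl, h⟩
      · simp [h]
      · simp [h]
    refine ⟨?_, ?_, ?_, ?_⟩
    · intro a ha b hb hab
      rcases hXc a (by exact_mod_cast ha) with ⟨rfl, h⟩ | ⟨t, rfl, h⟩ <;>
        rcases hXc b (by exact_mod_cast hb) with ⟨rfl, h'⟩ | ⟨t', rfl, h'⟩
      · rfl
      · omega
      · omega
      · have : t = t' := hj (by omega)
        rw [this]
    · intro a ha
      have h1 := h0 a (by exact_mod_cast ha)
      simp only [LS, h1]
    · intro a ha b hb
      have h1 := h0 a (by exact_mod_cast ha)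
      have h2 := h0 b (by exact_mod_cast hb)
      rw [LS_I hk, LS_I hk, h2, ne_eq, h1]
    · intro a ha b hb
      exact ⟨fun h => absurd h (LS_R hk _ _), fun h => absurd h (LS_R hk _ _)⟩
  have h2 : MM.Cl (X.image (f ∘ π)) Set.univ := by
    rw [← Finset.image_image]
    apply hcl
    rw [Finset.mem_image]
    exact ⟨0, Finset.mem_insert_self _ _, hπ0⟩
  obtain ⟨σ, h3, h4⟩ := conj (hf.mono (Set.subset_univ _)) (hπe.comp (hf.mono (Set.subset_univ _)))
    (hcl X (Finset.mem_insert_self _ _)) h2
  refine ⟨σ, h3, fun t => ?_⟩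
  rw [h4 _ (Finset.mem_insert_of_mem (Finset.mem_image_of_mem _ (Finset.mem_univ t)))]
  simp only [Function.comp]
  rw [hπ]

end Pool.Agent.H88.Gen
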