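import Pool.Agent.H88.Gen.NSOP

/-!
# From an SOP1 tree to a contradiction
-/

set_option autoImplicit false

namespace Pool.Agent.H88.Gen

open scoped Classical

/-- The node `η 0^(i+1) 1`. -/
def node (η : List Bool) (i : ℕ) : List Bool := η ++ List.replicate (i + 1) false ++ [true]

theorem node_step {m : ℕ} (b : List Bool → Fin m → ℕ) (s : List Bool × Finset ℕ) :
    ∃ r : ℕ × ℕ × (ℕ ≃ ℕ), r.1 < r.2.1 ∧ AutOver s.2 r.2.2 ∧
      ∀ t, r.2.2 (b (node s.1 r.2.1) t) = b (node s.1 r.1) t := by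
  obtain ⟨F, hF, inv, hinv⟩ := exists_inv s.2 m
  obtain ⟨i, j, hij, h⟩ := Finite.exists_ne_map_eq_of_infinite (fun i => inv (b (node s.1 i)))
  rcases lt_or_gt_of_ne hij with h1 | h1
  · obtain ⟨σ, h2, h3⟩ := hinv _ _ (Eq.symm h)
    exact ⟨(i, j, σ), h1, h2, h3⟩
  · obtain ⟨σ, h2, h3⟩ := hinv _ _ h
    exact ⟨(j, i, σ), h1, h2, h3⟩

/-- The choice of a step. -/
noncomputable def stp {m : ℕ} (b : List Bool → Fin m → ℕ) (s : List Bool × Finset ℕ) :
    ℕ × ℕ × (ℕ ≃ ℕ) := (node_step b s).choose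

/-- The sequence of states. -/
noncomputable def sts {m : ℕ} (b : List Bool → Fin m → ℕ) : ℕ → List Bool × Finset ℕ
  | 0 => ([], MM.clo ∅)
  | k + 1 => (node (sts b k).1 (stp b (sts b k)).2.1,
      MM.clo ((sts b k).2 ∪ (ran (b (node (sts b k).1 (stp b (sts b k)).2.1)) ∪
        ran (b (node (sts b k).1 (stp b (sts b k)).1)))))

theorem node_pre (η : List Bool) {i j : ℕ} (hij : i < j) :
    ((η ++ List.replicate (i + 1) false) ++ [false]) <+: node η j := by
  obtain ⟨k, rfl⟩ : ∃ k, j = i + 1 + k := ⟨j - (i + 1), by omega⟩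
  refine ⟨List.replicate k false ++ [true], ?_⟩
  unfold node
  have h1 : i + 1 + k + 1 = (i + 1) + (1 + k) := by ring
  have h2 : List.replicate (i + 1 + k + 1) false =
      List.replicate (i + 1) false ++ ([false] ++ List.replicate k false) := by
    rw [h1, List.replicate_add (i + 1) (1 + k), List.replicate_add 1 k]
    rfl
  rw [h2]
  simp only [List.append_assoc]

theorem no_sop1 {n m : ℕ} (φ : (Fin n → ℕ) → (Fin m → ℕ) → Prop)
    (hφ : ∀ σ : ℕ ≃ ℕ, IsAut σ → ∀ a b, φ a b → φ (σ ∘ a) (σ ∘ b))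
    (b : List Bool → Fin m → ℕ) (con : ∀ ν, ∃ a, ∀ η, η <+: ν → φ a (b η))
    (inc : ∀ η ν, (η ++ [false]) <+: ν → ¬ ∃ a, φ a (b ν) ∧ φ a (b (η ++ [true]))) : False := by
  set S := sts b with hS
  set c0 : ℕ → Fin m → ℕ := fun k => b (node (S k).1 (stp b (S k)).2.1) with hc0
  set c1 : ℕ → Fin m → ℕ := fun k => b (node (S k).1 (stp b (S k)).1) with hc1
  have hst : ∀ k, (stp b (S k)).1 < (stp b (S k)).2.1 ∧ AutOver (S k).2 (stp b (S k)).2.2 ∧
      ∀ t, (stp b (S k)).2.2 (b (node (S k).1 (stp b (S k)).2.1) t) =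
        b (node (S k).1 (stp b (S k)).1) t := fun k => (node_step b (S k)).choose_spec
  have hs1 : ∀ k, (S (k + 1)).1 = node (S k).1 (stp b (S k)).2.1 := fun k => rfl
  have hs2 : ∀ k, (S (k + 1)).2 = MM.clo ((S k).2 ∪ (ran (c0 k) ∪ ran (c1 k))) := fun k => rfl
  have hpre : ∀ k l, k ≤ l → (S k).1 <+: (S l).1 := by
    intro k l hkl
    induction l, hkl using Nat.le_induction with
    | base => exact List.prefix_refl _
    | succ l _ ih =>
      refine ih.trans ?_
      rw [hs1]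
      unfold node
      rw [List.append_assoc]
      exact List.prefix_append _ _
  have hsub : ∀ k, (S k).2 ∪ (ran (c0 k) ∪ ran (c1 k)) ⊆ (S (k + 1)).2 := by
    intro k
    rw [hs2]
    exact Str.subset_clo good_MM _
  obtain ⟨A, E, V, g, _, hg, hall⟩ := stabilise c0 c1 (fun k => (S k).2)
    (fun k => (stp b (S k)).2.2) (fun k => (hst k).2.1) (fun k => (hst k).2.2)
    (fun k => by
      cases k with
      | zero => exact Str.clo_cl good_MM _
      | succ k => exact Str.clo_cl good_MM _)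
    (monotone_nat_of_le_succ (fun k => (Finset.union_subset_left (hsub k))))
    (fun k t => hsub k (Finset.mem_union_right _ (Finset.mem_union_left _ (mem_ran _ t))))
    (fun k t => hsub k (Finset.mem_union_right _ (Finset.mem_union_right _ (mem_ran _ t))))
  refine contra φ hφ c0 c1 (fun k => (stp b (S k)).2.2) (fun k => (hst k).2.2) hg hall ?_ ?_
  · intro N
    obtain ⟨a, ha⟩ := con (S N).1
    refine ⟨a, fun k hk => ?_⟩
    have h1 := ha (S (k + 1)).1 (hpre (k + 1) N hk)
    rw [hs1] at h1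
    exact h1
  · rintro k l hkl ⟨a, h1, h2⟩
    refine inc ((S k).1 ++ List.replicate ((stp b (S k)).1 + 1) false)
      (node (S l).1 (stp b (S l)).1) ?_ ⟨a, h2, h1⟩
    refine (node_pre _ (hst k).1).trans ?_
    rw [← hs1]
    refine (hpre (k + 1) l hkl).trans ?_
    unfold node
    rw [List.append_assoc]
    exact List.prefix_append _ _

end Pool.Agent.H88.Gen
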