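import Pool.Agent.H88.Gen.RN
import Pool.Agent.H88.Gen.Tree

/-!
# The language and the theory
-/

set_option autoImplicit false

namespace Pool.Agent.H88.Gen

open FirstOrder FirstOrder.Language

open scoped Classical

/-- Relation symbols. -/
inductive Rel : ℕ → Type
  | kd (k : Kind) : Rel 1
  | inc : Rel 2
  | clr : Rel 2

/-- The language. -/
def LL : FirstOrder.Language.{0, 0} := ⟨fun _ => Empty, Rel⟩

instance : Countable LL.Symbols := by
  have h1 : Countable (Σ n, LL.Functions n) := by
    have : IsEmpty (Σ n, LL.Functions n) := ⟨fun x => x.2.elim⟩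
    infer_instance
  have h2 : Countable (Σ n, LL.Relations n) := by
    refine Function.Surjective.countable (f := fun x : Kind ⊕ Bool => match x with
      | Sum.inl k => (⟨1, Rel.kd k⟩ : Σ n, LL.Relations n)
      | Sum.inr false => ⟨2, Rel.inc⟩
      | Sum.inr true => ⟨2, Rel.clr⟩) ?_
    rintro ⟨n, r⟩
    cases r with
    | kd k => exact ⟨Sum.inl k, rfl⟩
    | inc => exact ⟨Sum.inr false, rfl⟩
    | clr => exact ⟨Sum.inr true, rfl⟩
  unfold FirstOrder.Language.Symbols
  infer_instance

/-- The underlying set of the generic structure. -/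
abbrev Mo : Type := ℕ

/-- The interpretation of the relation symbols. -/
def rmap : ∀ {n : ℕ}, Rel n → (Fin n → Mo) → Prop
  | _, Rel.kd k, v => MM.kind (v 0) = k
  | _, Rel.inc, v => MM.I (v 0) (v 1)
  | _, Rel.clr, v => MM.R (v 0) (v 1)

instance : LL.Structure Mo where
  funMap f := f.elim
  RelMap r v := rmap r v

/-- Automorphisms of the generic structure are automorphisms in the sense of the language. -/
def autEquiv (σ : ℕ ≃ ℕ) (h : IsAut σ) : Mo ≃[LL] Mo where
  toFun := σ
  invFun := σ.symm
  left_inv := σ.left_inv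
  right_inv := σ.right_inv
  map_fun' f := f.elim
  map_rel' r v := by
    change rmap r (fun i => σ (v i)) ↔ rmap r v
    cases r with
    | kd k =>
      change MM.kind (σ (v 0)) = k ↔ MM.kind (v 0) = k
      rw [Emb.kind h (v 0) trivial]
    | inc => exact Emb.I h (v 0) trivial (v 1) trivial
    | clr => exact Emb.R h (v 0) trivial (v 1) trivial

theorem realize_aut {α : Type} (σ : ℕ ≃ ℕ) (h : IsAut σ) (φ : LL.Formula α) (v : α → Mo) :
    Formula.Realize (M := Mo) φ (fun i => σ (v i)) ↔ φ.Realize v :=
  StrongHomClass.realize_formula (autEquiv σ h) φ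

theorem finTypes_Mo : FinTypes LL Mo := by
  intro α hα
  obtain ⟨m, ⟨e⟩⟩ := Finite.exists_equiv_fin α
  obtain ⟨F, hF, inv, hinv⟩ := exists_inv ∅ m
  refine ⟨F, hF, fun a => inv (a ∘ e.symm), fun a b hab φ => ?_⟩
  obtain ⟨σ, hσ, h2⟩ := hinv _ _ hab
  have h3 : (fun i => σ (a i)) = b := by
    funext i
    have h4 : σ (a (e.symm (e i))) = b (e.symm (e i)) := h2 (e i)
    rw [e.symm_apply_apply] at h4
    exact h4
  rw [← h3]
  exact (realize_aut σ hσ.1 φ a).symm

/-- The theory. -/
def TT : LL.Theory := LL.completeTheory Mo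

theorem complete_TT : TT.IsComplete := completeTheory.isComplete LL Mo

theorem infinite_model (N : Type) [LL.Structure N] [Nonempty N] (h : N ⊨ TT) : Infinite N := by
  have h1 : Mo ⊨ LL.infiniteTheory := (model_infiniteTheory_iff LL).2 inferInstance
  have h2 : N ⊨ LL.infiniteTheory := by
    refine ⟨fun φ hφ => ?_⟩
    exact h.realize_of_mem φ (h1.realize_of_mem φ hφ)
  exact (model_infiniteTheory_iff LL).1 h2

theorem equiv_model (N : Type) [LL.Structure N] [Nonempty N] [Countable N] (h : N ⊨ TT) :
    Nonempty (Mo ≃[LL] N) := by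
  apply rn finTypes_Mo
  intro φ
  constructor
  · intro hφ
    exact h.realize_of_mem φ hφ
  · intro hφ
    by_contra hn
    have h1 : Mo ⊨ φ.not := by
      rw [Sentence.realize_not]; exact hn
    have h2 : N ⊨ φ.not := h.realize_of_mem _ h1
    rw [Sentence.realize_not] at h2
    exact h2 hφ

theorem categorical_TT : Cardinal.Categorical Cardinal.aleph0.{0} TT := by
  intro M N hM hN
  have hM' : Countable M := Cardinal.mk_le_aleph0_iff.1 hM.le
  have hN' : Countable N := Cardinal.mk_le_aleph0_iff.1 hN.le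
  obtain ⟨e⟩ := equiv_model M M.is_model
  obtain ⟨f⟩ := equiv_model N N.is_model
  exact ⟨f.comp e.symm⟩

end Pool.Agent.H88.Gen
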