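import Pool.Agent.H88.Gen.Extract

/-!
# No strict order
-/

set_option autoImplicit false

namespace Pool.Agent.H88.Gen

open scoped Classical

/-- The chain of closures of an initial segment of a sequence. -/
noncomputable def chn {m : ℕ} (b : ℕ → Fin m → ℕ) : ℕ → Finset ℕ
  | 0 => MM.clo ∅
  | k + 1 => MM.clo (chn b k ∪ ran (b k))

/-- A transitive irreflexive invariant relation has no infinite increasing chain. -/
theorem no_order {m : ℕ} (lt : (Fin m → ℕ) → (Fin m → ℕ) → Prop)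
    (hinv : ∀ σ : ℕ ≃ ℕ, IsAut σ → ∀ a b, lt a b → lt (σ ∘ a) (σ ∘ b))
    (irr : ∀ a, ¬ lt a a) (tr : ∀ a b c, lt a b → lt b c → lt a c)
    (b : ℕ → Fin m → ℕ) (hb : ∀ i, lt (b i) (b (i + 1))) : False := by
  have hlt : ∀ i j, i < j → lt (b i) (b j) := by
    intro i j hij
    induction j, hij using Nat.le_induction with
    | base => exact hb i
    | succ j _ ih => exact tr _ _ _ ih (hb j)
  have hsub : ∀ k, chn b k ∪ ran (b k) ⊆ chn b (k + 1) := fun k => Str.subset_clo good_MM _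
  obtain ⟨A, E, V, g, ⟨B, hBA, hV⟩, hg, hall⟩ := stabilise b b (chn b)
    (fun _ => Equiv.refl ℕ) (fun k => AutOver.refl _) (fun _ _ => rfl)
    (fun k => by
      cases k with
      | zero => exact Str.clo_cl good_MM _
      | succ k => exact Str.clo_cl good_MM _)
    (monotone_nat_of_le_succ (fun k => Finset.union_subset_left (hsub k)))
    (fun k t => hsub k (Finset.mem_union_right _ (mem_ran _ t)))
    (fun k t => hsub k (Finset.mem_union_right _ (mem_ran _ t)))
  have hEmono : Monotone E := monotone_nat_of_le_succ (fun j => (hall j).2.2.1)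
  have hAV : ∀ j, A ⊆ V j := fun j => by
    rw [← (hall j).2.2.2.2.2.1]; exact Finset.inter_subset_left
  have hVV : ∀ i j, i < j → V i ⊆ E j := fun i j hij =>
    (hall i).2.2.2.1.trans (hEmono hij)
  have hVA : ∀ i j, i < j → V i ∩ V j = A := by
    intro i j hij
    apply Finset.Subset.antisymm
    · rw [← (hall j).2.2.2.2.2.1]
      intro x hx
      rw [Finset.mem_inter] at hx ⊢
      exact ⟨hx.2, hVV i j hij hx.1⟩
    · exact Finset.subset_inter (hAV i) (hAV j)
  have hVI : ∀ i j, i < j → Ind A (V i) (V j) := fun i j hij =>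
    ((hall j).2.2.2.2.2.2.1).mono (hVV i j hij)
  -- three conjugate tuples
  obtain ⟨F, hF, inv, hinv'⟩ := exists_inv A m
  obtain ⟨r, hr⟩ := pigeon (fun j => inv (b (g j))) Set.infinite_univ
  obtain ⟨p0, ⟨_, h0⟩⟩ := hr.nonempty
  obtain ⟨p1, ⟨_, h1⟩, h01⟩ := hr.exists_gt p0
  obtain ⟨p2, ⟨_, h2⟩, h12⟩ := hr.exists_gt p1
  obtain ⟨σa, ha1, ha2⟩ := hinv' (b (g p0)) (b (g p1)) (h0.trans h1.symm)
  obtain ⟨σb, hb1, hb2⟩ := hinv' (b (g p2)) (b (g p0)) (h2.trans h0.symm)
  have himg : ∀ (σ : ℕ ≃ ℕ) (i j : ℕ), AutOver A σ → (∀ t, σ (b (g i) t) = b (g j) t) →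
      (V i).image σ = V j := by
    intro σ i j hσ hij
    rw [hV i, hV j, ← hσ.1.clo]
    congr 1
    rw [Finset.image_union]
    congr 1
    · ext x
      rw [Finset.mem_image]
      constructor
      · rintro ⟨y, hy, rfl⟩
        rw [hσ.2 y (hBA hy)]
        exact hy
      · intro hx
        exact ⟨x, hx, hσ.2 x (hBA hx)⟩
    · ext x
      simp only [ran, Finset.mem_image, Finset.mem_univ, true_and]
      constructor
      · rintro ⟨_, ⟨t, rfl⟩, rfl⟩
        exact ⟨t, (hij t).symm⟩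
      · rintro ⟨t, rfl⟩
        exact ⟨_, ⟨t, rfl⟩, hij t⟩
  have ia := himg σa p0 p1 ha1 ha2
  have ib := himg σb p2 p0 hb1 hb2
  obtain ⟨τa, τb, ta, tb, t1, t2, t3⟩ := threeAm (U := V p1) (Va := V p0) (Vb := V p2) (A := A)
    ha1.1 hb1.1 ha1.2 hb1.2 (hall p1).1 (hall p0).1 (hall p2).1
    (by rw [Finset.inter_comm]; exact hVA _ _ h01) (hVA _ _ h12)
    (by rw [ia, ib, Finset.inter_comm]; exact hVA _ _ h01)
    (hVI _ _ h01).symm (hVI _ _ h12) (by rw [ia, ib]; exact (hVI _ _ h01).symm)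
  have ea : τa ∘ b (g p0) = b (g p1) := by
    funext t
    rw [← ha2]
    exact t2 _ ((hall p0).2.1 (mem_ran _ t))
  have eb : τb ∘ b (g p2) = b (g p0) := by
    funext t
    rw [← hb2]
    exact t3 _ ((hall p2).2.1 (mem_ran _ t))
  have eab : τa ∘ b (g p1) = τb ∘ b (g p1) := by
    funext t
    exact t1 _ ((hall p1).2.1 (mem_ran _ t))
  have f1 := hinv τa ta _ _ (hlt _ _ (hg h01))
  have f2 := hinv τb tb _ _ (hlt _ _ (hg h12))
  rw [ea] at f1
  rw [eb, ← eab] at f2
  exact irr _ (tr _ _ _ (tr _ _ _ f1 f2) (hlt _ _ (hg h01)))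

end Pool.Agent.H88.Gen
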