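import Pool.Agent.H88.Gen.Defs
import Pool.Agent.H88.Gen.Lang
import Pool.Agent.H88.Gen.Fork
import Pool.Agent.H88.Gen.Strict

/-!
# The theory of the generic structure: NSOP1, NSOP, and a forking type
-/

set_option autoImplicit false

namespace Pool.Agent.H88.Gen

open FirstOrder FirstOrder.Language

open scoped Classical

/-- Every countable subset of a model is contained in an elementary copy of the generic
structure. -/
theorem exists_emb (M : Theory.ModelType.{0, 0, 0} TT) (s : Set M) (hs : s.Countable) :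
    ∃ j : Mo ↪ₑ[LL] M, s ⊆ Set.range j := by
  have hinf : Infinite M := infinite_model M M.is_model
  obtain ⟨S, hS, hcard⟩ := exists_elementarySubstructure_card_eq LL s Cardinal.aleph0.{0}
    le_rfl (by simpa using hs) (by
      simp only [Cardinal.lift_id]
      exact Cardinal.mk_le_aleph0) (by
      simp only [Cardinal.lift_id]
      exact Cardinal.aleph0_le_mk M)
  have hScount : Countable S := by
    apply Cardinal.mk_le_aleph0_iff.1
    simpa using hcard.le
  have hSne : Nonempty S := by
    have : Infinite S := Cardinal.infinite_iff.2 (by simpa using hcard.ge)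
    infer_instance
  have hST : S ⊨ TT := (ElementarySubstructure.theory_model_iff S TT).2 M.is_model
  obtain ⟨e⟩ := equiv_model S hST
  refine ⟨S.subtype.comp e.toElementaryEmbedding, ?_⟩
  intro x hx
  refine ⟨e.symm ⟨x, hS hx⟩, ?_⟩
  change ((e (e.symm ⟨x, hS hx⟩) : S) : M) = x
  rw [e.apply_symm_apply]

/-- Existential statements pass down along elementary embeddings. -/
theorem ex_down {L : FirstOrder.Language.{0, 0}} {M N : Type} [L.Structure M] [L.Structure N]
    (j : M ↪ₑ[L] N) {α β : Type} [Finite β] (θ : L.Formula (α ⊕ β)) (w : α → M)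
    (h : ∃ a : β → N, θ.Realize (Sum.elim (j ∘ w) a)) :
    ∃ a : β → M, θ.Realize (Sum.elim w a) := by
  have h1 : (θ.iExs β).Realize (j ∘ w) := by
    rw [Formula.realize_iExs]; exact h
  rw [j.map_formula, Formula.realize_iExs] at h1
  exact h1

theorem elim_comp {α β M N : Type} (j : M → N) (a : α → M) (b : β → M) :
    j ∘ Sum.elim a b = Sum.elim (j ∘ a) (j ∘ b) := by
  funext x
  cases x <;> rfl

theorem elim_relabel {K α β M : Type} (w : K × β → M) (a : α → M) (k : K) :
    Sum.elim w a ∘ (Sum.elim (fun i => Sum.inr i) (fun t => Sum.inl (k, t)) :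
      α ⊕ β → (K × β) ⊕ α) = Sum.elim a (fun t => w (k, t)) := by
  funext x
  cases x <;> rfl

theorem no_SOP1 : ¬ HasSOP1 TT := by
  rintro ⟨M, n, m, φ, b, h1, h2⟩
  obtain ⟨j, hj⟩ := exists_emb M (Set.range fun p : List Bool × Fin m => b p.1 p.2)
    (Set.countable_range _)
  have hb : ∀ η t, ∃ x : Mo, j x = b η t := fun η t => hj ⟨(η, t), rfl⟩
  choose b' hb' using hb
  have hb'' : ∀ η, j ∘ b' η = b η := fun η => funext (hb' η)
  let φ' : (Fin n → ℕ) → (Fin m → ℕ) → Prop := fun a c =>
    Formula.Realize (M := Mo) φ (Sum.elim a c)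
  refine no_sop1 φ' ?_ b' ?_ ?_
  · intro σ hσ a c h
    have h3 := (realize_aut σ hσ φ (Sum.elim a c)).2 h
    have h4 : (fun i => σ ((Sum.elim a c : Fin n ⊕ Fin m → ℕ) i)) =
        Sum.elim (σ ∘ a) (σ ∘ c) := elim_comp σ a c
    change Formula.Realize (M := Mo) φ (Sum.elim (σ ∘ a) (σ ∘ c))
    rw [← h4]
    exact h3
  · intro ν
    -- the finite set of parameters
    have h3 : ∃ a : Fin n → M, ∀ k : Fin (ν.length + 1),
        φ.Realize (Sum.elim a (b (ν.take k))) := by
      obtain ⟨a, ha⟩ := h1 (fun i => ν.getD i false)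
        (Finset.univ.image fun k : Fin (ν.length + 1) => b (ν.take k)) (by
          intro x hx
          rw [Finset.coe_image] at hx
          obtain ⟨k, _, rfl⟩ := hx
          refine ⟨k, ?_⟩
          simp only
          congr 1
          apply List.ext_getElem
          · simp
            omega
          · intro i hi hi'
            simp at hi hi' ⊢
            have : i < ν.length := by omega
            simp [this])
      exact ⟨a, fun k => ha _ (Finset.mem_image_of_mem _ (Finset.mem_univ k))⟩
    -- pass down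
    let θ : LL.Formula ((Fin (ν.length + 1) × Fin m) ⊕ Fin n) :=
      Formula.iInf fun k : Fin (ν.length + 1) => φ.relabel
        (Sum.elim (fun i => Sum.inr i) (fun t => Sum.inl (k, t)))
    obtain ⟨a, ha⟩ := ex_down j θ (fun q => b' (ν.take q.1) q.2) (by
      obtain ⟨a, ha⟩ := h3
      refine ⟨a, ?_⟩
      simp only [θ, Formula.realize_iInf, Formula.realize_relabel, elim_relabel]
      intro k
      have h4 := ha k
      rw [← hb''] at h4
      exact h4)
    simp only [θ, Formula.realize_iInf, Formula.realize_relabel, elim_relabel] at ha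
    refine ⟨a, fun η hη => ?_⟩
    have h5 : ν.take η.length = η := (List.prefix_iff_eq_take.1 hη).symm
    have h6 := ha ⟨η.length, by have := hη.length_le; omega⟩
    rw [h5] at h6
    exact h6
  · rintro η ν hην ⟨a, ha1, ha2⟩
    apply h2 η ν hην
    intro F hF
    refine ⟨j ∘ (a : Fin n → Mo), fun c hc => ?_⟩
    have h3 : c ∈ ({b ν, b (η ++ [true])} : Set (Fin m → M)) := hF (by exact_mod_cast hc)
    rcases h3 with rfl | h3
    · rw [← hb'', ← elim_comp, j.map_formula]
      exact ha1
    · rw [Set.mem_singleton_iff] at h3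
      rw [h3, ← hb'', ← elim_comp, j.map_formula]
      exact ha2

theorem no_SOP : ¬ HasSOP TT := by
  rintro ⟨M, n, m, φ, b, h1⟩
  obtain ⟨j, hj⟩ := exists_emb M (Set.range fun p : ℕ × Fin m => b p.1 p.2)
    (Set.countable_range _)
  have hb : ∀ i t, ∃ x : Mo, j x = b i t := fun i t => hj ⟨(i, t), rfl⟩
  choose b' hb' using hb
  have hb'' : ∀ i, j ∘ b' i = b i := fun i => funext (hb' i)
  let S : (Fin m → ℕ) → Set (Fin n → ℕ) := fun c =>
    {a | Formula.Realize (M := Mo) φ (Sum.elim a c)}
  have haut : ∀ σ : ℕ ≃ ℕ, IsAut σ → ∀ a c, (σ ∘ a ∈ S (σ ∘ c) ↔ a ∈ S c) := by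
    intro σ hσ a c
    have h3 := realize_aut σ hσ φ (Sum.elim a c)
    have h4 : (fun i => σ ((Sum.elim a c : Fin n ⊕ Fin m → ℕ) i)) =
        Sum.elim (σ ∘ a) (σ ∘ c) := elim_comp σ a c
    rw [h4] at h3
    exact h3
  refine no_order (fun c c' => S c ⊂ S c') ?_ (fun c => ssubset_irrefl _)
    (fun c c' c'' h h' => h.trans h') b' ?_
  · intro σ hσ c c' h
    have hback : ∀ a : Fin n → ℕ, σ ∘ (σ.symm ∘ a) = a := fun a => by
      funext t; simp
    rw [Set.ssubset_iff_exists] at h ⊢
    obtain ⟨h3, a, h4, h5⟩ := h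
    refine ⟨fun x hx => ?_, σ ∘ a, (haut σ hσ a c').2 h4, fun h6 => h5 ((haut σ hσ a c).1 h6)⟩
    rw [← hback x] at hx ⊢
    exact (haut σ hσ _ c').2 (h3 ((haut σ hσ _ c).1 hx))
  · intro i
    have h3 := h1 i
    rw [Set.ssubset_iff_exists] at h3 ⊢
    obtain ⟨h4, h5⟩ := h3
    constructor
    · intro a ha
      have h6 : (j ∘ (a : Fin n → Mo)) ∈ {a : Fin n → M | φ.Realize (Sum.elim a (b i))} := by
        rw [← hb'']
        change φ.Realize (Sum.elim (j ∘ a) (j ∘ b' i))
        rw [← elim_comp, j.map_formula]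
        exact ha
      have h7 := h4 h6
      rw [← hb''] at h7
      change φ.Realize (Sum.elim (j ∘ a) (j ∘ b' (i + 1))) at h7
      rw [← elim_comp, j.map_formula] at h7
      exact h7
    · let θ : LL.Formula ((Bool × Fin m) ⊕ Fin n) :=
        (φ.relabel (Sum.elim (fun i => Sum.inr i) (fun t => Sum.inl (true, t)))) ⊓
          (φ.relabel (Sum.elim (fun i => Sum.inr i) (fun t => Sum.inl (false, t)))).not
      obtain ⟨a, ha⟩ := ex_down j θ (fun q => b' (if q.1 then i + 1 else i) q.2) (by
        obtain ⟨a, ha1, ha2⟩ := h5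
        refine ⟨a, ?_⟩
        simp only [θ, Formula.realize_inf, Formula.realize_not, Formula.realize_relabel,
          elim_relabel]
        rw [← hb''] at ha1 ha2
        exact ⟨ha1, ha2⟩)
      simp only [θ, Formula.realize_inf, Formula.realize_not, Formula.realize_relabel,
        elim_relabel] at ha
      exact ⟨a, ha.1, ha.2⟩

/-- The symbol for the colouring relation. -/
def rClr : LL.Relations 2 := Rel.clr

/-- The symbol for being a colouring. -/
def rCol : LL.Relations 1 := Rel.kd Kind.col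

/-- The formula `R(x, y)`: the colouring `x` gives the colour `+` to the point `y`. -/
def fR : LL.Formula (Fin 1 ⊕ Fin 1) :=
  rClr.formula₂ (Term.var (Sum.inl 0)) (Term.var (Sum.inr 0))

/-- The formula saying that `x` is a colouring. -/
def fC (m : ℕ) : LL.Formula (Fin 1 ⊕ Fin m) :=
  rCol.formula₁ (Term.var (Sum.inl 0))

theorem realize_fR (a b : Fin 1 → Mo) : fR.Realize (Sum.elim a b) ↔ MM.R (a 0) (b 0) := by
  unfold fR
  rw [Formula.realize_rel₂]
  exact Iff.rfl

theorem realize_fC {m : ℕ} (a : Fin 1 → Mo) (b : Fin m → Mo) :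
    (fC m).Realize (Sum.elim a b) ↔ MM.kind (a 0) = Kind.col := by
  unfold fC
  rw [Formula.realize_rel₁]
  exact Iff.rfl

theorem divides_of {k : Kind} (hk : k.IsLine) {v : ℕ} (hv : MM.kind v = Kind.pt)
    (hvc : MM.Cl {v} Set.univ) (ψ : LL.Formula (Fin 1 ⊕ Fin 1)) (Q : ℕ → ℕ → Prop)
    (hψ : ∀ a b : Fin 1 → Mo, ψ.Realize (Sum.elim a b) → Q (a 0) (b 0))
    (hQ : ∀ x w l, MM.kind l = k → MM.I w l → Q x w → MM.Bad x w l) :
    Divides (M := Mo) ∅ ψ (fun _ => v) := by
  obtain ⟨f, hf, hf1, hfc⟩ := exists_long hk hv hvc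
  refine ⟨Mo, inferInstance, ElementaryEmbedding.refl LL Mo, fun i _ => f (i + 1), ?_, ?_, ?_⟩
  · funext t
    exact hf1
  · intro p r θ c hc i j hi hj
    obtain ⟨σ, h1, h2⟩ := indisc_line hk hf hfc i j hi.injective hj.injective
    rw [← realize_aut σ h1 θ]
    apply iff_of_eq
    congr 1
    funext q
    rcases q with q | q
    · have := hc q
      simp at this
    · exact h2 q.1
  · intro hcon
    obtain ⟨a, ha⟩ := hcon ((Finset.range 3).image fun i => (fun _ => f (i + 1) : Fin 1 → Mo)) (by
      intro x hx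
      rw [Finset.coe_image] at hx
      obtain ⟨i, _, rfl⟩ := hx
      exact ⟨i, rfl⟩)
    have h1 : ∀ i ∈ Finset.range 3, MM.Bad (a 0) (f (i + 1)) (f 0) := by
      intro i hi
      refine hQ _ _ _ (hf.kind 0 trivial) ((hf.I _ trivial _ trivial).2 ?_) (hψ _ _ (ha _
        (Finset.mem_image_of_mem _ hi)))
      rw [LS_I hk]
      exact ⟨by omega, rfl⟩
    have h2 := good_MM.2 (a 0) trivial (f 0) trivial ((Finset.range 3).image fun i => f (i + 1))
      (Set.subset_univ _) (by
        intro w hw
        obtain ⟨i, hi, rfl⟩ := Finset.mem_image.1 hw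
        exact h1 i hi)
    rw [Finset.card_image_of_injective _ (by
      intro i j hij
      have := hf.inj trivial trivial hij
      omega)] at h2
    simp at h2

theorem typeForks_col {x : ℕ} (hx : MM.kind x = Kind.col) :
    TypeForks LL (M := Mo) ∅ (fun _ : Fin 1 => x) := by
  obtain ⟨v, hv, hvc⟩ := exists_point
  refine ⟨0, fC 0, Fin.elim0, fun t => t.elim0, (realize_fC _ _).2 hx, Mo, inferInstance,
    ElementaryEmbedding.refl LL Mo, 2, fun _ => 1, ![fR, fC 1 ⊓ fR.not], fun _ _ => v, ?_, ?_⟩
  · intro a ha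
    have h1 := (realize_fC _ _).1 ha
    by_cases h2 : MM.R (a 0) v
    · exact ⟨0, (realize_fR _ _).2 h2⟩
    · refine ⟨1, ?_⟩
      change (fC 1 ⊓ fR.not).Realize (Sum.elim a fun _ => v)
      rw [Formula.realize_inf, Formula.realize_not, realize_fR, realize_fC]
      exact ⟨h1, h2⟩
  · intro j
    have hempty : (ElementaryEmbedding.refl LL Mo) '' (∅ : Set Mo) = ∅ := Set.image_empty _
    rw [hempty]
    fin_cases j
    · refine divides_of (Or.inl rfl : Kind.pos.IsLine) hv hvc fR (fun x w => MM.R x w)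
        (fun a b h => (realize_fR a b).1 h) ?_
      intro x w l hl hI hR
      exact ⟨hI, hR.1, ⟨fun _ => hl, fun _ => hR⟩⟩
    · refine divides_of (Or.inr rfl : Kind.neg.IsLine) hv hvc (fC 1 ⊓ fR.not)
        (fun x w => MM.kind x = Kind.col ∧ ¬ MM.R x w) (fun a b h => ?_) ?_
      · rw [Formula.realize_inf, Formula.realize_not, realize_fR, realize_fC] at h
        exact h
      · intro x w l hl hI hR
        refine ⟨hI, hR.1, ⟨fun h => absurd h hR.2, fun h => ?_⟩⟩
        rw [hl] at h
        cases h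

end Pool.Agent.H88.Gen
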