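import Pool.Agent.H88.Gen.Glue
import Pool.Agent.H88.Gen.Closure

/-!
# The generic structure
-/

set_option autoImplicit false

namespace Pool.Agent.H88.Gen

open scoped Classical

/-- Pull back a structure. -/
def Str.comap (f : ℕ → ℕ) (S : Str) : Str :=
  ⟨fun n => S.kind (f n), fun a b => S.inc (f a) (f b), fun a b => S.sgn (f a) (f b)⟩

theorem emb_comap_inv (T : Str) {B : Set ℕ} {h : ℕ → ℕ} (hh : Set.InjOn h B) :
    Emb T (T.comap (Function.invFunOn h B)) B h := by
  have hinv : ∀ a ∈ B, Function.invFunOn h B (h a) = a := fun a ha =>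
    hh.leftInvOn_invFunOn ha
  refine ⟨hh, fun a ha => ?_, fun a ha b hb => ?_, fun a ha b hb => ?_⟩
  · simp only [Str.comap, hinv a ha]
  · simp only [Str.comap, Str.I, hinv a ha, hinv b hb]
  · simp only [Str.comap, Str.R, hinv a ha, hinv b hb]

/-- Codes for finite structures. -/
abbrev Code := (Finset ℕ × Finset ℕ × Finset ℕ) × (Finset (ℕ × ℕ) × Finset (ℕ × ℕ))

/-- Decoding. -/
noncomputable def dec (c : Code) : Str :=
  ⟨fun n => if n ∈ c.1.1 then Kind.pos else if n ∈ c.1.2.1 then Kind.neg else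
    if n ∈ c.1.2.2 then Kind.col else Kind.pt, fun a b => (a, b) ∈ c.2.1,
    fun a b => (a, b) ∈ c.2.2⟩

theorem exists_code (T : Str) (B : Finset ℕ) : ∃ c : Code, Emb T (dec c) B id := by
  refine ⟨((B.filter fun a => T.kind a = Kind.pos, B.filter fun a => T.kind a = Kind.neg,
    B.filter fun a => T.kind a = Kind.col), ((B ×ˢ B).filter fun p => T.inc p.1 p.2,
      (B ×ˢ B).filter fun p => T.sgn p.1 p.2)), Set.injOn_id _, ?_, ?_, ?_⟩
  · intro a ha
    have ha' : a ∈ B := by exact_mod_cast ha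
    simp only [dec, id, Finset.mem_filter, ha', true_and]
    cases h : T.kind a <;> simp
  all_goals
    intro a ha b hb
    have ha' : a ∈ B := by exact_mod_cast ha
    have hb' : b ∈ B := by exact_mod_cast hb
    have hk : ∀ a ∈ B, (if a ∈ B.filter (fun a => T.kind a = Kind.pos) then Kind.pos else
        if a ∈ B.filter (fun a => T.kind a = Kind.neg) then Kind.neg else
        if a ∈ B.filter (fun a => T.kind a = Kind.col) then Kind.col else Kind.pt) = T.kind a := by
      intro a ha'
      simp only [Finset.mem_filter, ha', true_and]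
      cases h : T.kind a <;> simp
    simp only [dec, id, Str.I, Str.R, hk a ha', hk b hb']
    simp only [Finset.mem_filter, Finset.mem_product, ha', hb', true_and]

/-- Ordinary amalgamation, with prescribed embeddings. -/
theorem ap {S T : Str} {D A B : Finset ℕ} {f : ℕ → ℕ} (hS : S.Good D) (hT : T.Good B)
    (hAD : S.Cl A D) (hAB : T.Cl A B) (hag : Emb T S A id) (hf : Set.InjOn f B)
    (hfA : ∀ a ∈ A, f a = a) (hfB : ∀ b ∈ B, b ∉ A → f b ∉ D) :
    ∃ S' : Str, Emb S S' D id ∧ Emb T S' B f ∧ S'.Good (D ∪ B.image f : Finset ℕ) ∧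
      S'.Cl D (D ∪ B.image f : Finset ℕ) ∧ S'.Cl (B.image f) (D ∪ B.image f : Finset ℕ) := by
  have hADs : A ⊆ D := by exact_mod_cast hAD.1.1
  have hABs : A ⊆ B := by exact_mod_cast hAB.1.1
  set TT : Fin 3 → Str := fun i => if i = 0 then S else T with hTT
  set FF : Fin 3 → Finset ℕ := fun i => if i = 0 then D else B with hFF
  set jj : Fin 3 → ℕ → ℕ := fun i => if i = 0 then id else f with hjj
  set UU : Fin 3 → Fin 3 → Finset ℕ := fun i k => if i = 0 ∨ k = 0 then A else B with hUU
  have hcross : ∀ a ∈ D, ∀ b ∈ B, a = f b → a = b ∧ a ∈ A := by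
    intro a ha b hb hab
    by_cases hbA : b ∈ A
    · rw [hfA b hbA] at hab
      subst hab
      exact ⟨rfl, hbA⟩
    · exact absurd (hab ▸ ha) (hfB b hb hbA)
  have hinter : D ∩ B.image f = A := by
    ext a
    rw [Finset.mem_inter, Finset.mem_image]
    constructor
    · rintro ⟨ha, b, hb, hab⟩
      exact (hcross a ha b hb hab.symm).2
    · intro ha
      exact ⟨hADs ha, a, hABs ha, hfA a ha⟩
  have himA : A.image f = A := by
    ext a
    rw [Finset.mem_image]
    constructor
    · rintro ⟨b, hb, rfl⟩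
      rw [hfA b hb]; exact hb
    · intro ha
      exact ⟨a, ha, hfA a ha⟩
  have g1 : ∀ i, Set.InjOn (jj i) (FF i) := by
    intro i
    by_cases hi0 : i = 0
    · simp only [hjj, hFF, if_pos hi0]; exact Set.injOn_id _
    · simp only [hjj, hFF, if_neg hi0]; exact hf
  have g2 : Compat TT FF jj := by
    intro i k a ha a' ha' haa
    by_cases hi0 : i = 0 <;> by_cases hk0 : k = 0
    · simp only [hjj, hFF, hTT, if_pos hi0, if_pos hk0, id] at ha ha' haa ⊢
      subst haa
      refine ⟨rfl, ?_⟩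
      rintro b hb b' hb' rfl
      exact ⟨Iff.rfl, Iff.rfl⟩
    · simp only [hjj, hFF, hTT, if_pos hi0, if_neg hk0, id] at ha ha' haa ⊢
      obtain ⟨rfl, haA⟩ := hcross a ha a' ha' haa
      refine ⟨hag.kind a (by exact_mod_cast haA), ?_⟩
      intro b hb b' hb' hbb
      obtain ⟨rfl, hbA⟩ := hcross b hb b' hb' hbb
      exact ⟨hag.I a (by exact_mod_cast haA) b (by exact_mod_cast hbA),
        hag.R a (by exact_mod_cast haA) b (by exact_mod_cast hbA)⟩
    · simp only [hjj, hFF, hTT, if_neg hi0, if_pos hk0, id] at ha ha' haa ⊢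
      obtain ⟨rfl, haA⟩ := hcross a' ha' a ha haa.symm
      refine ⟨(hag.kind a' (by exact_mod_cast haA)).symm, ?_⟩
      intro b hb b' hb' hbb
      obtain ⟨rfl, hbA⟩ := hcross b' hb' b hb hbb.symm
      exact ⟨(hag.I a' (by exact_mod_cast haA) b' (by exact_mod_cast hbA)).symm,
        (hag.R a' (by exact_mod_cast haA) b' (by exact_mod_cast hbA)).symm⟩
    · simp only [hjj, hFF, hTT, if_neg hi0, if_neg hk0] at ha ha' haa ⊢
      have h1 := hf (by exact_mod_cast ha) (by exact_mod_cast ha') haa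
      subst h1
      refine ⟨rfl, ?_⟩
      intro b hb b' hb' hbb
      have h1 := hf (by exact_mod_cast hb) (by exact_mod_cast hb') hbb
      subst h1
      exact ⟨Iff.rfl, Iff.rfl⟩
  have g3 : ∀ i k, i ≠ k → (FF i).image (jj i) ∩ (FF k).image (jj k) = (UU i k).image (jj i) := by
    intro i k hik
    by_cases hi0 : i = 0 <;> by_cases hk0 : k = 0
    · exact absurd (hi0.trans hk0.symm) hik
    · simp only [hjj, hFF, hUU, if_pos hi0, if_neg hk0, if_pos (Or.inl hi0 : i = 0 ∨ k = 0),
        Finset.image_id]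
      exact hinter
    · simp only [hjj, hFF, hUU, if_neg hi0, if_pos hk0, if_pos (Or.inr hk0 : i = 0 ∨ k = 0),
        Finset.image_id]
      rw [Finset.inter_comm, hinter, himA]
    · simp only [hjj, hFF, hUU, if_neg hi0, if_neg hk0,
        if_neg (show ¬ (i = 0 ∨ k = 0) by tauto), Finset.inter_self]
  have g4 : ∀ i, (TT i).Good (FF i) := by
    intro i
    by_cases hi0 : i = 0
    · simp only [hTT, hFF, if_pos hi0]; exact hS
    · simp only [hTT, hFF, if_neg hi0]; exact hT
  have g5 : ∀ i k, i ≠ k → (TT i).Cl (UU i k) (FF i) := by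
    intro i k hik
    by_cases hi0 : i = 0 <;> by_cases hk0 : k = 0
    · exact absurd (hi0.trans hk0.symm) hik
    · simp only [hTT, hFF, hUU, if_pos hi0, if_pos (Or.inl hi0 : i = 0 ∨ k = 0)]
      exact hAD
    · simp only [hTT, hFF, hUU, if_neg hi0, if_pos (Or.inr hk0 : i = 0 ∨ k = 0)]
      exact hAB
    · simp only [hTT, hFF, hUU, if_neg hi0, if_neg (show ¬ (i = 0 ∨ k = 0) by tauto)]
      exact Str.Cl.self _
  have g6 : ∀ i k l, i ≠ k → k ≠ l → i ≠ l → (TT i).WCl (UU i k ∪ UU i l) (FF i) := by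
    intro i k l h1 h2 h3
    by_cases hi0 : i = 0
    · simp only [hTT, hFF, hUU, if_pos hi0, if_pos (Or.inl hi0 : i = 0 ∨ k = 0),
        if_pos (Or.inl hi0 : i = 0 ∨ l = 0), Finset.union_self]
      exact hAD.1.wcl
    · have : UU i k ∪ UU i l = B := by
        by_cases hk0 : k = 0
        · have hl0 : l ≠ 0 := by rintro rfl; exact h2 hk0
          simp only [hUU, if_pos (Or.inr hk0 : i = 0 ∨ k = 0),
            if_neg (show ¬ (i = 0 ∨ l = 0) by tauto)]
          exact Finset.union_eq_right.2 hABs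
        · by_cases hl0 : l = 0
          · simp only [hUU, if_pos (Or.inr hl0 : i = 0 ∨ l = 0),
              if_neg (show ¬ (i = 0 ∨ k = 0) by tauto)]
            exact Finset.union_eq_left.2 hABs
          · exfalso
            revert i k l; decide
      rw [this]
      simp only [hTT, hFF, if_neg hi0]
      exact Str.WCl.self _
  have g7 : ∀ i k l, i ≠ k → k ≠ l → i ≠ l → (TT i).Free (UU i k) (UU i l) := by
    intro i k l h1 h2 h3 a ha b hb hI
    by_cases hi0 : i = 0
    · simp only [hUU, if_pos (Or.inl hi0 : i = 0 ∨ k = 0),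
        if_pos (Or.inl hi0 : i = 0 ∨ l = 0), Finset.union_self] at ha hb ⊢
      exact Or.inl ⟨ha, hb⟩
    · by_cases hk0 : k = 0
      · have hl0 : l ≠ 0 := by rintro rfl; exact h2 hk0
        simp only [hUU, if_pos (Or.inr hk0 : i = 0 ∨ k = 0),
            if_neg (show ¬ (i = 0 ∨ l = 0) by tauto), Finset.union_eq_right.2 hABs] at ha hb ⊢
        exact Or.inr ⟨ha, hb⟩
      · by_cases hl0 : l = 0
        · simp only [hUU, if_pos (Or.inr hl0 : i = 0 ∨ l = 0),
              if_neg (show ¬ (i = 0 ∨ k = 0) by tauto), Finset.union_eq_left.2 hABs] at ha hb ⊢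
          exact Or.inl ⟨ha, hb⟩
        · exfalso
          clear ha hb hI
          revert i k l; decide
  obtain ⟨S', h1, h2, h3⟩ := glueAmalgam TT FF jj UU g1 g2 g3 g4 g5 g6 g7
  have htot : Str.tot (fun i => (FF i).image (jj i)) = D ∪ B.image f := by
    ext a
    rw [Str.mem_tot, Finset.mem_union]
    constructor
    · rintro ⟨i, hi⟩
      by_cases hi0 : i = 0
      · left; simpa [hFF, hjj, hi0] using hi
      · right; simpa [hFF, hjj, hi0] using hi
    · rintro (h | h)
      · exact ⟨0, by simpa [hFF, hjj] using h⟩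
      · exact ⟨1, by simpa [hFF, hjj] using h⟩
  rw [htot] at h2 h3
  have e0 := h1 0
  have e1 := h1 1
  have c0 := h3 0
  have c1 := h3 1
  simp only [hTT, hFF, hjj, if_true, if_neg (show (1 : Fin 3) ≠ 0 by decide),
    Finset.image_id] at e0 e1 c0 c1
  exact ⟨S', e0, e1, h2, c0, c1⟩

/-- The forcing conditions: finite good structures. -/
structure Cond where
  D : Finset ℕ
  T : Str
  good : T.Good D

instance : Preorder Cond where
  le p q := p.D ⊆ q.D ∧ Emb p.T q.T p.D id ∧ q.T.Cl p.D q.D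
  le_refl p := ⟨subset_rfl, Emb.refl _ _, Str.Cl.self _⟩
  le_trans p q r h1 h2 := by
    refine ⟨h1.1.trans h2.1, h1.2.1.trans_id (h2.2.1.mono (by exact_mod_cast h1.1)), ?_⟩
    exact (h2.2.1.cl_of_agree h1.2.2).trans h2.2.2

theorem Cond.le_def {p q : Cond} :
    p ≤ q ↔ p.D ⊆ q.D ∧ Emb p.T q.T p.D id ∧ q.T.Cl p.D q.D := Iff.rfl

theorem good_single (n : ℕ) : (⟨fun _ => Kind.pt, fun _ _ => False, fun _ _ => False⟩ : Str).Good
    (({n} : Finset ℕ) : Set ℕ) := by
  have hI : ∀ a b, ¬ (⟨fun _ => Kind.pt, fun _ _ => False, fun _ _ => False⟩ : Str).I a b := by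
    rintro a b ⟨_, _, h⟩
    exact h
  constructor
  · intro X _
    have h1 : (⟨fun _ => Kind.pt, fun _ _ => False, fun _ _ => False⟩ : Str).lns X = ∅ := by
      rw [Finset.eq_empty_iff_forall_notMem]
      intro a ha
      rw [Str.mem_lns] at ha
      exact Str.not_isLine_pt ha.2
    have h2 : (⟨fun _ => Kind.pt, fun _ _ => False, fun _ _ => False⟩ : Str).incs X = ∅ := by
      rw [Finset.eq_empty_iff_forall_notMem]
      intro a ha
      rw [Str.mem_incs] at ha
      exact hI _ _ ha.2.2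
    unfold Str.dl
    rw [h1, h2]
    simp
  · intro x _ l _ T _ hb
    have : T = ∅ := by
      rw [Finset.eq_empty_iff_forall_notMem]
      intro v hv
      exact hI _ _ (hb v hv).1
    simp [this]

theorem cl_empty {S : Str} {C : Set ℕ} (hS : S.Good C) : S.Cl ∅ C := by
  refine ⟨⟨by simp, fun X _ hX => ?_⟩, by simp⟩
  have h1 := hS.1 X hX
  rw [Str.dl_empty]
  refine ⟨h1.1, fun hn => ?_⟩
  by_contra h
  have h2 : S.dl X = 0 := by omega
  have h3 := h1.2
  rw [h2] at h3
  have h4 : S.lns X = ∅ := by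
    rw [← Finset.card_eq_zero]
    simpa using h3
  rw [h4] at hn
  exact hn subset_rfl

end Pool.Agent.H88.Gen
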