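import Pool.Agent.H88.Gen.Amalgam

/-!
# Gluing three embedded pieces
-/

set_option autoImplicit false

namespace Pool.Agent.H88.Gen

open scoped Classical

/-- The structures of the pieces agree where the pieces overlap. -/
def Compat (T : Fin 3 → Str) (F : Fin 3 → Finset ℕ) (j : Fin 3 → ℕ → ℕ) : Prop :=
  ∀ i k, ∀ a ∈ F i, ∀ a' ∈ F k, j i a = j k a' → (T i).kind a = (T k).kind a' ∧
    ∀ b ∈ F i, ∀ b' ∈ F k, j i b = j k b' →
      ((T i).I a b ↔ (T k).I a' b') ∧ ((T i).R a b ↔ (T k).R a' b')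

theorem glue (T : Fin 3 → Str) (F : Fin 3 → Finset ℕ) (j : Fin 3 → ℕ → ℕ)
    (hj : ∀ i, Set.InjOn (j i) (F i)) (hc : Compat T F j) :
    ∃ S : Str, (∀ i, Emb (T i) S (F i) (j i)) ∧
      ∀ a b, S.I a b → ∃ i, a ∈ (F i).image (j i) ∧ b ∈ (F i).image (j i) := by
  let S : Str := ⟨fun n => if h : ∃ i, ∃ a, a ∈ F i ∧ j i a = n then
      (T h.choose).kind h.choose_spec.choose else Kind.pt,
    fun m n => ∃ i, ∃ a ∈ F i, ∃ b ∈ F i, j i a = m ∧ j i b = n ∧ (T i).I a b,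
    fun m n => ∃ i, ∃ a ∈ F i, ∃ b ∈ F i, j i a = m ∧ j i b = n ∧ (T i).R a b⟩
  have hk : ∀ i, ∀ a ∈ F i, S.kind (j i a) = (T i).kind a := by
    intro i a ha
    have h : ∃ i', ∃ a', a' ∈ F i' ∧ j i' a' = j i a := ⟨i, a, ha, rfl⟩
    simp only [S, dif_pos h]
    exact (hc h.choose i _ h.choose_spec.choose_spec.1 a ha h.choose_spec.choose_spec.2).1
  have hI : ∀ i, ∀ a ∈ F i, ∀ b ∈ F i, (S.I (j i a) (j i b) ↔ (T i).I a b) := by
    intro i a ha b hb
    unfold Str.I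
    rw [hk i a ha, hk i b hb]
    constructor
    · rintro ⟨h1, h2, i', a', ha', b', hb', h3, h4, h5⟩
      exact (((hc i' i a' ha' a ha h3).2 b' hb' b hb h4).1).1 h5
    · rintro ⟨h1, h2, h3⟩
      exact ⟨h1, h2, i, a, ha, b, hb, rfl, rfl, h1, h2, h3⟩
  have hR : ∀ i, ∀ a ∈ F i, ∀ b ∈ F i, (S.R (j i a) (j i b) ↔ (T i).R a b) := by
    intro i a ha b hb
    unfold Str.R
    rw [hk i a ha, hk i b hb]
    constructor
    · rintro ⟨h1, h2, i', a', ha', b', hb', h3, h4, h5⟩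
      exact (((hc i' i a' ha' a ha h3).2 b' hb' b hb h4).2).1 h5
    · rintro ⟨h1, h2, h3⟩
      exact ⟨h1, h2, i, a, ha, b, hb, rfl, rfl, h1, h2, h3⟩
  refine ⟨S, fun i => ⟨hj i, fun a ha => hk i a (by exact_mod_cast ha),
    fun a ha b hb => hI i a (by exact_mod_cast ha) b (by exact_mod_cast hb),
    fun a ha b hb => hR i a (by exact_mod_cast ha) b (by exact_mod_cast hb)⟩, ?_⟩
  rintro a b ⟨_, _, i, a', ha', b', hb', rfl, rfl, _⟩
  exact ⟨i, Finset.mem_image_of_mem _ ha', Finset.mem_image_of_mem _ hb'⟩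

/-- Three-amalgamation of embedded pieces. -/
theorem glueAmalgam (T : Fin 3 → Str) (F : Fin 3 → Finset ℕ) (j : Fin 3 → ℕ → ℕ)
    (U : Fin 3 → Fin 3 → Finset ℕ)
    (hj : ∀ i, Set.InjOn (j i) (F i)) (hc : Compat T F j)
    (hU : ∀ i k, i ≠ k → (F i).image (j i) ∩ (F k).image (j k) = (U i k).image (j i))
    (good : ∀ i, (T i).Good (F i))
    (cl : ∀ i k, i ≠ k → (T i).Cl (U i k) (F i))
    (wcl : ∀ i k l, i ≠ k → k ≠ l → i ≠ l → (T i).WCl (U i k ∪ U i l) (F i))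
    (free : ∀ i k l, i ≠ k → k ≠ l → i ≠ l → (T i).Free (U i k) (U i l)) :
    ∃ S : Str, (∀ i, Emb (T i) S (F i) (j i)) ∧
      S.Good (Str.tot fun i => (F i).image (j i)) ∧
      ∀ i, S.Cl ((F i).image (j i)) (Str.tot fun i => (F i).image (j i)) := by
  obtain ⟨S, hS, hinc⟩ := glue T F j hj hc
  have htri : Str.Tri S (fun i => (F i).image (j i)) := by
    refine ⟨fun a b h _ _ => hinc a b h, fun i => ?_, fun i k => ?_, fun i k l h1 h2 h3 => ?_,
      fun i k l h1 h2 h3 => ?_⟩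
    · rw [Finset.coe_image]
      exact (hS i).good (good i)
    · by_cases hik : i = k
      · subst hik
        rw [Finset.inter_self]
        exact Str.Cl.self _
      · rw [hU i k hik, Finset.coe_image]
        exact (hS i).cl (cl i k hik)
    · rw [hU i k h1, hU i l h3, ← Finset.image_union, Finset.coe_image]
      exact (hS i).wcl (wcl i k l h1 h2 h3)
    · rw [hU i k h1, hU i l h3]
      exact (hS i).free (cl i k h1).1.1 (cl i l h3).1.1 (free i k l h1 h2 h3)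
  obtain ⟨S', h1, h2, h3⟩ := htri.amalgam
  refine ⟨S', fun i => ?_, h2, h3⟩
  have h4 := h1 i
  rw [Finset.coe_image] at h4
  exact (hS i).comp h4

end Pool.Agent.H88.Gen
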