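import Pool.Agent.H88.Gen.Lim
import Pool.Agent.H88.Gen.BackForth

/-!
# Homogeneity of the generic structure
-/

set_option autoImplicit false

namespace Pool.Agent.H88.Gen

open scoped Classical

/-- Automorphisms of the generic structure. -/
def IsAut (σ : ℕ ≃ ℕ) : Prop := Emb MM MM Set.univ σ

/-- Partial isomorphism between closed sets. -/
structure PIso (A : Finset ℕ) (f : ℕ → ℕ) : Prop where
  cl : MM.Cl A Set.univ
  emb : Emb MM MM A f
  cl' : MM.Cl (A.image f) Set.univ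

/-- The graph. -/
def graph (A : Finset ℕ) (f : ℕ → ℕ) : Finset (ℕ × ℕ) := A.image fun a => (a, f a)

theorem mem_graph {A : Finset ℕ} {f : ℕ → ℕ} {x : ℕ × ℕ} :
    x ∈ graph A f ↔ x.1 ∈ A ∧ f x.1 = x.2 := by
  obtain ⟨a, b⟩ := x
  simp only [graph, Finset.mem_image, Prod.mk.injEq]
  constructor
  · rintro ⟨c, hc, rfl, rfl⟩; exact ⟨hc, rfl⟩
  · rintro ⟨ha, hb⟩; exact ⟨a, ha, rfl, hb⟩

theorem PIso.symm {A : Finset ℕ} {f : ℕ → ℕ} (h : PIso A f) :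
    PIso (A.image f) (Function.invFunOn f A) := by
  have him : (A.image f).image (Function.invFunOn f A) = A := by
    ext a
    simp only [Finset.mem_image]
    constructor
    · rintro ⟨_, ⟨b, hb, rfl⟩, rfl⟩
      rw [h.emb.inj.leftInvOn_invFunOn (by exact_mod_cast hb)]
      exact hb
    · intro ha
      exact ⟨f a, ⟨a, ha, rfl⟩, h.emb.inj.leftInvOn_invFunOn (by exact_mod_cast ha)⟩
  refine ⟨h.cl', ?_, by rw [him]; exact h.cl⟩
  rw [Finset.coe_image]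
  exact h.emb.symm

theorem graph_symm {A : Finset ℕ} {f : ℕ → ℕ} (h : PIso A f) (x : ℕ × ℕ) :
    x ∈ graph (A.image f) (Function.invFunOn f A) ↔ x.swap ∈ graph A f := by
  obtain ⟨a, b⟩ := x
  simp only [mem_graph, Prod.swap, Finset.mem_image]
  constructor
  · rintro ⟨⟨c, hc, rfl⟩, hb⟩
    rw [h.emb.inj.leftInvOn_invFunOn (by exact_mod_cast hc)] at hb
    subst hb
    exact ⟨hc, rfl⟩
  · rintro ⟨hb, rfl⟩
    exact ⟨⟨b, hb, rfl⟩, h.emb.inj.leftInvOn_invFunOn (by exact_mod_cast hb)⟩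

theorem PIso.forth {A : Finset ℕ} {f : ℕ → ℕ} (h : PIso A f) (n : ℕ) :
    ∃ B g, PIso B g ∧ A ⊆ B ∧ n ∈ B ∧ ∀ a ∈ A, g a = f a := by
  set B := MM.clo (insert n A) with hB
  have h1 : insert n A ⊆ B := Str.subset_clo good_MM _
  have hAB : A ⊆ B := (Finset.subset_insert _ _).trans h1
  have hBc : MM.Cl B Set.univ := Str.clo_cl good_MM _
  obtain ⟨g, h2, h3, h4⟩ := extG (T := MM) (A := A) (B := B) (good_MM.mono (Set.subset_univ _))
    (h.cl.mono (by exact_mod_cast hAB) (Set.subset_univ _)) h.emb h.cl'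
  exact ⟨B, g, ⟨hBc, h2, h4⟩, hAB, h1 (Finset.mem_insert_self _ _), h3⟩

/-- Homogeneity. -/
theorem PIso.exists_aut {A : Finset ℕ} {f : ℕ → ℕ} (h : PIso A f) :
    ∃ σ : ℕ ≃ ℕ, IsAut σ ∧ ∀ a ∈ A, σ a = f a := by
  set P : Set (Finset (ℕ × ℕ)) := {p | ∃ A f, PIso A f ∧ p = graph A f} with hP
  have forth : ∀ p ∈ P, ∀ a, ∃ q ∈ P, p ⊆ q ∧ ∃ b, (a, b) ∈ q := by
    rintro _ ⟨A, f, h, rfl⟩ n
    obtain ⟨B, g, h1, h2, h3, h4⟩ := h.forth n
    refine ⟨_, ⟨B, g, h1, rfl⟩, ?_, g n, mem_graph.2 ⟨h3, rfl⟩⟩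
    intro x hx
    rw [mem_graph] at hx ⊢
    exact ⟨h2 hx.1, (h4 _ hx.1).trans hx.2⟩
  have hsymm : ∀ p ∈ P, ∃ q ∈ P, ∀ x, x ∈ q ↔ x.swap ∈ p := by
    rintro _ ⟨A, f, h, rfl⟩
    exact ⟨_, ⟨_, _, h.symm, rfl⟩, graph_symm h⟩
  have hfun : ∀ p ∈ P, ∀ x ∈ p, ∀ y ∈ p, (x.1 = y.1 ↔ x.2 = y.2) := by
    rintro _ ⟨A, f, h, rfl⟩ x hx y hy
    rw [mem_graph] at hx hy
    rw [← hx.2, ← hy.2]
    exact ⟨fun h => by rw [h],
      fun h' => h.emb.inj (by exact_mod_cast hx.1) (by exact_mod_cast hy.1) h'⟩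
  have back : ∀ p ∈ P, ∀ b, ∃ q ∈ P, p ⊆ q ∧ ∃ a, (a, b) ∈ q := by
    intro p hp b
    obtain ⟨q, hq, h1⟩ := hsymm p hp
    obtain ⟨r, hr, h2, a, h3⟩ := forth q hq b
    obtain ⟨s, hs, h4⟩ := hsymm r hr
    refine ⟨s, hs, fun x hx => ?_, a, ?_⟩
    · rw [h4]
      apply h2
      rw [h1]
      simpa using hx
    · rw [h4]
      simpa using h3
  obtain ⟨σ, h1, h2⟩ := backForth P hfun forth back (graph A f) ⟨A, f, h, rfl⟩
  refine ⟨σ, ?_, fun a ha => h1 (a, f a) (mem_graph.2 ⟨ha, rfl⟩)⟩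
  refine ⟨σ.injective.injOn, fun a _ => ?_, fun a _ b _ => ?_, fun a _ b _ => ?_⟩
  · obtain ⟨_, ⟨A, f, h, rfl⟩, h3⟩ := h2 {a}
    have h4 : a ∈ A ∧ f a = σ a := mem_graph.1 (h3 a (by simp))
    rw [← h4.2]
    exact h.emb.kind a (by exact_mod_cast h4.1)
  · obtain ⟨_, ⟨A, f, h, rfl⟩, h3⟩ := h2 {a, b}
    have h4 : a ∈ A ∧ f a = σ a := mem_graph.1 (h3 a (by simp))
    have h5 : b ∈ A ∧ f b = σ b := mem_graph.1 (h3 b (by simp))
    rw [← h4.2, ← h5.2]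
    exact h.emb.I a (by exact_mod_cast h4.1) b (by exact_mod_cast h5.1)
  · obtain ⟨_, ⟨A, f, h, rfl⟩, h3⟩ := h2 {a, b}
    have h4 : a ∈ A ∧ f a = σ a := mem_graph.1 (h3 a (by simp))
    have h5 : b ∈ A ∧ f b = σ b := mem_graph.1 (h3 b (by simp))
    rw [← h4.2, ← h5.2]
    exact h.emb.R a (by exact_mod_cast h4.1) b (by exact_mod_cast h5.1)

namespace IsAut

theorem refl : IsAut (Equiv.refl ℕ) := Emb.refl MM Set.univ

theorem symm {σ : ℕ ≃ ℕ} (h : IsAut σ) : IsAut σ.symm := by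
  refine ⟨σ.symm.injective.injOn, fun a _ => ?_, fun a _ b _ => ?_, fun a _ b _ => ?_⟩
  · have := Emb.kind h (σ.symm a) trivial
    rw [Equiv.apply_symm_apply] at this
    exact this.symm
  · have := Emb.I h (σ.symm a) trivial (σ.symm b) trivial
    rw [Equiv.apply_symm_apply, Equiv.apply_symm_apply] at this
    exact this.symm
  · have := Emb.R h (σ.symm a) trivial (σ.symm b) trivial
    rw [Equiv.apply_symm_apply, Equiv.apply_symm_apply] at this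
    exact this.symm

theorem trans {σ τ : ℕ ≃ ℕ} (h : IsAut σ) (h' : IsAut τ) : IsAut (σ.trans τ) := by
  have h1 : Emb MM MM Set.univ τ := h'
  exact Emb.comp (f := σ) (g := τ) h (h1.mono (Set.subset_univ _))

theorem cl {σ : ℕ ≃ ℕ} (h : IsAut σ) {A : Finset ℕ} (hA : MM.Cl A Set.univ) :
    MM.Cl (A.image σ) Set.univ := by
  have := Emb.cl h hA
  rwa [Set.image_univ, Set.range_eq_univ.2 σ.surjective] at this

theorem piso {σ : ℕ ≃ ℕ} (h : IsAut σ) {A : Finset ℕ} (hA : MM.Cl A Set.univ) :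
    PIso A σ := ⟨hA, Emb.mono h (Set.subset_univ _), h.cl hA⟩

theorem clo {σ : ℕ ≃ ℕ} (h : IsAut σ) (X : Finset ℕ) :
    MM.clo (X.image σ) = (MM.clo X).image σ := by
  apply Finset.Subset.antisymm
  · exact Str.clo_min good_MM (Finset.image_subset_image (Str.subset_clo good_MM X))
      (h.cl (Str.clo_cl good_MM X))
  · have h1 := Str.clo_min good_MM (X := X) (W := (MM.clo (X.image σ)).image σ.symm) (by
      intro a ha
      rw [Finset.mem_image]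
      exact ⟨σ a, Str.subset_clo good_MM _ (Finset.mem_image_of_mem _ ha), by simp⟩)
      (h.symm.cl (Str.clo_cl good_MM _))
    intro b hb
    obtain ⟨a, ha, rfl⟩ := Finset.mem_image.1 hb
    obtain ⟨c, hc, hca⟩ := Finset.mem_image.1 (h1 ha)
    rw [← hca]
    simpa using hc

end IsAut

end Pool.Agent.H88.Gen
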