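import Pool.Agent.H88.Gen.Orbits

/-!
# Dimension and the independence theorem
-/

set_option autoImplicit false

namespace Pool.Agent.H88.Gen

open scoped Classical

/-- The dimension of a finite set. -/
noncomputable def d (X : Finset ℕ) : ℤ := MM.dl (MM.clo X)

theorem d_mono {X Y : Finset ℕ} (h : X ⊆ Y) : d X ≤ d Y :=
  Str.dl_clo_le good_MM (h.trans (Str.subset_clo good_MM Y))

theorem d_le_dl {X Y : Finset ℕ} (h : X ⊆ Y) : d X ≤ MM.dl Y := Str.dl_clo_le good_MM h

theorem d_submod {X Y Z : Finset ℕ} (hX : Z ⊆ MM.clo X) (hY : Z ⊆ MM.clo Y) :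
    d (X ∪ Y) + d Z ≤ d X + d Y := by
  have h1 := Str.dl_submod (S := MM) (MM.clo X) (MM.clo Y)
  have h2 : d (X ∪ Y) ≤ MM.dl (MM.clo X ∪ MM.clo Y) := d_le_dl
    (Finset.union_subset_union (Str.subset_clo good_MM X) (Str.subset_clo good_MM Y))
  have h3 : d Z ≤ MM.dl (MM.clo X ∩ MM.clo Y) := d_le_dl (Finset.subset_inter hX hY)
  unfold d at *
  linarith

theorem d_closed {A : Finset ℕ} (h : MM.Cl A Set.univ) : d A = MM.dl A := by
  unfold d
  rw [Str.clo_eq good_MM h]

theorem d_aut {σ : ℕ ≃ ℕ} (h : IsAut σ) (X : Finset ℕ) : d (X.image σ) = d X := by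
  unfold d
  rw [h.clo]
  exact Emb.dl h (Set.subset_univ _)

theorem d_nonneg (X : Finset ℕ) : 0 ≤ d X := (good_MM.1 _ (Set.subset_univ _)).1

theorem d_le (X : Finset ℕ) : d X ≤ 2 * X.card :=
  (d_le_dl subset_rfl).trans (Str.dl_le X)

theorem d_clo (X : Finset ℕ) : d (MM.clo X) = d X := d_closed (Str.clo_cl good_MM X)

theorem clo_union_clo (X Y : Finset ℕ) : MM.clo (X ∪ MM.clo Y) = MM.clo (X ∪ Y) := by
  apply Finset.Subset.antisymm
  · apply Str.clo_min good_MM _ (Str.clo_cl good_MM _)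
    apply Finset.union_subset
    · exact Finset.subset_union_left.trans (Str.subset_clo good_MM _)
    · exact Str.clo_mono good_MM Finset.subset_union_right
  · exact Str.clo_mono good_MM (Finset.union_subset_union subset_rfl (Str.subset_clo good_MM Y))

theorem d_union_clo (X Y : Finset ℕ) : d (X ∪ MM.clo Y) = d (X ∪ Y) := by
  unfold d
  rw [clo_union_clo]

/-- `X` and `Y` are independent over `A`. -/
def Ind (A X Y : Finset ℕ) : Prop := d X + d Y ≤ d (X ∪ Y) + d A

theorem Ind.symm {A X Y : Finset ℕ} (h : Ind A X Y) : Ind A Y X := by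
  unfold Ind at *
  rw [Finset.union_comm]
  linarith

theorem Ind.mono {A X Y Z : Finset ℕ} (h : Ind A X Y) (hZ : Z ⊆ X) :
    Ind A Z Y := by
  unfold Ind at *
  have h1 := d_submod (X := X) (Y := Z ∪ Y) (Z := Z) (hZ.trans (Str.subset_clo good_MM X))
    (Finset.subset_union_left.trans (Str.subset_clo good_MM _))
  have h2 : d (X ∪ Y) ≤ d (X ∪ (Z ∪ Y)) := d_mono (by
    apply Finset.union_subset_union subset_rfl Finset.subset_union_right)
  linarith

theorem Ind.free_wcl {A X Y : Finset ℕ} (h : Ind A X Y) (hX : MM.Cl X Set.univ)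
    (hY : MM.Cl Y Set.univ) (hXY : X ∩ Y = A) :
    MM.Free X Y ∧ MM.WCl (X ∪ Y) Set.univ := by
  have hA : MM.Cl A Set.univ := hXY ▸ hX.inter hY
  unfold Ind at h
  rw [d_closed hX, d_closed hY, d_closed hA] at h
  have h1 := Str.dl_submod (S := MM) X Y
  have h2 : d (X ∪ Y) ≤ MM.dl (X ∪ Y) := d_le_dl subset_rfl
  rw [hXY] at h1
  have h3 : MM.dl (X ∪ Y) + MM.dl A = MM.dl X + MM.dl Y := by linarith
  have h4 : d (X ∪ Y) = MM.dl (X ∪ Y) := by linarith
  refine ⟨?_, Set.subset_univ _, fun Z hZ _ => ?_⟩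
  · have h5 := Finset.card_union_add_card_inter (MM.pts X) (MM.pts Y)
    have h6 := Finset.card_union_add_card_inter (MM.lns X) (MM.lns Y)
    have h7 := Finset.card_union_add_card_inter (MM.incs X) (MM.incs Y)
    have h8 : (MM.incs (X ∪ Y)).card = (MM.incs X ∪ MM.incs Y).card := by
      rw [← hXY] at h3
      simp only [Str.dl, Str.pts_union, Str.lns_union, Str.pts_inter, Str.lns_inter,
        Str.incs_inter] at h3
      omega
    have h9 := Finset.eq_of_subset_of_card_le (Str.incs_union (S := MM) X Y) h8.le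
    intro a ha b hb hI
    have h10 : (a, b) ∈ MM.incs (X ∪ Y) := Str.mem_incs.2 ⟨ha, hb, hI⟩
    rw [← h9, Finset.mem_union, Str.mem_incs, Str.mem_incs] at h10
    simp only at h10
    tauto
  · rw [← h4]
    exact d_le_dl hZ

/-- The independence theorem. -/
theorem threeAm {U Va Vb A : Finset ℕ} {σa σb : ℕ ≃ ℕ} (hσa : IsAut σa) (hσb : IsAut σb)
    (fixa : ∀ x ∈ A, σa x = x) (fixb : ∀ x ∈ A, σb x = x)
    (hU : MM.Cl U Set.univ) (hVa : MM.Cl Va Set.univ) (hVb : MM.Cl Vb Set.univ)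
    (hUa : U ∩ Va = A) (hUb : U ∩ Vb = A) (hab : Va.image σa ∩ Vb.image σb = A)
    (iUa : Ind A U Va) (iUb : Ind A U Vb) (iab : Ind A (Va.image σa) (Vb.image σb)) :
    ∃ τa τb : ℕ ≃ ℕ, IsAut τa ∧ IsAut τb ∧ (∀ u ∈ U, τa u = τb u) ∧
      (∀ v ∈ Va, τa v = σa v) ∧ ∀ v ∈ Vb, τb v = σb v := by
  have hAU : A ⊆ U := hUa ▸ Finset.inter_subset_left
  have hAVa : A ⊆ Va := hUa ▸ Finset.inter_subset_right
  have hAVb : A ⊆ Vb := hUb ▸ Finset.inter_subset_right
  have hVa' := hσa.cl hVa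
  have hVb' := hσb.cl hVb
  set F0 := MM.clo (Va.image σa ∪ Vb.image σb) with hF0
  set F1 := MM.clo (U ∪ Va) with hF1
  set F2 := MM.clo (U ∪ Vb) with hF2
  have s0 : Va.image σa ∪ Vb.image σb ⊆ F0 := Str.subset_clo good_MM _
  have s1 : U ∪ Va ⊆ F1 := Str.subset_clo good_MM _
  have s2 : U ∪ Vb ⊆ F2 := Str.subset_clo good_MM _
  have c0 : MM.Cl F0 Set.univ := Str.clo_cl good_MM _
  have c1 : MM.Cl F1 Set.univ := Str.clo_cl good_MM _
  have c2 : MM.Cl F2 Set.univ := Str.clo_cl good_MM _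
  have sVa0 : ∀ a ∈ Va, σa a ∈ F0 := fun a ha =>
    s0 (Finset.mem_union_left _ (Finset.mem_image_of_mem _ ha))
  have sVb0 : ∀ a ∈ Vb, σb a ∈ F0 := fun a ha =>
    s0 (Finset.mem_union_right _ (Finset.mem_image_of_mem _ ha))
  have sVa1 : ∀ a ∈ Va, a ∈ F1 := fun a ha => s1 (Finset.mem_union_right _ ha)
  have sVb2 : ∀ a ∈ Vb, a ∈ F2 := fun a ha => s2 (Finset.mem_union_right _ ha)
  have sU1 : ∀ a ∈ U, a ∈ F1 := fun a ha => s1 (Finset.mem_union_left _ ha)
  have sU2 : ∀ a ∈ U, a ∈ F2 := fun a ha => s2 (Finset.mem_union_left _ ha)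
  set N := F0.sup id + 1 with hN
  have hlt : ∀ a ∈ F0, a < N := fun a ha => by
    have := Finset.le_sup (f := id) ha
    simp only [id] at this
    omega
  set j1 : ℕ → ℕ := fun n => if n ∈ Va then σa n else 2 * n + N with hj1
  set j2 : ℕ → ℕ := fun n => if n ∈ Vb then σb n else if n ∈ U then 2 * n + N
    else 2 * n + 1 + N with hj2
  have j1a : ∀ n ∈ Va, j1 n = σa n := fun n hn => by simp [hj1, hn]
  have j1b : ∀ n, n ∉ Va → j1 n = 2 * n + N := fun n hn => by simp [hj1, hn]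
  have j2a : ∀ n ∈ Vb, j2 n = σb n := fun n hn => by simp [hj2, hn]
  have j2b : ∀ n, n ∉ Vb → n ∈ U → j2 n = 2 * n + N := fun n hn hn' => by simp [hj2, hn, hn']
  have j2c : ∀ n, n ∉ Vb → n ∉ U → j2 n = 2 * n + 1 + N := fun n hn hn' => by
    simp [hj2, hn, hn']
  have j2ge : ∀ n, n ∉ Vb → N ≤ j2 n := fun n hn => by
    by_cases hU : n ∈ U
    · rw [j2b n hn hU]; omega
    · rw [j2c n hn hU]; omega
  have hjU : ∀ u ∈ U, j1 u = j2 u := by
    intro u hu
    by_cases ha : u ∈ Va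
    · have hA : u ∈ A := hUa ▸ Finset.mem_inter.2 ⟨hu, ha⟩
      rw [j1a u ha, j2a u (hAVb hA), fixa u hA, fixb u hA]
    · have hb : u ∉ Vb := fun hb => ha (hAVa (hUb ▸ Finset.mem_inter.2 ⟨hu, hb⟩))
      rw [j1b u ha, j2b u hb hu]
  -- crossings
  have x01 : ∀ a ∈ F0, ∀ b, a = j1 b → b ∈ Va ∧ a = σa b := by
    intro a ha b hab
    by_cases hb : b ∈ Va
    · rw [j1a b hb] at hab; exact ⟨hb, hab⟩
    · rw [j1b b hb] at hab
      have := hlt a ha
      omega
  have x02 : ∀ a ∈ F0, ∀ b, a = j2 b → b ∈ Vb ∧ a = σb b := by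
    intro a ha b hab
    by_cases hb : b ∈ Vb
    · rw [j2a b hb] at hab; exact ⟨hb, hab⟩
    · have h1 := j2ge b hb
      have h2 := hlt a ha
      omega
  have x12 : ∀ a b, j1 a = j2 b → a = b ∧ a ∈ U := by
    intro a b h
    by_cases ha : a ∈ Va <;> by_cases hb : b ∈ Vb
    · rw [j1a a ha, j2a b hb] at h
      have h1 : σa a ∈ A := by
        rw [← hab, Finset.mem_inter]
        exact ⟨Finset.mem_image_of_mem _ ha, h ▸ Finset.mem_image_of_mem _ hb⟩
      have h2 : σa a = a := σa.injective (fixa _ h1)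
      have h3 : σb b = b := σb.injective (fixb _ (h ▸ h1))
      rw [h2] at h1
      exact ⟨by rw [← h2, h, h3], hAU h1⟩
    · rw [j1a a ha] at h
      have h1 := j2ge b hb
      have h2 := hlt _ (sVa0 a ha)
      omega
    · rw [j1b a ha, j2a b hb] at h
      have h2 := hlt _ (sVb0 b hb)
      omega
    · rw [j1b a ha] at h
      by_cases hbU : b ∈ U
      · rw [j2b b hb hbU] at h
        have : a = b := by omega
        exact ⟨this, this ▸ hbU⟩
      · rw [j2c b hb hbU] at h
        omega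
  have inj1 : Set.InjOn j1 F1 := by
    intro a _ b _ h
    by_cases ha : a ∈ Va <;> by_cases hb : b ∈ Va
    · rw [j1a a ha, j1a b hb] at h; exact σa.injective h
    · rw [j1a a ha, j1b b hb] at h
      have := hlt _ (sVa0 a ha)
      omega
    · rw [j1b a ha, j1a b hb] at h
      have := hlt _ (sVa0 b hb)
      omega
    · rw [j1b a ha, j1b b hb] at h; omega
  have inj2 : Set.InjOn j2 F2 := by
    intro a _ b _ h
    by_cases ha : a ∈ Vb <;> by_cases hb : b ∈ Vb
    · rw [j2a a ha, j2a b hb] at h; exact σb.injective h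
    · rw [j2a a ha] at h
      have := hlt _ (sVb0 a ha)
      have := j2ge b hb
      omega
    · rw [j2a b hb] at h
      have := hlt _ (sVb0 b hb)
      have := j2ge a ha
      omega
    · by_cases ha' : a ∈ U <;> by_cases hb' : b ∈ U
      · rw [j2b a ha ha', j2b b hb hb'] at h; omega
      · rw [j2b a ha ha', j2c b hb hb'] at h; omega
      · rw [j2c a ha ha', j2b b hb hb'] at h; omega
      · rw [j2c a ha ha', j2c b hb hb'] at h; omega
  have ea : ∀ a b, (MM.I (σa a) (σa b) ↔ MM.I a b) ∧ (MM.R (σa a) (σa b) ↔ MM.R a b) :=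
    fun a b => ⟨Emb.I hσa a trivial b trivial, Emb.R hσa a trivial b trivial⟩
  have eb : ∀ a b, (MM.I (σb a) (σb b) ↔ MM.I a b) ∧ (MM.R (σb a) (σb b) ↔ MM.R a b) :=
    fun a b => ⟨Emb.I hσb a trivial b trivial, Emb.R hσb a trivial b trivial⟩
  -- the gluing data
  let FF : Fin 3 → Finset ℕ := ![F0, F1, F2]
  let jj : Fin 3 → ℕ → ℕ := ![id, j1, j2]
  let UU : Fin 3 → Fin 3 → Finset ℕ := ![![∅, Va.image σa, Vb.image σb], ![Va, ∅, U], ![Vb, U, ∅]]
  have g1 : ∀ i, Set.InjOn (jj i) (FF i) := by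
    intro i
    fin_cases i
    · exact Set.injOn_id _
    · exact inj1
    · exact inj2
  have g2 : Compat (fun _ => MM) FF jj := by
    intro i k
    fin_cases i <;> fin_cases k
    · rintro a _ a' _ haa
      have haa : a = a' := haa
      subst haa
      refine ⟨rfl, ?_⟩
      rintro b _ b' _ hbb
      have hbb : b = b' := hbb
      subst hbb
      exact ⟨Iff.rfl, Iff.rfl⟩
    · rintro a ha a' _ haa
      obtain ⟨h1, rfl⟩ := x01 a ha a' haa
      refine ⟨Emb.kind hσa a' trivial, ?_⟩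
      rintro b hb b' _ hbb
      obtain ⟨h2, rfl⟩ := x01 b hb b' hbb
      exact ea a' b'
    · rintro a ha a' _ haa
      obtain ⟨h1, rfl⟩ := x02 a ha a' haa
      refine ⟨Emb.kind hσb a' trivial, ?_⟩
      rintro b hb b' _ hbb
      obtain ⟨h2, rfl⟩ := x02 b hb b' hbb
      exact eb a' b'
    · rintro a _ a' ha' haa
      obtain ⟨h1, rfl⟩ := x01 a' ha' a (Eq.symm haa)
      refine ⟨(Emb.kind hσa a trivial).symm, ?_⟩
      rintro b _ b' hb' hbb
      obtain ⟨h2, rfl⟩ := x01 b' hb' b (Eq.symm hbb)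
      exact ⟨(ea a b).1.symm, (ea a b).2.symm⟩
    · rintro a ha a' ha' haa
      have haa : a = a' := inj1 (by exact_mod_cast ha) (by exact_mod_cast ha') haa
      subst haa
      refine ⟨rfl, ?_⟩
      rintro b hb b' hb' hbb
      have hbb : b = b' := inj1 (by exact_mod_cast hb) (by exact_mod_cast hb') hbb
      subst hbb
      exact ⟨Iff.rfl, Iff.rfl⟩
    · rintro a _ a' _ haa
      obtain ⟨rfl, _⟩ := x12 a a' haa
      refine ⟨rfl, ?_⟩
      rintro b _ b' _ hbb
      obtain ⟨rfl, _⟩ := x12 b b' hbb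
      exact ⟨Iff.rfl, Iff.rfl⟩
    · rintro a _ a' ha' haa
      obtain ⟨h1, rfl⟩ := x02 a' ha' a (Eq.symm haa)
      refine ⟨(Emb.kind hσb a trivial).symm, ?_⟩
      rintro b _ b' hb' hbb
      obtain ⟨h2, rfl⟩ := x02 b' hb' b (Eq.symm hbb)
      exact ⟨(eb a b).1.symm, (eb a b).2.symm⟩
    · rintro a _ a' _ haa
      obtain ⟨rfl, _⟩ := x12 a' a (Eq.symm haa)
      refine ⟨rfl, ?_⟩
      rintro b _ b' _ hbb
      obtain ⟨rfl, _⟩ := x12 b' b (Eq.symm hbb)
      exact ⟨Iff.rfl, Iff.rfl⟩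
    · rintro a ha a' ha' haa
      have haa : a = a' := inj2 (by exact_mod_cast ha) (by exact_mod_cast ha') haa
      subst haa
      refine ⟨rfl, ?_⟩
      rintro b hb b' hb' hbb
      have hbb : b = b' := inj2 (by exact_mod_cast hb) (by exact_mod_cast hb') hbb
      subst hbb
      exact ⟨Iff.rfl, Iff.rfl⟩
  have i01 : F0 ∩ F1.image j1 = Va.image σa := by
    ext a
    rw [Finset.mem_inter, Finset.mem_image, Finset.mem_image]
    constructor
    · rintro ⟨ha, b, _, hb⟩
      obtain ⟨h1, h2⟩ := x01 a ha b hb.symm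
      exact ⟨b, h1, h2.symm⟩
    · rintro ⟨b, hb, rfl⟩
      exact ⟨sVa0 b hb, b, sVa1 b hb, j1a b hb⟩
  have i02 : F0 ∩ F2.image j2 = Vb.image σb := by
    ext a
    rw [Finset.mem_inter, Finset.mem_image, Finset.mem_image]
    constructor
    · rintro ⟨ha, b, _, hb⟩
      obtain ⟨h1, h2⟩ := x02 a ha b hb.symm
      exact ⟨b, h1, h2.symm⟩
    · rintro ⟨b, hb, rfl⟩
      exact ⟨sVb0 b hb, b, sVb2 b hb, j2a b hb⟩
  have i12 : F1.image j1 ∩ F2.image j2 = U.image j1 := by
    ext a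
    rw [Finset.mem_inter, Finset.mem_image, Finset.mem_image, Finset.mem_image]
    constructor
    · rintro ⟨⟨b, _, rfl⟩, c, _, hc⟩
      obtain ⟨h1, h2⟩ := x12 b c hc.symm
      exact ⟨b, h2, rfl⟩
    · rintro ⟨b, hb, rfl⟩
      exact ⟨⟨b, sU1 b hb, rfl⟩, b, sU2 b hb, (hjU b hb).symm⟩
  have g3 : ∀ i k, i ≠ k → (FF i).image (jj i) ∩ (FF k).image (jj k) = (UU i k).image (jj i) := by
    intro i k hik
    fin_cases i <;> fin_cases k <;> first | exact absurd rfl hik | skip
    · simp only [FF, jj, UU]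
      simpa using i01
    · simp only [FF, jj, UU]
      simpa using i02
    · simp only [FF, jj, UU]
      have : Va.image j1 = Va.image σa := Finset.image_congr (fun a ha =>
        j1a a (by exact_mod_cast ha))
      simp only [Fin.mk_one, Fin.zero_eta, Matrix.cons_val_zero, Matrix.cons_val_one,
        Finset.image_id]
      rw [Finset.inter_comm, i01, this]
    · simp only [FF, jj, UU]
      simpa using i12
    · simp only [FF, jj, UU]
      have : Vb.image j2 = Vb.image σb := Finset.image_congr (fun a ha =>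
        j2a a (by exact_mod_cast ha))
      simp only [Fin.reduceFinMk, Fin.zero_eta, Matrix.cons_val_zero,
        Matrix.cons_val, Finset.image_id]
      rw [Finset.inter_comm, i02, this]
    · simp only [FF, jj, UU]
      have : U.image j2 = U.image j1 := Finset.image_congr (fun a ha =>
        (hjU a (by exact_mod_cast ha)).symm)
      simp only [Fin.reduceFinMk, Fin.mk_one, Matrix.cons_val_one,
        Matrix.cons_val]
      rw [Finset.inter_comm, i12, this]
  have g4 : ∀ i, MM.Good (FF i) := fun i => good_MM.mono (Set.subset_univ _)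
  have f0 := iab.free_wcl hVa' hVb' hab
  have f1 := iUa.symm.free_wcl hVa hU (by rw [Finset.inter_comm]; exact hUa)
  have f1' := iUa.free_wcl hU hVa hUa
  have f2 := iUb.symm.free_wcl hVb hU (by rw [Finset.inter_comm]; exact hUb)
  have f2' := iUb.free_wcl hU hVb hUb
  have f0' := iab.symm.free_wcl hVb' hVa' (by rw [Finset.inter_comm]; exact hab)
  have g5 : ∀ i k, i ≠ k → MM.Cl (UU i k) (FF i) := by
    intro i k hik
    fin_cases i <;> fin_cases k <;> first | exact absurd rfl hik | skip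
    · exact hVa'.mono (by exact_mod_cast Finset.union_subset_left s0) (Set.subset_univ _)
    · exact hVb'.mono (by exact_mod_cast Finset.union_subset_right s0) (Set.subset_univ _)
    · exact hVa.mono (by exact_mod_cast Finset.union_subset_right s1) (Set.subset_univ _)
    · exact hU.mono (by exact_mod_cast Finset.union_subset_left s1) (Set.subset_univ _)
    · exact hVb.mono (by exact_mod_cast Finset.union_subset_right s2) (Set.subset_univ _)
    · exact hU.mono (by exact_mod_cast Finset.union_subset_left s2) (Set.subset_univ _)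
  have g6 : ∀ i k l, i ≠ k → k ≠ l → i ≠ l → MM.WCl (UU i k ∪ UU i l) (FF i) := by
    intro i k l h1 h2 h3
    fin_cases i <;> fin_cases k <;> fin_cases l <;>
      first | exact absurd rfl h1 | exact absurd rfl h2 | exact absurd rfl h3 | skip
    · exact f0.2.mono (by exact_mod_cast s0) (Set.subset_univ _)
    · exact f0'.2.mono (by rw [Finset.union_comm]; exact_mod_cast s0) (Set.subset_univ _)
    · exact f1.2.mono (by rw [Finset.union_comm]; exact_mod_cast s1) (Set.subset_univ _)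
    · exact f1'.2.mono (by exact_mod_cast s1) (Set.subset_univ _)
    · exact f2.2.mono (by rw [Finset.union_comm]; exact_mod_cast s2) (Set.subset_univ _)
    · exact f2'.2.mono (by exact_mod_cast s2) (Set.subset_univ _)
  have g7 : ∀ i k l, i ≠ k → k ≠ l → i ≠ l → MM.Free (UU i k) (UU i l) := by
    intro i k l h1 h2 h3
    fin_cases i <;> fin_cases k <;> fin_cases l <;>
      first | exact absurd rfl h1 | exact absurd rfl h2 | exact absurd rfl h3 | skip
    · exact f0.1
    · exact f0'.1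
    · exact f1.1
    · exact f1'.1
    · exact f2.1
    · exact f2'.1
  obtain ⟨S, hS, hgood, hcl⟩ := glueAmalgam (fun _ => MM) FF jj UU g1 g2 g3 g4 g5 g6 g7
  set D := Str.tot fun i => (FF i).image (jj i) with hD
  have e0 : Emb MM S F0 id := hS 0
  have e1 : Emb MM S F1 j1 := hS 1
  have e2 : Emb MM S F2 j2 := hS 2
  have k0 : S.Cl F0 D := by
    have := hcl 0
    rwa [show (FF 0).image (jj 0) = F0 from Finset.image_id] at this
  have k1 : S.Cl (F1.image j1) D := hcl 1
  have k2 : S.Cl (F2.image j2) D := hcl 2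
  obtain ⟨f, hf, hf0, hfc⟩ := extG (g := id) hgood k0 e0.symm_id (by
    rw [Finset.image_id]; exact c0)
  have main : ∀ (F : Finset ℕ) (j : ℕ → ℕ), MM.Cl F Set.univ → Emb MM S F j →
      S.Cl (F.image j) D → ∃ τ : ℕ ≃ ℕ, IsAut τ ∧ ∀ a ∈ F, τ a = f (j a) := by
    intro F j hF hj hc
    have hsub : (F.image j : Set ℕ) ⊆ D := hc.1.1
    have hsub' : j '' F ⊆ (D : Set ℕ) := by rwa [Finset.coe_image] at hsub
    have hp : PIso F (f ∘ j) := by
      refine ⟨hF, hj.comp (hf.mono hsub'), ?_⟩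
      rw [← Finset.image_image]
      have h1 := (hf.cl hc)
      rw [← Finset.coe_image] at h1
      exact h1.trans hfc
    exact hp.exists_aut
  obtain ⟨τa, ha1, ha2⟩ := main F1 j1 c1 e1 k1
  obtain ⟨τb, hb1, hb2⟩ := main F2 j2 c2 e2 k2
  refine ⟨τa, τb, ha1, hb1, fun u hu => ?_, fun v hv => ?_, fun v hv => ?_⟩
  · rw [ha2 u (sU1 u hu), hb2 u (sU2 u hu), hjU u hu]
  · rw [ha2 v (sVa1 v hv), j1a v hv]
    exact hf0 _ (sVa0 v hv)
  · rw [hb2 v (sVb2 v hv), j2a v hv]
    exact hf0 _ (sVb0 v hv)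

end Pool.Agent.H88.Gen
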