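import Pool.Agent.H88.Gen.Generic

/-!
# The generic structure: existence
-/

set_option autoImplicit false

namespace Pool.Agent.H88.Gen

open scoped Classical

theorem Cond.exists_ap (p : Cond) {T : Str} {A B : Finset ℕ} {f : ℕ → ℕ} (hT : T.Good B)
    (hAD : p.T.Cl A p.D) (hAB : T.Cl A B) (hag : Emb T p.T A id) (hf : Set.InjOn f B)
    (hfA : ∀ a ∈ A, f a = a) (hfB : ∀ b ∈ B, b ∉ A → f b ∉ p.D) :
    ∃ q : Cond, p ≤ q ∧ Emb T q.T B f ∧ q.D = p.D ∪ B.image f ∧ q.T.Cl (B.image f) q.D := by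
  obtain ⟨S', h1, h2, h3, h4, h5⟩ := ap p.good hT hAD hAB hag hf hfA hfB
  exact ⟨⟨p.D ∪ B.image f, S', h3⟩, ⟨Finset.subset_union_left, h1, h4⟩, h2, rfl, h5⟩

theorem Cond.exists_mem (p : Cond) (n : ℕ) : ∃ q : Cond, p ≤ q ∧ n ∈ q.D := by
  by_cases hn : n ∈ p.D
  · exact ⟨p, le_refl p, hn⟩
  · obtain ⟨q, hpq, _, hq, _⟩ := p.exists_ap (A := ∅) (B := {n}) (f := id) (good_single n)
      (cl_empty p.good) (cl_empty (good_single n))
      ⟨Set.injOn_id _, by simp, by simp, by simp⟩ (Set.injOn_id _) (fun _ _ => rfl)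
      (fun b hb _ => by rw [Finset.mem_singleton.1 hb]; exact hn)
    exact ⟨q, hpq, by rw [hq]; simp⟩

/-- A renaming which is the identity on `A` and moves the rest of `B` away from `D`. -/
theorem exists_rename (A B D : Finset ℕ) : ∃ f : ℕ → ℕ, Set.InjOn f B ∧ (∀ a ∈ A, f a = a) ∧
    ∀ b ∈ B, b ∉ A → f b ∉ D ∪ A := by
  set N := (D ∪ A).sup id + 1 with hN
  have hlt : ∀ a ∈ D ∪ A, a < N := fun a ha => by
    have := Finset.le_sup (f := id) ha
    simp only [id] at this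
    omega
  refine ⟨fun n => if n ∈ A then n else n + N, ?_, fun a ha => if_pos ha, ?_⟩
  · intro a _ b _ hab
    simp only at hab
    by_cases ha : a ∈ A <;> by_cases hb : b ∈ A
    · rwa [if_pos ha, if_pos hb] at hab
    · rw [if_pos ha, if_neg hb] at hab
      have := hlt a (Finset.mem_union_right _ ha)
      omega
    · rw [if_neg ha, if_pos hb] at hab
      have := hlt b (Finset.mem_union_right _ hb)
      omega
    · rw [if_neg ha, if_neg hb] at hab
      omega
  · intro b _ hbA h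
    simp only [if_neg hbA] at h
    have := hlt _ h
    omega

/-- Tasks. -/
abbrev Task := (Finset ℕ × Finset ℕ × Code) ⊕ ℕ

/-- What it means that a condition fulfils a task. -/
def Done : Task → Cond → Prop
  | Sum.inr n, p => n ∈ p.D
  | Sum.inl (A, B, c), p => A ⊆ p.D ∧ (p.T.Cl A p.D → Emb (dec c) p.T A id → (dec c).Good B →
      (dec c).Cl A B → ∃ f, Emb (dec c) p.T B f ∧ (∀ a ∈ A, f a = a) ∧ p.T.Cl (B.image f) p.D)

theorem exists_sup (p : Cond) (X : Finset ℕ) : ∃ q : Cond, p ≤ q ∧ X ⊆ q.D := by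
  induction X using Finset.induction_on with
  | empty => exact ⟨p, le_refl p, by simp⟩
  | insert a X _ ih =>
    obtain ⟨q, h1, h2⟩ := ih
    obtain ⟨r, h3, h4⟩ := q.exists_mem a
    exact ⟨r, h1.trans h3, Finset.insert_subset h4 (h2.trans (Cond.le_def.1 h3).1)⟩

theorem exists_done (t : Task) (p : Cond) : ∃ q : Cond, Done t q ∧ p ≤ q := by
  rcases t with ⟨A, B, c⟩ | n
  · obtain ⟨q, h1, h2⟩ := exists_sup p A
    by_cases hyp : q.T.Cl A q.D ∧ Emb (dec c) q.T A id ∧ (dec c).Good B ∧ (dec c).Cl A B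
    · obtain ⟨h3, h4, h5, h6⟩ := hyp
      obtain ⟨f, hf1, hf2, hf3⟩ := exists_rename A B q.D
      obtain ⟨r, h7, h8, h9, h10⟩ := q.exists_ap h5 h3 h6 h4 hf1 hf2
        (fun b hb hbA h => hf3 b hb hbA (Finset.mem_union_left _ h))
      exact ⟨r, ⟨h2.trans (Cond.le_def.1 h7).1, fun _ _ _ _ => ⟨f, h8, hf2, h10⟩⟩, h1.trans h7⟩
    · exact ⟨q, ⟨h2, fun h3 h4 h5 h6 => absurd ⟨h3, h4, h5, h6⟩ hyp⟩, h1⟩
  · obtain ⟨q, h1, h2⟩ := p.exists_mem n
    exact ⟨q, h2, h1⟩

/-- The cofinal sets. -/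
def cof (t : Task) : Order.Cofinal Cond := ⟨{p | Done t p}, fun p => exists_done t p⟩

/-- The initial condition. -/
noncomputable def cond0 : Cond := ⟨∅, ⟨fun _ => Kind.pt, fun _ _ => False, fun _ _ => False⟩,
  (good_single 0).mono (by simp)⟩

/-- The generic filter. -/
noncomputable def gen : Order.Ideal Cond := Order.idealOfCofinals cond0 cof

theorem gen_done (t : Task) : ∃ p ∈ gen, Done t p := by
  obtain ⟨p, h1, h2⟩ := Order.cofinal_meets_idealOfCofinals cond0 cof t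
  exact ⟨p, h2, h1⟩

theorem gen_dir {p q : Cond} (hp : p ∈ gen) (hq : q ∈ gen) : ∃ r ∈ gen, p ≤ r ∧ q ≤ r := by
  obtain ⟨r, hr, h1, h2⟩ := gen.directed p hp q hq
  exact ⟨r, hr, h1, h2⟩

theorem gen_mem (n : ℕ) : ∃ p ∈ gen, n ∈ p.D := gen_done (Sum.inr n)

theorem gen_sup (X : Finset ℕ) {p : Cond} (hp : p ∈ gen) : ∃ q ∈ gen, p ≤ q ∧ X ⊆ q.D := by
  induction X using Finset.induction_on with
  | empty => exact ⟨p, hp, le_refl p, by simp⟩
  | insert a X _ ih =>
    obtain ⟨q, hq, h1, h2⟩ := ih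
    obtain ⟨r, hr, h3⟩ := gen_mem a
    obtain ⟨s, hs, h4, h5⟩ := gen_dir hq hr
    exact ⟨s, hs, h1.trans h4, Finset.insert_subset ((Cond.le_def.1 h5).1 h3)
      (h2.trans (Cond.le_def.1 h4).1)⟩

/-- The generic structure. -/
noncomputable def MM : Str :=
  ⟨fun n => (gen_mem n).choose.T.kind n,
   fun a b => ∃ p ∈ gen, a ∈ p.D ∧ b ∈ p.D ∧ p.T.I a b,
   fun a b => ∃ p ∈ gen, a ∈ p.D ∧ b ∈ p.D ∧ p.T.R a b⟩

theorem emb_MM {p : Cond} (hp : p ∈ gen) : Emb p.T MM p.D id := by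
  have hk : ∀ a ∈ p.D, MM.kind a = p.T.kind a := by
    intro a ha
    obtain ⟨h1, h2⟩ := (gen_mem a).choose_spec
    obtain ⟨r, _, h3, h4⟩ := gen_dir hp h1
    have h5 := (Cond.le_def.1 h3).2.1.kind a (by exact_mod_cast ha)
    have h6 := (Cond.le_def.1 h4).2.1.kind a (by exact_mod_cast h2)
    exact h6.symm.trans h5
  refine ⟨Set.injOn_id _, fun a ha => hk a (by exact_mod_cast ha), fun a ha b hb => ?_,
    fun a ha b hb => ?_⟩
  · have ha' : a ∈ p.D := by exact_mod_cast ha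
    have hb' : b ∈ p.D := by exact_mod_cast hb
    simp only [id]
    constructor
    · rintro ⟨_, _, q, hq, h1, h2, h3⟩
      obtain ⟨r, _, h4, h5⟩ := gen_dir hp hq
      have h6 := (Cond.le_def.1 h4).2.1.I a ha b hb
      have h7 := (Cond.le_def.1 h5).2.1.I a (by exact_mod_cast h1) b (by exact_mod_cast h2)
      exact h6.1 (h7.2 h3)
    · intro h
      refine ⟨?_, ?_, p, hp, ha', hb', h⟩
      · rw [hk a ha']; exact h.1
      · rw [hk b hb']; exact h.2.1
  · have ha' : a ∈ p.D := by exact_mod_cast ha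
    have hb' : b ∈ p.D := by exact_mod_cast hb
    simp only [id]
    constructor
    · rintro ⟨_, _, q, hq, h1, h2, h3⟩
      obtain ⟨r, _, h4, h5⟩ := gen_dir hp hq
      have h6 := (Cond.le_def.1 h4).2.1.R a ha b hb
      have h7 := (Cond.le_def.1 h5).2.1.R a (by exact_mod_cast h1) b (by exact_mod_cast h2)
      exact h6.1 (h7.2 h3)
    · intro h
      refine ⟨?_, ?_, p, hp, ha', hb', h⟩
      · rw [hk a ha']; exact h.1
      · rw [hk b hb']; exact h.2.1

theorem cl_MM {p : Cond} (hp : p ∈ gen) : MM.Cl p.D Set.univ := by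
  have key : ∀ X : Finset ℕ, ∃ q ∈ gen, X ⊆ q.D ∧ MM.Cl p.D q.D := by
    intro X
    obtain ⟨q, hq, h1, h2⟩ := gen_sup X hp
    exact ⟨q, hq, h2, (emb_MM hq).cl_of_agree (Cond.le_def.1 h1).2.2⟩
  refine ⟨⟨Set.subset_univ _, fun X hX _ => ?_⟩, ?_⟩
  · obtain ⟨q, hq, h1, h2⟩ := key X
    exact h2.1.2 X hX (by exact_mod_cast h1)
  · intro x hx l hl v _ hb
    obtain ⟨q, hq, h1, h2⟩ := key {v}
    exact h2.2 x hx l hl v (by exact_mod_cast Finset.singleton_subset_iff.1 h1) hb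

theorem good_MM : MM.Good Set.univ := by
  refine ⟨fun X _ => ?_, fun x _ l _ T _ hb => ?_⟩
  · obtain ⟨p, hp, _⟩ := gen_mem 0
    obtain ⟨q, hq, _, h1⟩ := gen_sup X hp
    exact ((emb_MM hq).good_of_agree q.good).1 X (by exact_mod_cast h1)
  · obtain ⟨p, hp, _⟩ := gen_mem 0
    obtain ⟨q, hq, _, h1⟩ := gen_sup (insert x (insert l T)) hp
    refine ((emb_MM hq).good_of_agree q.good).2 x ?_ l ?_ T ?_ hb
    · exact_mod_cast h1 (by simp)
    · exact_mod_cast h1 (by simp)
    · intro a ha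
      have ha' : a ∈ T := by exact_mod_cast ha
      exact_mod_cast h1 (by simp [ha'])

/-- Extension property, literal version. -/
theorem ext0 {T : Str} {A B : Finset ℕ} (hA : MM.Cl A Set.univ) (hT : T.Good B)
    (hAB : T.Cl A B) (hag : Emb T MM A id) :
    ∃ f, Emb T MM B f ∧ (∀ a ∈ A, f a = a) ∧ MM.Cl (B.image f) Set.univ := by
  obtain ⟨c, hc⟩ := exists_code T B
  have hABs : (A : Set ℕ) ⊆ B := hAB.1.1
  obtain ⟨p, hp, h1, h2⟩ := gen_done (Sum.inl (A, B, c))
  have hpA : p.T.Cl A p.D := (emb_MM hp).symm_id.cl_of_agree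
    (hA.mono (by exact_mod_cast h1) (Set.subset_univ _))
  have hcA : Emb (dec c) p.T A id :=
    ((hc.mono hABs).symm_id).trans_id
      (hag.trans_id ((emb_MM hp).symm_id.mono (by exact_mod_cast h1)))
  obtain ⟨f, h3, h4, h5⟩ := h2 hpA hcA (hc.good_of_agree hT) (hc.cl_of_agree hAB)
  have h6 : Emb T p.T B f := by
    have := hc.comp (g := f) (U := p.T) (by simpa using h3)
    simpa using this
  refine ⟨f, ?_, h4, ?_⟩
  · have h7 := h6.comp (g := id) (U := MM) ((emb_MM hp).mono (by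
      have := h5.1.1
      rwa [Finset.coe_image] at this))
    simpa using h7
  · exact ((emb_MM hp).cl_of_agree h5).trans (cl_MM hp)

/-- Extension property. -/
theorem extG {T : Str} {A B : Finset ℕ} {g : ℕ → ℕ} (hT : T.Good B)
    (hAB : T.Cl A B) (hg : Emb T MM A g) (hA : MM.Cl (A.image g) Set.univ) :
    ∃ f, Emb T MM B f ∧ (∀ a ∈ A, f a = g a) ∧ MM.Cl (B.image f) Set.univ := by
  -- rename
  set N := (A.image g).sup id + 1 with hN
  have hlt : ∀ a ∈ A, g a < N := fun a ha => by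
    have := Finset.le_sup (f := id) (Finset.mem_image_of_mem g ha)
    simp only [id] at this
    omega
  set h : ℕ → ℕ := fun n => if n ∈ A then g n else n + N with hh
  have hinj : Set.InjOn h B := by
    intro a _ b _ hab
    simp only [hh] at hab
    by_cases ha : a ∈ A <;> by_cases hb : b ∈ A
    · rw [if_pos ha, if_pos hb] at hab
      exact hg.inj (by exact_mod_cast ha) (by exact_mod_cast hb) hab
    · rw [if_pos ha, if_neg hb] at hab
      have := hlt a ha
      omega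
    · rw [if_neg ha, if_pos hb] at hab
      have := hlt b hb
      omega
    · rw [if_neg ha, if_neg hb] at hab
      omega
  have hE := emb_comap_inv T (B := (B : Set ℕ)) hinj
  set T' := T.comap (Function.invFunOn h B) with hT'
  have hhA : ∀ a ∈ A, h a = g a := fun a ha => by simp [hh, ha]
  have himA : A.image h = A.image g := Finset.image_congr (fun a ha => hhA a (by exact_mod_cast ha))
  have hABs : (A : Set ℕ) ⊆ B := hAB.1.1
  have hEA := hE.mono hABs
  -- T' on A.image g agrees with MM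
  have hag : Emb T' MM (A.image h : Finset ℕ) id := by
    have h1 := hEA.symm
    have h2 := h1.comp (g := g) (U := MM) (by
      refine hg.mono ?_
      rintro _ ⟨_, ⟨a, ha, rfl⟩, rfl⟩
      rw [(hEA.inj).leftInvOn_invFunOn ha]
      exact ha)
    rw [Finset.coe_image]
    refine h2.congr ?_
    rintro _ ⟨a, ha, rfl⟩
    simp only [Function.comp, id]
    rw [(hEA.inj).leftInvOn_invFunOn ha]
    exact (hhA a (by exact_mod_cast ha))
  obtain ⟨f, h1, h2, h3⟩ := ext0 (T := T') (A := A.image h) (B := B.image h) (by rw [himA]; exact hA)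
    (by rw [Finset.coe_image]; exact hE.good hT) (by rw [Finset.coe_image]; exact hE.cl hAB) hag
  refine ⟨f ∘ h, ?_, ?_, ?_⟩
  · exact hE.comp (by rwa [Finset.coe_image] at h1)
  · intro a ha
    simp only [Function.comp]
    rw [h2 _ (Finset.mem_image_of_mem _ ha), hhA a ha]
  · rwa [← Finset.image_image]

end Pool.Agent.H88.Gen
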