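import Pool.Agent.H88.Gen.Extract

/-!
# No SOP1
-/

set_option autoImplicit false

namespace Pool.Agent.H88.Gen

open scoped Classical

theorem union_union_self (U X Y : Finset ℕ) : (U ∪ X) ∪ (U ∪ Y) = U ∪ (X ∪ Y) := by
  ext a; simp only [Finset.mem_union]; tauto

theorem contra {n m : ℕ} (φ : (Fin n → ℕ) → (Fin m → ℕ) → Prop)
    (hφ : ∀ σ : ℕ ≃ ℕ, IsAut σ → ∀ a b, φ a b → φ (σ ∘ a) (σ ∘ b))
    (c0 c1 : ℕ → Fin m → ℕ) (σ : ℕ → ℕ ≃ ℕ) (hc : ∀ k t, σ k (c0 k t) = c1 k t)
    {A : Finset ℕ} {E V : ℕ → Finset ℕ} {g : ℕ → ℕ}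
    (hg : StrictMono g)
    (hall : ∀ j, MM.Cl (V j) Set.univ ∧ ran (c0 (g j)) ⊆ V j ∧
        E j ⊆ E (j + 1) ∧ V j ⊆ E (j + 1) ∧ (V j).image (σ (g j)) ⊆ E (j + 1) ∧
        V j ∩ E j = A ∧ Ind A (E j) (V j) ∧ AutOver (E j) (σ (g j)))
    (con : ∀ N, ∃ a, ∀ k < N, φ a (c0 k))
    (inc : ∀ k l, k < l → ¬ ∃ a, φ a (c1 k) ∧ φ a (c1 l)) : False := by
  have hEmono : Monotone E := monotone_nat_of_le_succ (fun j => (hall j).2.2.1)
  have hAV : ∀ j, A ⊆ V j := fun j => by
    rw [← (hall j).2.2.2.2.2.1]; exact Finset.inter_subset_left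
  have hAE : ∀ j, A ⊆ E j := fun j => by
    rw [← (hall j).2.2.2.2.2.1]; exact Finset.inter_subset_right
  have hVV : ∀ i j, i < j → V i ⊆ E j := fun i j hij =>
    (hall i).2.2.2.1.trans (hEmono hij)
  -- the images
  have hfixA : ∀ j, ∀ x ∈ A, σ (g j) x = x := fun j x hx =>
    (hall j).2.2.2.2.2.2.2.2 x (hAE j hx)
  have hV1E : ∀ j, (V j).image (σ (g j)) ∩ E j = A := by
    intro j
    ext x
    rw [Finset.mem_inter, Finset.mem_image]
    constructor
    · rintro ⟨⟨v, hv, hvx⟩, hx⟩
      have h1 := (hall j).2.2.2.2.2.2.2.2 x hx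
      have h2 : v = x := (σ (g j)).injective (hvx.trans h1.symm)
      subst h2
      rw [← (hall j).2.2.2.2.2.1]
      exact Finset.mem_inter.2 ⟨hv, hx⟩
    · intro hx
      exact ⟨⟨x, hAV j hx, hfixA j x hx⟩, hAE j hx⟩
  have hAV1 : ∀ j, A ⊆ (V j).image (σ (g j)) := fun j => by
    have := hV1E j
    rw [← this]
    exact Finset.inter_subset_left
  have hV1V1 : ∀ i j, i < j → (V i).image (σ (g i)) ∩ (V j).image (σ (g j)) = A := by
    intro i j hij
    apply Finset.Subset.antisymm
    · intro x hx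
      rw [Finset.mem_inter] at hx
      rw [← hV1E j, Finset.mem_inter]
      exact ⟨hx.2, hEmono (show i + 1 ≤ j from hij) ((hall i).2.2.2.2.1 hx.1)⟩
    · exact Finset.subset_inter (hAV1 i) (hAV1 j)
  have hInd1 : ∀ j, Ind A (E j) ((V j).image (σ (g j))) := by
    intro j
    have h1 := (hall j).2.2.2.2.2.2.1
    have h2 : E j ∪ (V j).image (σ (g j)) = (E j ∪ V j).image (σ (g j)) := by
      rw [Finset.image_union]
      congr 1
      ext x
      rw [Finset.mem_image]
      constructor
      · intro hx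
        exact ⟨x, hx, (hall j).2.2.2.2.2.2.2.2 x hx⟩
      · rintro ⟨y, hy, rfl⟩
        rw [(hall j).2.2.2.2.2.2.2.2 y hy]
        exact hy
    unfold Ind at *
    rw [h2, d_aut (hall j).2.2.2.2.2.2.2.1, d_aut (hall j).2.2.2.2.2.2.2.1]
    exact h1
  have hInd11 : ∀ i j, i < j → Ind A ((V i).image (σ (g i))) ((V j).image (σ (g j))) := by
    intro i j hij
    exact (hInd1 j).mono ((hall i).2.2.2.2.1.trans (hEmono (show i + 1 ≤ j from hij)))
  -- choose the realisation
  set N := 2 * (A.card + n) + Str.bd (A.card + n) + 2 with hN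
  obtain ⟨a, ha⟩ := con (g N)
  set U := MM.clo (A ∪ ran a) with hU
  have hUc : MM.Cl U Set.univ := Str.clo_cl good_MM _
  have hAU : A ⊆ U := Finset.subset_union_left.trans (Str.subset_clo good_MM _)
  have haU : ∀ t, a t ∈ U := fun t =>
    Str.subset_clo good_MM _ (Finset.mem_union_right _ (mem_ran a t))
  have hcard : (A ∪ ran a).card ≤ A.card + n :=
    (Finset.card_union_le _ _).trans (by have := card_ran a; omega)
  have hUcard : U.card ≤ Str.bd (A.card + n) :=
    (Str.card_clo_le good_MM _).trans (Str.bd_mono hcard)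
  have hdU : d U ≤ 2 * (A.card + n : ℕ) := by
    have h1 : d U = d (A ∪ ran a) := d_clo _
    have h2 := d_le (A ∪ ran a)
    have h3 : ((A ∪ ran a).card : ℤ) ≤ (A.card + n : ℕ) := by exact_mod_cast hcard
    linarith
  -- first kind of bad indices
  set B1 := (Finset.range N).filter (fun j => U ∩ V j ≠ A) with hB1
  have hB1c : B1.card ≤ U.card := by
    have hex : ∀ j ∈ B1, ∃ u, u ∈ U ∧ u ∈ V j ∧ u ∉ A := by
      intro j hj
      have h1 := (Finset.mem_filter.1 hj).2
      by_contra hcon
      push Not at hcon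
      apply h1
      apply Finset.Subset.antisymm
      · intro x hx
        rw [Finset.mem_inter] at hx
        exact hcon x hx.1 hx.2
      · exact Finset.subset_inter hAU (hAV j)
    choose! u hu using hex
    refine Finset.card_le_card_of_injOn u (fun j hj => (hu j hj).1) ?_
    have key : ∀ i ∈ B1, ∀ j ∈ B1, i < j → u i ≠ u j := by
      intro i hi j hj hij h
      apply (hu i hi).2.2
      rw [← (hall j).2.2.2.2.2.1, Finset.mem_inter]
      exact ⟨h ▸ (hu j hj).2.1, hVV i j hij (hu i hi).2.1⟩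
    intro i hi j hj h
    have hi' : i ∈ B1 := by exact_mod_cast hi
    have hj' : j ∈ B1 := by exact_mod_cast hj
    rcases lt_trichotomy i j with h1 | h1 | h1
    · exact absurd h (key i hi' j hj' h1)
    · exact h1
    · exact absurd h.symm (key j hj' i hi' h1)
  -- second kind of bad indices
  have hB2' : ∀ M, (((Finset.range M).filter (fun j => ¬ Ind A U (V j))).card : ℤ) ≤
      d U - (d (U ∪ E M) - d (E M)) := by
    intro M
    induction M with
    | zero =>
      have h1 := d_submod (X := U) (Y := E 0) (Z := ∅) (by simp) (by simp)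
      have h2 := d_nonneg ∅
      simp only [Finset.range_zero, Finset.filter_empty, Finset.card_empty, Nat.cast_zero]
      linarith
    | succ M ih =>
      have e1 : E M ∪ V M ⊆ E (M + 1) := Finset.union_subset (hall M).2.2.1 (hall M).2.2.2.1
      have h1 := d_submod (X := U ∪ (E M ∪ V M)) (Y := E (M + 1)) (Z := E M ∪ V M)
        (Finset.subset_union_right.trans (Str.subset_clo good_MM _))
        (e1.trans (Str.subset_clo good_MM _))
      have h1' : U ∪ (E M ∪ V M) ∪ E (M + 1) = U ∪ E (M + 1) := by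
        rw [Finset.union_assoc, Finset.union_eq_right.2 e1]
      rw [h1'] at h1
      have h2 := (hall M).2.2.2.2.2.2.1
      unfold Ind at h2
      have h3 := d_submod (X := U ∪ E M) (Y := U ∪ V M) (Z := U)
        (Finset.subset_union_left.trans (Str.subset_clo good_MM _))
        (Finset.subset_union_left.trans (Str.subset_clo good_MM _))
      rw [union_union_self] at h3
      have h4 := d_submod (X := U) (Y := V M) (Z := A)
        (hAU.trans (Str.subset_clo good_MM _)) ((hAV M).trans (Str.subset_clo good_MM _))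
      rw [Finset.range_add_one, Finset.filter_insert]
      by_cases h5 : Ind A U (V M)
      · rw [if_neg (not_not.2 h5)]
        linarith
      · rw [if_pos h5, Finset.card_insert_of_notMem (by simp)]
        unfold Ind at h5
        push_cast
        linarith
  set B2 := (Finset.range N).filter (fun j => ¬ Ind A U (V j)) with hB2
  have hB2c : (B2.card : ℤ) ≤ d U := by
    have h1 := hB2' N
    have h2 := d_mono (Finset.subset_union_right (s₁ := U) (s₂ := E N))
    linarith
  -- two good indices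
  have hgood : 1 < (Finset.range N \ (B1 ∪ B2)).card := by
    have h1 := Finset.card_union_le B1 B2
    have h2 := Finset.le_card_sdiff (B1 ∪ B2) (Finset.range N)
    rw [Finset.card_range] at h2
    omega
  obtain ⟨i, hi, j, hj, hij⟩ := Finset.one_lt_card.1 hgood
  have main : ∀ i j, i ∈ Finset.range N \ (B1 ∪ B2) → j ∈ Finset.range N \ (B1 ∪ B2) → i < j →
      False := by
    intro i j hi hj hij
    have hcl : ∀ j ∈ Finset.range N \ (B1 ∪ B2), j < N ∧ U ∩ V j = A ∧ Ind A U (V j) := by
      intro j hj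
      rw [Finset.mem_sdiff, Finset.mem_union, not_or, Finset.mem_filter, Finset.mem_filter] at hj
      refine ⟨Finset.mem_range.1 hj.1, ?_, ?_⟩
      · by_contra h; exact hj.2.1 ⟨hj.1, h⟩
      · by_contra h; exact hj.2.2 ⟨hj.1, h⟩
    obtain ⟨i1, i2, i3⟩ := hcl i hi
    obtain ⟨j1, j2, j3⟩ := hcl j hj
    obtain ⟨τa, τb, ta, tb, t1, t2, t3⟩ := threeAm (hall i).2.2.2.2.2.2.2.1
      (hall j).2.2.2.2.2.2.2.1 (hfixA i) (hfixA j) hUc (hall i).1 (hall j).1 i2 j2
      (hV1V1 i j hij) i3 j3 (hInd11 i j hij)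
    have ea : τa ∘ c0 (g i) = c1 (g i) := by
      funext t
      rw [← hc]
      exact t2 _ ((hall i).2.1 (mem_ran _ t))
    have eb : τb ∘ c0 (g j) = c1 (g j) := by
      funext t
      rw [← hc]
      exact t3 _ ((hall j).2.1 (mem_ran _ t))
    have eab : τa ∘ a = τb ∘ a := by
      funext t
      exact t1 _ (haU t)
    have f1 := hφ τa ta _ _ (ha (g i) (hg i1))
    have f2 := hφ τb tb _ _ (ha (g j) (hg j1))
    rw [ea] at f1
    rw [eb, ← eab] at f2
    exact inc (g i) (g j) (hg hij) ⟨_, f1, f2⟩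
  rcases lt_or_gt_of_ne hij with h | h
  · exact main i j hi hj h
  · exact main j i hj hi h

end Pool.Agent.H88.Gen
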