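import Pool.Agent.H88.Gen.Homog

/-!
# Finitely many orbits
-/

set_option autoImplicit false

namespace Pool.Agent.H88.Gen

open scoped Classical

/-- `σ` is an automorphism fixing `D` pointwise. -/
def AutOver (D : Finset ℕ) (σ : ℕ ≃ ℕ) : Prop := IsAut σ ∧ ∀ a ∈ D, σ a = a

instance : Finite Kind :=
  Finite.of_surjective (fun i : Fin 4 => match i with
    | 0 => Kind.pt | 1 => Kind.pos | 2 => Kind.neg | 3 => Kind.col) (by
      intro k
      cases k
      exacts [⟨0, rfl⟩, ⟨1, rfl⟩, ⟨2, rfl⟩, ⟨3, rfl⟩])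

theorem Str.bd_mono {m n : ℕ} (h : m ≤ n) : Str.bd m ≤ Str.bd n := by
  have h1 : 3 ^ (2 * m) ≤ 3 ^ (2 * n) := Nat.pow_le_pow_right (by norm_num) (by omega)
  have h2 : 2 * m * 3 ^ (2 * m) ≤ 2 * n * 3 ^ (2 * n) := Nat.mul_le_mul (by omega) h1
  unfold Str.bd
  omega

theorem exists_inj (W : Finset ℕ) {K : ℕ} (h : W.card ≤ K) :
    ∃ e : ℕ → Fin (K + 1), Set.InjOn e W := by
  refine ⟨fun n => if h' : n ∈ W then Fin.castLE (by omega) (W.equivFin ⟨n, h'⟩) else 0, ?_⟩
  intro a ha b hb hab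
  have ha' : a ∈ W := by exact_mod_cast ha
  have hb' : b ∈ W := by exact_mod_cast hb
  simp only [dif_pos ha', dif_pos hb'] at hab
  have h1 := (Fin.castLE_injective _) hab
  have h2 := W.equivFin.injective h1
  exact congrArg Subtype.val h2

/-- A complete invariant with finitely many values. -/
theorem exists_inv (D : Finset ℕ) (m : ℕ) : ∃ (F : Type) (_ : Finite F)
    (inv : (Fin m → ℕ) → F), ∀ c c', inv c = inv c' → ∃ σ, AutOver D σ ∧
      ∀ i, σ (c i) = c' i := by
  set K := Str.bd (D.card + m) with hK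
  set W : (Fin m → ℕ) → Finset ℕ := fun c => MM.clo (D ∪ Finset.univ.image c) with hW
  have hWc : ∀ c, (W c).card ≤ K := by
    intro c
    refine (Str.card_clo_le good_MM _).trans (Str.bd_mono ?_)
    refine (Finset.card_union_le _ _).trans ?_
    have : (Finset.univ.image c).card ≤ m := by
      refine Finset.card_image_le.trans ?_
      simp
    omega
  choose e he using fun c => exists_inj (W c) (hWc c)
  have hD : ∀ c, ∀ a ∈ D, a ∈ W c := fun c a ha =>
    Str.subset_clo good_MM _ (Finset.mem_union_left _ ha)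
  have hc : ∀ c i, c i ∈ W c := fun c i =>
    Str.subset_clo good_MM _ (Finset.mem_union_right _ (Finset.mem_image_of_mem _
      (Finset.mem_univ i)))
  refine ⟨Set (Fin (K + 1)) × Set (Fin (K + 1) × Kind) × Set (Fin (K + 1) × Fin (K + 1)) ×
    Set (Fin (K + 1) × Fin (K + 1)) × ({a // a ∈ D} → Fin (K + 1)) × (Fin m → Fin (K + 1)),
    inferInstance, fun c => ({k | ∃ a ∈ W c, e c a = k}, {p | ∃ a ∈ W c, (e c a, MM.kind a) = p},
      {p | ∃ a ∈ W c, ∃ b ∈ W c, (e c a, e c b) = p ∧ MM.I a b},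
      {p | ∃ a ∈ W c, ∃ b ∈ W c, (e c a, e c b) = p ∧ MM.R a b},
      (fun a => e c a.1), fun i => e c (c i)), ?_⟩
  intro c c' h
  simp only [Prod.mk.injEq] at h
  obtain ⟨h1, h2, h3, h4, h5, h6⟩ := h
  -- the partial isomorphism
  have hex : ∀ a ∈ W c, ∃ b ∈ W c', e c' b = e c a := by
    intro a ha
    have : e c a ∈ {k | ∃ a ∈ W c, e c a = k} := ⟨a, ha, rfl⟩
    rw [h1] at this
    exact this
  choose! f hfW hfe using hex
  have huniq : ∀ a ∈ W c, ∀ b ∈ W c', e c' b = e c a → b = f a := by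
    intro a ha b hb hab
    exact he c' (by exact_mod_cast hb) (by exact_mod_cast hfW a ha) (hab.trans (hfe a ha).symm)
  have hfinj : Set.InjOn f (W c) := by
    intro a ha b hb hab
    have ha' : a ∈ W c := by exact_mod_cast ha
    have hb' : b ∈ W c := by exact_mod_cast hb
    apply he c ha hb
    rw [← hfe a ha', ← hfe b hb', hab]
  have hfim : (W c).image f = W c' := by
    ext b
    rw [Finset.mem_image]
    constructor
    · rintro ⟨a, ha, rfl⟩
      exact hfW a ha
    · intro hb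
      have : e c' b ∈ {k | ∃ a ∈ W c', e c' a = k} := ⟨b, hb, rfl⟩
      rw [← h1] at this
      obtain ⟨a, ha, hab⟩ := this
      exact ⟨a, ha, (huniq a ha b hb hab.symm).symm⟩
  have hpiso : PIso (W c) f := by
    refine ⟨Str.clo_cl good_MM _, ⟨hfinj, ?_, ?_, ?_⟩, by rw [hfim]; exact Str.clo_cl good_MM _⟩
    · intro a ha
      have ha' : a ∈ W c := by exact_mod_cast ha
      have : (e c a, MM.kind a) ∈ {p | ∃ a ∈ W c, (e c a, MM.kind a) = p} := ⟨a, ha', rfl⟩
      rw [h2] at this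
      obtain ⟨b, hb, hab⟩ := this
      rw [Prod.mk.injEq] at hab
      rw [← huniq a ha' b hb hab.1]
      exact hab.2
    · intro a ha b hb
      have ha' : a ∈ W c := by exact_mod_cast ha
      have hb' : b ∈ W c := by exact_mod_cast hb
      constructor
      · intro hI
        have : (e c' (f a), e c' (f b)) ∈
            {p | ∃ a ∈ W c', ∃ b ∈ W c', (e c' a, e c' b) = p ∧ MM.I a b} :=
          ⟨f a, hfW a ha', f b, hfW b hb', rfl, hI⟩
        rw [← h3] at this
        obtain ⟨a₁, ha₁, b₁, hb₁, hab, hI'⟩ := this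
        rw [Prod.mk.injEq, hfe a ha', hfe b hb'] at hab
        rwa [he c (by exact_mod_cast ha₁) ha hab.1, he c (by exact_mod_cast hb₁) hb hab.2] at hI'
      · intro hI
        have : (e c a, e c b) ∈
            {p | ∃ a ∈ W c, ∃ b ∈ W c, (e c a, e c b) = p ∧ MM.I a b} :=
          ⟨a, ha', b, hb', rfl, hI⟩
        rw [h3] at this
        obtain ⟨a₁, ha₁, b₁, hb₁, hab, hI'⟩ := this
        rw [Prod.mk.injEq] at hab
        rwa [huniq a ha' a₁ ha₁ hab.1, huniq b hb' b₁ hb₁ hab.2] at hI'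
    · intro a ha b hb
      have ha' : a ∈ W c := by exact_mod_cast ha
      have hb' : b ∈ W c := by exact_mod_cast hb
      constructor
      · intro hI
        have : (e c' (f a), e c' (f b)) ∈
            {p | ∃ a ∈ W c', ∃ b ∈ W c', (e c' a, e c' b) = p ∧ MM.R a b} :=
          ⟨f a, hfW a ha', f b, hfW b hb', rfl, hI⟩
        rw [← h4] at this
        obtain ⟨a₁, ha₁, b₁, hb₁, hab, hI'⟩ := this
        rw [Prod.mk.injEq, hfe a ha', hfe b hb'] at hab
        rwa [he c (by exact_mod_cast ha₁) ha hab.1, he c (by exact_mod_cast hb₁) hb hab.2] at hI'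
      · intro hI
        have : (e c a, e c b) ∈
            {p | ∃ a ∈ W c, ∃ b ∈ W c, (e c a, e c b) = p ∧ MM.R a b} :=
          ⟨a, ha', b, hb', rfl, hI⟩
        rw [h4] at this
        obtain ⟨a₁, ha₁, b₁, hb₁, hab, hI'⟩ := this
        rw [Prod.mk.injEq] at hab
        rwa [huniq a ha' a₁ ha₁ hab.1, huniq b hb' b₁ hb₁ hab.2] at hI'
  obtain ⟨σ, h7, h8⟩ := hpiso.exists_aut
  refine ⟨σ, ⟨h7, fun a ha => ?_⟩, fun i => ?_⟩
  · rw [h8 a (hD c a ha)]
    have := congrFun h5 ⟨a, ha⟩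
    exact (huniq a (hD c a ha) a (hD c' a ha) this.symm).symm
  · rw [h8 _ (hc c i)]
    have := congrFun h6 i
    exact (huniq _ (hc c i) _ (hc c' i) this.symm).symm

namespace AutOver

theorem refl (D : Finset ℕ) : AutOver D (Equiv.refl ℕ) := ⟨IsAut.refl, fun _ _ => rfl⟩

theorem symm {D : Finset ℕ} {σ : ℕ ≃ ℕ} (h : AutOver D σ) : AutOver D σ.symm :=
  ⟨h.1.symm, fun a ha => by rw [Equiv.symm_apply_eq]; exact (h.2 a ha).symm⟩

theorem trans {D : Finset ℕ} {σ τ : ℕ ≃ ℕ} (h : AutOver D σ) (h' : AutOver D τ) :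
    AutOver D (σ.trans τ) :=
  ⟨h.1.trans h'.1, fun a ha => by simp [h.2 a ha, h'.2 a ha]⟩

theorem mono {D D' : Finset ℕ} {σ : ℕ ≃ ℕ} (h : AutOver D σ) (hD : D' ⊆ D) : AutOver D' σ :=
  ⟨h.1, fun a ha => h.2 a (hD ha)⟩

end AutOver

end Pool.Agent.H88.Gen
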