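import Mathlib
import Pool.Agent.H88.Gen.BackForth

/-!
# A criterion for countable categoricity
-/

set_option autoImplicit false

namespace Pool.Agent.H88.Gen

open FirstOrder FirstOrder.Language

open scoped Classical

variable {L : FirstOrder.Language.{0, 0}} {M N : Type} [L.Structure M] [L.Structure N]

/-- Two tuples (of possibly different structures) have the same type. -/
def Ty (L : FirstOrder.Language.{0, 0}) {M N : Type} [L.Structure M] [L.Structure N] {α : Type}
    (a : α → M) (b : α → N) : Prop :=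
  ∀ φ : L.Formula α, φ.Realize a ↔ φ.Realize b

/-- Finitely many types in each finite set of variables. -/
def FinTypes (L : FirstOrder.Language.{0, 0}) (M : Type) [L.Structure M] : Prop :=
  ∀ (α : Type) [Finite α], ∃ (F : Type) (_ : Finite F) (inv : (α → M) → F),
    ∀ a b, inv a = inv b → Ty L a b

theorem exists_isol (h : FinTypes L M) {α : Type} [Finite α] (a : α → M) :
    ∃ θ : L.Formula α, θ.Realize a ∧ ∀ b : α → M, θ.Realize b → Ty L a b := by
  obtain ⟨F, hF, inv, hinv⟩ := h α
  have hex : ∀ f : F, ∃ χ : L.Formula α, χ.Realize a ∧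
      ∀ b, inv b = f → χ.Realize b → Ty L a b := by
    intro f
    by_cases hf : ∃ b, inv b = f
    · obtain ⟨b, hb⟩ := hf
      by_cases hab : Ty L a b
      · refine ⟨⊤, by simp, fun b' hb' _ => ?_⟩
        have h1 := hinv b b' (hb.trans hb'.symm)
        exact fun φ => (hab φ).trans (h1 φ)
      · unfold Ty at hab
        push Not at hab
        obtain ⟨φ, hφ⟩ := hab
        rcases hφ with hφ | hφ
        · refine ⟨φ, hφ.1, fun b' hb' h2 => ?_⟩
          have h1 := hinv b b' (hb.trans hb'.symm)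
          exact absurd ((h1 φ).2 h2) hφ.2
        · refine ⟨φ.not, by simpa using hφ.1, fun b' hb' h2 => ?_⟩
          have h1 := hinv b b' (hb.trans hb'.symm)
          have h3 := (h1 φ).1 hφ.2
          simp only [Formula.realize_not] at h2
          exact absurd h3 h2
    · exact ⟨⊤, by simp, fun b hb => absurd ⟨b, hb⟩ hf⟩
  choose χ hχ1 hχ2 using hex
  refine ⟨Formula.iInf χ, by simpa using hχ1, fun b hb => ?_⟩
  rw [Formula.realize_iInf] at hb
  exact hχ2 (inv b) b rfl (hb _)

theorem exists_cover (h : FinTypes L M) (α : Type) [Finite α] :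
    ∃ (F : Type) (_ : Finite F) (θ : F → L.Formula α),
      (∀ f, ∀ a b : α → M, (θ f).Realize a → (θ f).Realize b → Ty L a b) ∧
      ∀ a : α → M, ∃ f, (θ f).Realize a := by
  obtain ⟨F, hF, inv, hinv⟩ := h α
  have hex : ∀ f : F, ∃ θ : L.Formula α, (∀ a b : α → M, θ.Realize a → θ.Realize b → Ty L a b) ∧
      ∀ a, inv a = f → θ.Realize a := by
    intro f
    by_cases hf : ∃ b, inv b = f
    · obtain ⟨b, hb⟩ := hf
      obtain ⟨θ, h1, h2⟩ := exists_isol h b
      refine ⟨θ, fun a a' ha ha' φ => ((h2 a ha) φ).symm.trans ((h2 a' ha') φ), fun a ha => ?_⟩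
      exact (hinv b a (hb.trans ha.symm) θ).1 h1
    · exact ⟨⊥, fun a b ha => absurd ha (by simp), fun a ha => absurd ⟨a, ha⟩ hf⟩
  choose θ h1 h2 using hex
  exact ⟨F, hF, θ, h1, fun a => ⟨inv a, h2 _ a rfl⟩⟩

theorem Ty.sum_forth (h : FinTypes L M) {α : Type} [Finite α] {a : α → M} {b : α → N}
    (hab : Ty L a b) (a' : M) : ∃ b' : N,
      Ty L (Sum.elim a (fun _ : Unit => a')) (Sum.elim b (fun _ : Unit => b')) := by
  obtain ⟨θ, h1, h2⟩ := exists_isol h (Sum.elim a (fun _ : Unit => a'))
  have h3 : (θ.iExs Unit).Realize a := by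
    rw [Formula.realize_iExs]
    exact ⟨fun _ => a', h1⟩
  rw [hab, Formula.realize_iExs] at h3
  obtain ⟨i, hi⟩ := h3
  have hi' : i = fun _ => i () := by funext x; rfl
  refine ⟨i (), ?_⟩
  rw [← hi']
  -- both directions
  have key : ∀ φ : L.Formula (α ⊕ Unit), φ.Realize (Sum.elim a (fun _ : Unit => a')) →
      φ.Realize (Sum.elim b i) := by
    intro φ hφ
    have h4 : ((θ.imp φ).iAlls Unit).Realize a := by
      rw [Formula.realize_iAlls]
      intro j
      rw [Formula.realize_imp]
      intro hj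
      exact (h2 _ hj φ).1 hφ
    rw [hab, Formula.realize_iAlls] at h4
    have h5 := h4 i
    rw [Formula.realize_imp] at h5
    exact h5 hi
  intro φ
  refine ⟨key φ, fun hφ => ?_⟩
  by_contra hn
  have := key φ.not (by simpa using hn)
  rw [Formula.realize_not] at this
  exact this hφ

theorem Ty.sum_back (h : FinTypes L M) {α : Type} [Finite α] {a : α → M} {b : α → N}
    (hab : Ty L a b) (b' : N) : ∃ a' : M,
      Ty L (Sum.elim a (fun _ : Unit => a')) (Sum.elim b (fun _ : Unit => b')) := by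
  obtain ⟨F, hF, θ, h1, h2⟩ := exists_cover h (α ⊕ Unit)
  have h3 : ((Formula.iSup θ).iAlls Unit).Realize a := by
    rw [Formula.realize_iAlls]
    intro j
    rw [Formula.realize_iSup]
    exact h2 _
  rw [hab, Formula.realize_iAlls] at h3
  have h4 := h3 (fun _ => b')
  rw [Formula.realize_iSup] at h4
  obtain ⟨f, hf⟩ := h4
  have h5 : ((θ f).iExs Unit).Realize b := by
    rw [Formula.realize_iExs]
    exact ⟨fun _ => b', hf⟩
  rw [← hab, Formula.realize_iExs] at h5
  obtain ⟨i, hi⟩ := h5
  have hi' : i = fun _ => i () := by funext x; rfl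
  refine ⟨i (), ?_⟩
  rw [← hi']
  have key : ∀ φ : L.Formula (α ⊕ Unit), φ.Realize (Sum.elim a i) →
      φ.Realize (Sum.elim b (fun _ : Unit => b')) := by
    intro φ hφ
    have h4 : (((θ f).imp φ).iAlls Unit).Realize a := by
      rw [Formula.realize_iAlls]
      intro j
      rw [Formula.realize_imp]
      intro hj
      exact (h1 f _ _ hi hj φ).1 hφ
    rw [hab, Formula.realize_iAlls] at h4
    have h5 := h4 (fun _ => b')
    rw [Formula.realize_imp] at h5
    exact h5 hf
  intro φ
  refine ⟨key φ, fun hφ => ?_⟩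
  by_contra hn
  have := key φ.not (by simpa using hn)
  rw [Formula.realize_not] at this
  exact this hφ

theorem range_elim {α M N : Type} (a : α → M) (b : α → N) (a' : M) (b' : N)
    (p : Finset (M × N)) (hp : (p : Set (M × N)) = Set.range fun i => (a i, b i)) :
    ((insert (a', b') p : Finset (M × N)) : Set (M × N)) =
      Set.range fun i => (Sum.elim a (fun _ : Unit => a') i, Sum.elim b (fun _ : Unit => b') i) := by
  rw [Finset.coe_insert, hp]
  ext x
  simp only [Set.mem_insert_iff, Set.mem_range, Sum.exists, Sum.elim_inl, Sum.elim_inr]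
  constructor
  · rintro (rfl | ⟨i, rfl⟩)
    · exact Or.inr ⟨(), rfl⟩
    · exact Or.inl ⟨i, rfl⟩
  · rintro (⟨i, rfl⟩ | ⟨_, rfl⟩)
    · exact Or.inr ⟨i, rfl⟩
    · exact Or.inl rfl

/-- Countable structures with finitely many types in each finite set of variables are
determined by their theory among countable structures. -/
theorem rn [Countable M] [Countable N] (h : FinTypes L M)
    (hMN : ∀ φ : L.Sentence, M ⊨ φ ↔ N ⊨ φ) : Nonempty (M ≃[L] N) := by
  set P : Set (Finset (M × N)) := {p | ∃ (α : Type) (_ : Finite α) (a : α → M) (b : α → N),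
    Ty L a b ∧ (p : Set (M × N)) = Set.range fun i => (a i, b i)} with hP
  have hfun : ∀ p ∈ P, ∀ x ∈ p, ∀ y ∈ p, (x.1 = y.1 ↔ x.2 = y.2) := by
    rintro p ⟨α, _, a, b, hab, hp⟩ x hx y hy
    have hx' : x ∈ (p : Set (M × N)) := by exact_mod_cast hx
    have hy' : y ∈ (p : Set (M × N)) := by exact_mod_cast hy
    rw [hp] at hx' hy'
    obtain ⟨i, rfl⟩ := hx'
    obtain ⟨j, rfl⟩ := hy'
    have := hab (Term.equal (Term.var i) (Term.var j))
    simpa [Formula.Realize, Term.equal] using this
  have forth : ∀ p ∈ P, ∀ a, ∃ q ∈ P, p ⊆ q ∧ ∃ b, (a, b) ∈ q := by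
    rintro p ⟨α, _, a, b, hab, hp⟩ a'
    obtain ⟨b', hb'⟩ := hab.sum_forth h a'
    exact ⟨insert (a', b') p, ⟨α ⊕ Unit, inferInstance, _, _, hb', range_elim a b a' b' p hp⟩,
      Finset.subset_insert _ _, b', Finset.mem_insert_self _ _⟩
  have back : ∀ p ∈ P, ∀ b, ∃ q ∈ P, p ⊆ q ∧ ∃ a, (a, b) ∈ q := by
    rintro p ⟨α, _, a, b, hab, hp⟩ b'
    obtain ⟨a', ha'⟩ := hab.sum_back h b'
    exact ⟨insert (a', b') p, ⟨α ⊕ Unit, inferInstance, _, _, ha', range_elim a b a' b' p hp⟩,
      Finset.subset_insert _ _, a', Finset.mem_insert_self _ _⟩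
  have hp0 : (∅ : Finset (M × N)) ∈ P := by
    refine ⟨Empty, inferInstance, Empty.elim, Empty.elim, ?_, by
      rw [Finset.coe_empty, Set.range_eq_empty]⟩
    intro φ
    have h1 := hMN φ
    unfold Sentence.Realize at h1
    rw [Subsingleton.elim (Empty.elim : Empty → M) default,
      Subsingleton.elim (Empty.elim : Empty → N) default]
    exact h1
  obtain ⟨σ, _, hσ⟩ := backForth P hfun forth back ∅ hp0
  refine ⟨⟨σ, ?_, ?_⟩⟩
  · intro n f v
    obtain ⟨p, ⟨α, _, a, b, hab, hp⟩, hpX⟩ := hσ (insert (Structure.funMap f v)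
      (Finset.univ.image v))
    have hk : ∀ x ∈ insert (Structure.funMap f v) (Finset.univ.image v), ∃ i, a i = x ∧ b i = σ x := by
      intro x hx
      have h1 : (x, σ x) ∈ (p : Set (M × N)) := by exact_mod_cast hpX x hx
      rw [hp] at h1
      obtain ⟨i, hi⟩ := h1
      rw [Prod.mk.injEq] at hi
      exact ⟨i, hi⟩
    obtain ⟨i0, h0, h0'⟩ := hk _ (Finset.mem_insert_self _ _)
    have hk' : ∀ t, ∃ i, a i = v t ∧ b i = σ (v t) := fun t =>
      hk _ (Finset.mem_insert_of_mem (Finset.mem_image_of_mem _ (Finset.mem_univ t)))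
    choose k hk1 hk2 using hk'
    have h2 := hab (Term.equal (Term.func f fun t => Term.var (k t)) (Term.var i0))
    simp only [Formula.realize_equal, Term.realize_func, Term.realize_var] at h2
    have h3 : (fun t => a (k t)) = v := funext hk1
    have h4 : (fun t => b (k t)) = σ ∘ v := funext hk2
    rw [h3, h4, h0, h0'] at h2
    exact (h2.1 rfl).symm
  · intro n r v
    obtain ⟨p, ⟨α, _, a, b, hab, hp⟩, hpX⟩ := hσ (Finset.univ.image v)
    have hk : ∀ t, ∃ i, a i = v t ∧ b i = σ (v t) := by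
      intro t
      have h1 : (v t, σ (v t)) ∈ (p : Set (M × N)) := by
        exact_mod_cast hpX (v t) (Finset.mem_image_of_mem _ (Finset.mem_univ t))
      rw [hp] at h1
      obtain ⟨i, hi⟩ := h1
      rw [Prod.mk.injEq] at hi
      exact ⟨i, hi⟩
    choose k hk1 hk2 using hk
    have h2 := hab (r.formula fun t => Term.var (k t))
    simp only [Formula.realize_rel, Term.realize_var] at h2
    have h3 : (fun t => a (k t)) = v := funext hk1
    have h4 : (fun t => b (k t)) = σ ∘ v := funext hk2
    rw [h3, h4] at h2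
    exact h2.symm

end Pool.Agent.H88.Gen
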